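import Pool.Agent.Lib.MP_4a16d5_al.Equal

/-!
From a module with several components and slack two to a faithful matrix representation.
-/

namespace Pool.Agent.Lib.MP_4a16d5_al

open Finset

/-- The block of an index. -/
abbrev bl {σ : Type} {κ ι : σ → Type} (x : Σ s, κ s × ι s) : Σ s, κ s := ⟨x.1, x.2.1⟩

theorem rep_of_blocks {R : Type} [Ring R] {O : Type} [CommRing O] (ϖ : O)
    (hϖ : ∀ a, ϖ * a = 0 → a = 0) (p : ℕ) (hp : 2 ≤ p) (hpϖ : ϖ ∣ (p : O))
    {σ : Type} [Fintype σ] [DecidableEq σ] [Nonempty σ] {κ ι : σ → Type} [∀ s, Fintype (κ s)]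
    [∀ s, Fintype (ι s)] [∀ s, DecidableEq (κ s)] [∀ s, DecidableEq (ι s)]
    (β : (Σ s, κ s) → ℕ) (B : ℕ) (hB : 1 ≤ B) (htop : ∀ s, ∃ i : κ s, B ≤ β ⟨s, i⟩)
    (θ : R → Matrix (Σ s, κ s × ι s) (Σ s, κ s × ι s) O)
    (h0 : ∀ r, ∃ a : ∀ s, Matrix (ι s) (ι s) O, ∀ s i u v,
      ϖ ∣ θ r ⟨s, (i, u)⟩ ⟨s, (i, v)⟩ - a s u v)
    (h0' : ∀ r x y, bl x ≠ bl y → ϖ ^ (2 + (β (bl x) - β (bl y))) ∣ θ r x y)
    (h1 : ∀ x y, ϖ ^ β (bl x) ∣ (θ 1 - 1) x y)
    (hadd : ∀ r s x y, ϖ ^ β (bl x) ∣ (θ (r + s) - (θ r + θ s)) x y)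
    (hmul : ∀ r s x y, ϖ ^ β (bl x) ∣ (θ (r * s) - θ r * θ s) x y)
    (hinj : ∀ r, (∀ x y, ϖ ^ min (β (bl x)) B ∣ ϖ ^ 2 * θ r x y) → r = 0) :
    ∃ (C : Type) (_ : CommRing C) (n : ℕ) (f : R →+* Matrix (Fin n) (Fin n) C),
      Function.Injective f := by
  classical
  obtain ⟨Cop, _, lv, m, γ, ψ, hγ, e1, e2, ⟨c₀, e3⟩, e4, e5, e6⟩ :=
    equalize (fun x => min (β x) B) B hB (fun x => min_le_right _ _)
      (fun s => (htop s).imp fun i hi => min_eq_right hi)
  let pos : Fin (m + 1) × (Σ s, ι s) → Cop × (Σ s, κ s × ι s) :=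
    fun z => ((ψ z.2.1 z.1).1, ⟨z.2.1, ((ψ z.2.1 z.1).2, z.2.2)⟩)
  have hlv : ∀ z, lv (pos z).1 (bl (pos z).2) = γ z.1 := fun z => e5 _ _
  have hle : ∀ z : Fin (m + 1) × (Σ s, ι s), γ z.1 ≤ β (bl (pos z).2) := fun z => by
    rw [← hlv]
    exact (e1 _ _).trans (min_le_left _ _)
  have hbl : ∀ z w, (pos z).1 = (pos w).1 → bl (pos z).2 = bl (pos w).2 →
      z.1 = w.1 ∧ z.2.1 = w.2.1 := by
    rintro ⟨l, s, u⟩ ⟨l', s', u'⟩ h h'
    obtain rfl : s = s' := congrArg Sigma.fst h'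
    simp only [pos, bl, Sigma.mk.injEq, heq_eq_eq, true_and] at h h'
    exact ⟨e4 s (Prod.ext h h'), rfl⟩
  have hpos : Function.Injective pos := by
    rintro ⟨l, s, u⟩ ⟨l', s', u'⟩ h
    obtain ⟨h2, h3⟩ := hbl _ _ (congrArg Prod.fst h) (congrArg (fun q => bl q.2) h)
    simp only at h2 h3
    subst h2 h3
    simp only [pos, Prod.mk.injEq, Sigma.mk.injEq, heq_eq_eq, true_and] at h
    rw [h]
  have hsurj : ∀ c x, 1 ≤ lv c (bl x) → ∃ z, pos z = (c, x) := by
    rintro c ⟨s, i, u⟩ h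
    obtain ⟨l, hl⟩ := e6 s c i h
    exact ⟨(l, ⟨s, u⟩), by simp [pos, hl]⟩
  have hoff : ∀ r c x y, bl x ≠ bl y → ϖ ^ (1 + (lv c (bl x) - lv c (bl y))) ∣ θ r x y := by
    intro r c x y h
    refine (pow_dvd_pow _ ?_).trans (h0' r x y h)
    have := e2 c (bl x) (bl y)
    omega
  let ext : Matrix (Σ s, κ s × ι s) (Σ s, κ s × ι s) O →
      Matrix (Fin (m + 1) × (Σ s, ι s)) (Fin (m + 1) × (Σ s, ι s)) O :=
    fun t => Matrix.of fun z w => if (pos z).1 = (pos w).1 then t (pos z).2 (pos w).2 else 0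
  have hext : ∀ t z w, ext t z w
      = if (pos z).1 = (pos w).1 then t (pos z).2 (pos w).2 else 0 := fun _ _ _ => rfl
  have hsub : ∀ t t', ext (t - t') = ext t - ext t' := by
    intro t t'
    ext z w
    simp only [hext, Matrix.sub_apply]
    split_ifs <;> simp
  have hadd' : ∀ t t', ext (t + t') = ext t + ext t' := by
    intro t t'
    ext z w
    simp only [hext, Matrix.add_apply]
    split_ifs <;> simp
  have hone : ext 1 = 1 := by
    ext z w
    rw [hext]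
    by_cases h : z = w
    · rw [h, if_pos rfl, Matrix.one_apply_eq, Matrix.one_apply_eq]
    · rw [Matrix.one_apply_ne h]
      split_ifs with h2
      · exact Matrix.one_apply_ne fun h3 => h (hpos (Prod.ext h2 h3))
      · rfl
  have hK : ∀ t : Matrix (Σ s, κ s × ι s) (Σ s, κ s × ι s) O,
      (∀ x y, ϖ ^ β (bl x) ∣ t x y) → ∀ z w, ϖ ^ γ z.1 ∣ ext t z w := by
    intro t ht z w
    rw [hext]
    split_ifs
    · exact (pow_dvd_pow _ (hle z)).trans (ht _ _)
    · exact dvd_zero _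
  have hM : ∀ r (t : Matrix (Σ s, κ s × ι s) (Σ s, κ s × ι s) O) z w,
      ϖ ^ γ z.1 ∣ (ext (θ r * t) - ext (θ r) * ext t) z w := by
    intro r t z w
    let F : Cop × (Σ s, κ s × ι s) → O := fun q =>
      (if (pos z).1 = q.1 then θ r (pos z).2 q.2 else 0)
        * (if q.1 = (pos w).1 then t q.2 (pos w).2 else 0)
    have h2 : (ext (θ r) * ext t) z w = ∑ q ∈ univ.image pos, F q := by
      rw [Finset.sum_image fun a _ b _ h => hpos h]
      rfl
    have h3 : ext (θ r * t) z w = ∑ q, F q := by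
      rw [Fintype.sum_prod_type, Finset.sum_eq_single (pos z).1, hext]
      · simp only [F, if_true, Matrix.mul_apply]
        split_ifs <;> simp
      · intro c _ hc
        simp [F, Ne.symm hc]
      · simp
    rw [Matrix.sub_apply, h2, h3, ← Finset.sum_add_sum_compl (univ.image pos), add_sub_cancel_left]
    refine Finset.dvd_sum fun q hq => Dvd.dvd.mul_right ?_ _
    split_ifs with h
    · have h4 : lv q.1 (bl q.2) = 0 := by
        by_contra h4
        obtain ⟨y, hy⟩ := hsurj q.1 q.2 (by omega)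
        exact Finset.mem_compl.mp hq (Finset.mem_image.mpr ⟨y, Finset.mem_univ _, hy⟩)
      have h5 := hlv z
      rw [h] at h5
      by_cases h6 : bl (pos z).2 = bl q.2
      · rw [← h5, h6, h4, pow_zero]
        exact one_dvd _
      · refine (pow_dvd_pow _ ?_).trans (hoff r q.1 _ _ h6)
        omega
    · exact dvd_zero _
  refine rep_of_near ϖ hϖ p hp hpϖ m γ hγ (fun r => ext (θ r)) ?_ ?_ ?_ ?_ ?_
  · intro r
    obtain ⟨a, ha⟩ := h0 r
    refine ⟨Matrix.blockDiagonal' a, fun z w => ?_⟩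
    by_cases h : z.1 = w.1 ∧ z.2.1 = w.2.1
    · obtain ⟨l, s, u⟩ := z
      obtain ⟨l', s', u'⟩ := w
      obtain ⟨h2, h3⟩ := h
      simp only at h2 h3
      subst h2 h3
      simpa [hext, pos, blk] using ha s _ u u'
    · have h2 : blk m (Matrix.blockDiagonal' a) z w = 0 := by
        obtain ⟨l, s, u⟩ := z
        obtain ⟨l', s', u'⟩ := w
        simp only [blk, Matrix.of_apply]
        split_ifs with h3
        · exact Matrix.blockDiagonal'_apply_ne _ _ _ fun h4 => h ⟨h3, h4⟩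
        · rfl
      rw [Matrix.sub_apply, h2, sub_zero, hext]
      split_ifs with h3
      · have h4 := hoff r (pos z).1 _ _ fun h4 => h (hbl z w h3 h4)
        rw [hlv z, h3, hlv w] at h4
        exact h4
      · exact dvd_zero _
  · intro z w
    rw [← hone, ← hsub]
    exact hK _ h1 z w
  · intro r s z w
    rw [← hadd', ← hsub]
    exact hK _ (hadd r s) z w
  · intro r s z w
    have h2 := dvd_add (hK _ (hmul r s) z w) (hM r (θ s) z w)
    rw [hsub] at h2
    simpa using h2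
  · intro r hr
    refine hinj r fun x y => ?_
    rcases Nat.eq_zero_or_pos (min (β (bl x)) B) with hx | hx
    · rw [hx, pow_zero]
      exact one_dvd _
    rcases Nat.eq_zero_or_pos (min (β (bl y)) B) with hy | hy
    · have h2 := h0' r x y fun h => by
        rw [h] at hx
        omega
      exact ((pow_dvd_pow _ (by omega)).trans h2).mul_left _
    obtain ⟨z, hz⟩ := hsurj c₀ x (by rw [e3]; exact hx)
    obtain ⟨w, hw⟩ := hsurj c₀ y (by rw [e3]; exact hy)
    have h2 := hr z w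
    rw [hext, ← hlv z, hz, hw, if_pos rfl] at h2
    simpa only [e3] using h2

theorem rep_of_comp_gens {R : Type} [Ring R] (J : Set R) {O : Type} [CommRing O] (ϖ : O)
    (hϖ : ∀ a, ϖ * a = 0 → a = 0) (p : ℕ) (hp : 2 ≤ p) (hpϖ : ϖ ∣ (p : O))
    {W : Type} [AddCommGroup W] [Module O W] (act : R →+* Module.End O W)
    {σ : Type} [Fintype σ] [Nonempty σ] {κ ι : σ → Type} [∀ s, Fintype (κ s)]
    [∀ s, Fintype (ι s)]
    (β : (Σ s, κ s) → ℕ) (B : ℕ) (hB : 1 ≤ B)
    (htop : ∀ s, ∃ i : κ s, B ≤ β ⟨s, i⟩) (g : (Σ s, κ s × ι s) → W)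
    (hspan : ∀ w, ∃ a : (Σ s, κ s × ι s) → O, w = ∑ x, a x • g x)
    (hkill : ∀ x, ϖ ^ β (bl x) • g x = 0)
    (hker : ∀ a : (Σ s, κ s × ι s) → O, ∑ x, a x • g x = 0 → ∀ x, ϖ ^ β (bl x) ∣ a x)
    (h4 : ∀ r, ∃ a : ∀ s, Matrix (ι s) (ι s) O, ∃ y, r - y ∈ J ∧ ∀ s i u,
      act y (g ⟨s, (i, u)⟩) = ∑ v, a s v u • g ⟨s, (i, v)⟩)
    (h5a : ∀ x ∈ J, ∀ w, ∃ w', act x w = ϖ ^ 2 • w')
    (h5b : ∀ x ∈ J, ∀ w, ϖ ^ 2 • w = 0 → act x w = 0)
    (h6 : ∀ z : R, (∀ w, ∃ w', ϖ ^ 2 • act z w = ϖ ^ B • w') → z = 0) :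
    ∃ (C : Type) (_ : CommRing C) (n : ℕ) (f : R →+* Matrix (Fin n) (Fin n) C),
      Function.Injective f := by
  classical
  have hreg : ∀ (n : ℕ) a, ϖ ^ n * a = 0 → a = 0 := by
    intro n
    induction n with
    | zero => simp
    | succ n ih =>
      intro a h
      rw [pow_succ, mul_assoc] at h
      exact hϖ _ (ih _ h)
  have hrad : ∀ x ∈ J, ∀ j, ∃ c : (Σ s, κ s × ι s) → O, act x (g j) = ∑ i, c i • g i ∧
      ∀ i, ϖ ^ (2 + (β (bl i) - β (bl j))) ∣ c i := by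
    intro x hx j
    rcases Nat.lt_or_ge (β (bl j)) 2 with h | h
    · refine ⟨0, ?_, fun i => dvd_zero _⟩
      obtain ⟨k, hk⟩ := Nat.exists_eq_add_of_le' h.le
      rw [h5b x hx _ (by rw [hk, pow_add, mul_smul, hkill, smul_zero])]
      simp
    obtain ⟨w', hw'⟩ := h5a x hx (g j)
    obtain ⟨a, rfl⟩ := hspan w'
    have h1 : act x (g j) = ∑ i, (ϖ ^ 2 * a i) • g i := by
      rw [hw', Finset.smul_sum]
      simp only [mul_smul]
    refine ⟨fun i => ϖ ^ 2 * a i, h1, fun i => ?_⟩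
    rcases le_total (β (bl i)) (β (bl j)) with h2 | h2
    · rw [Nat.sub_eq_zero_of_le h2, add_zero]
      exact dvd_mul_right _ _
    · obtain ⟨k, hk⟩ := Nat.exists_eq_add_of_le h
      have h3 := h5b x hx (ϖ ^ k • g j) (by rw [smul_smul, ← pow_add, ← hk, hkill])
      rw [map_smul, h1, Finset.smul_sum] at h3
      obtain ⟨d, hd⟩ := hker (fun i => ϖ ^ k * (ϖ ^ 2 * a i))
        (by simpa only [mul_smul] using h3) i
      refine ⟨d, ?_⟩
      rw [← sub_eq_zero]
      apply hreg k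
      have h5 : β (bl i) = k + (2 + (β (bl i) - β (bl j))) := by omega
      rw [h5, pow_add] at hd
      linear_combination hd
  have hθ : ∀ r, ∃ t : Matrix (Σ s, κ s × ι s) (Σ s, κ s × ι s) O,
      (∀ j, act r (g j) = ∑ i, t i j • g i) ∧
      (∃ a : ∀ s, Matrix (ι s) (ι s) O, ∀ s i u v, ϖ ∣ t ⟨s, (i, u)⟩ ⟨s, (i, v)⟩ - a s u v) ∧
      ∀ x y, bl x ≠ bl y → ϖ ^ (2 + (β (bl x) - β (bl y))) ∣ t x y := by
    intro r
    obtain ⟨a, y, hy, ha⟩ := h4 r
    choose c hc1 hc2 using hrad _ hy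
    let A : Matrix (Σ s, κ s × ι s) (Σ s, κ s × ι s) O := Matrix.blockDiagonal' fun s =>
      Matrix.of fun x y : κ s × ι s => if x.1 = y.1 then a s x.2 y.2 else 0
    refine ⟨Matrix.of fun i j => A i j + c j i, ?_, ⟨a, ?_⟩, ?_⟩
    · rintro ⟨s, i, u⟩
      have h1 : act r = act y + act (r - y) := by
        rw [← map_add, add_sub_cancel]
      rw [h1, LinearMap.add_apply, ha, hc1]
      simp only [Matrix.of_apply, add_smul, Finset.sum_add_distrib, add_left_inj]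
      rw [Fintype.sum_sigma, Finset.sum_eq_single s, Fintype.sum_prod_type,
        Finset.sum_eq_single i]
      · simp [A]
      · intro k _ hk
        simp [A, hk]
      · simp
      · intro t _ ht
        simp [A, Matrix.blockDiagonal'_apply_ne _ _ _ ht]
      · simp
    · intro s i u v
      have := (dvd_pow_self ϖ (by omega)).trans (hc2 ⟨s, (i, v)⟩ ⟨s, (i, u)⟩)
      simpa [A] using this
    · rintro ⟨s, i, u⟩ ⟨t, k, v⟩ h
      have h1 : A ⟨s, (i, u)⟩ ⟨t, (k, v)⟩ = 0 := by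
        by_cases h2 : s = t
        · subst h2
          have h3 : i ≠ k := fun h3 => h (by rw [h3])
          simp [A, h3]
        · exact Matrix.blockDiagonal'_apply_ne _ _ _ h2
      rw [Matrix.of_apply, h1, zero_add]
      exact hc2 _ _
  choose θ hθ1 hθ2 hθ3 using hθ
  have hdiff : ∀ t t' : Matrix (Σ s, κ s × ι s) (Σ s, κ s × ι s) O,
      (∀ j, ∑ i, t i j • g i = ∑ i, t' i j • g i) → ∀ x y, ϖ ^ β (bl x) ∣ (t - t') x y := by
    intro t t' h x y
    refine hker (fun i => (t - t') i y) ?_ x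
    simp only [Matrix.sub_apply, sub_smul, Finset.sum_sub_distrib, h y, sub_self]
  refine rep_of_blocks ϖ hϖ p hp hpϖ β B hB htop θ hθ2 hθ3 (hdiff _ _ fun j => ?_)
    (fun r s => hdiff _ _ fun j => ?_) (fun r s => hdiff _ _ fun j => ?_) fun z hz => ?_
  · rw [← hθ1]
    simp [Matrix.one_apply]
  · rw [← hθ1, map_add, LinearMap.add_apply, hθ1, hθ1]
    simp only [Matrix.add_apply, add_smul, Finset.sum_add_distrib]
  · rw [← hθ1, map_mul, Module.End.mul_apply, hθ1 s j]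
    simp only [map_sum, map_smul, Matrix.mul_apply, Finset.sum_smul]
    rw [Finset.sum_comm]
    refine Finset.sum_congr rfl fun k _ => ?_
    rw [hθ1, Finset.smul_sum]
    refine Finset.sum_congr rfl fun i _ => ?_
    rw [smul_smul, mul_comm]
  · refine h6 z fun w => ?_
    let P : Submodule O W := LinearMap.range (ϖ ^ B • LinearMap.id)
    suffices h : ϖ ^ 2 • act z w ∈ P from h.imp fun w' h => h.symm
    obtain ⟨a, rfl⟩ := hspan w
    rw [map_sum, Finset.smul_sum]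
    refine P.sum_mem fun j _ => ?_
    rw [map_smul, smul_comm, hθ1, Finset.smul_sum]
    refine P.smul_mem _ (P.sum_mem fun i _ => ?_)
    obtain ⟨d, hd⟩ := hz i j
    rw [smul_smul, hd]
    rcases le_total (β (bl i)) B with h | h
    · rw [min_eq_left h, mul_comm, mul_smul, hkill, smul_zero]
      exact P.zero_mem
    · rw [min_eq_right h, mul_smul]
      exact ⟨_, rfl⟩

end Pool.Agent.Lib.MP_4a16d5_al
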