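import Pool.Agent.Lib.MP_4a16d5_al.Pure

/-!
The two directions of the classification of representable finite rings.
-/

namespace Pool.Agent.Lib.MP_4a16d5_al

open Finset

universe u v

lemma exists_isUnit_entry {L : Type v} [CommRing L] [IsLocalRing L] {n : Type} [Fintype n]
    [DecidableEq n] (E : Matrix n n L) (hE : E * E = E) (h0 : E ≠ 0) : ∃ i j, IsUnit (E i j) := by
  by_contra h
  push Not at h
  have h1 : (IsLocalRing.residue L).mapMatrix (1 - E) = 1 := by
    rw [map_sub, map_one, sub_eq_self]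
    ext i j
    exact (IsLocalRing.residue_eq_zero_iff _).mpr (h i j)
  have h2 : IsUnit (1 - E).det := by
    rw [← IsLocalRing.residue_ne_zero_iff_isUnit, RingHom.map_det, h1, Matrix.det_one]
    exact one_ne_zero
  apply h0
  apply ((Matrix.isUnit_iff_isUnit_det _).mpr h2).mul_right_cancel
  rw [mul_sub, mul_one, hE, sub_self, zero_mul]

theorem necessity {R : Type u} [NonUnitalRing R] {K : Type v} [CommRing K] {n : ℕ}
    (f : R →ₙ+* Matrix (Fin n) (Fin n) K) (hf : Function.Injective f) (x : R) (hx : x ≠ 0) :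
    ∃ I : TwoSidedIdeal R, x ∉ I ∧
      ∀ e : R, e * e - e ∈ I → e ∉ I → ∀ m : ℕ, m • e ∈ I → ∀ y : R, m • y ∈ I := by
  have h1 : f x ≠ 0 := fun h => hx (hf (h.trans (map_zero f).symm))
  obtain ⟨i, j, h2⟩ : ∃ i j, f x i j ≠ 0 := by
    by_contra h
    push Not at h
    exact h1 (Matrix.ext h)
  obtain ⟨M, hM, hle⟩ := Ideal.exists_le_maximal (Ideal.torsionOf K K (f x i j))
    (fun h => h2 (Ideal.torsionOf_eq_top_iff K _ |>.mp h))
  let L := Localization.AtPrime M
  let g : R →ₙ+* Matrix (Fin n) (Fin n) L :=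
    ((algebraMap K L).mapMatrix : Matrix (Fin n) (Fin n) K →+* _).toNonUnitalRingHom.comp f
  refine ⟨TwoSidedIdeal.ker g, fun h => ?_, fun e h3 h4 m h5 y => ?_⟩
  · rw [TwoSidedIdeal.mem_ker] at h
    have h3 : algebraMap K L (f x i j) = 0 := congrFun (congrFun h i) j
    obtain ⟨a, ha⟩ := (IsLocalization.map_eq_zero_iff M.primeCompl L _).mp h3
    exact a.2 (hle ha)
  · rw [TwoSidedIdeal.mem_ker] at h3 h4 h5 ⊢
    rw [map_sub, map_mul, sub_eq_zero] at h3
    obtain ⟨a, b, hab⟩ := exists_isUnit_entry (g e) h3 h4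
    rw [map_nsmul] at h5 ⊢
    have h6 : (m : L) * g e a b = 0 := by
      rw [← nsmul_eq_mul]
      exact congrFun (congrFun h5 a) b
    rw [← Nat.cast_smul_eq_nsmul L, hab.mul_left_eq_zero.mp h6, zero_smul]

theorem rep_of_pure' (R : Type u) [Ring R] [Finite R] [Nontrivial R]
    (he : ∀ e : R, e * e = e → e ≠ 0 → ∀ m : ℕ, m • e = 0 → (m : R) = 0) :
    ∃ (C : Type) (_ : CommRing C) (n : ℕ) (f : R →+* Matrix (Fin n) (Fin n) C),
      Function.Injective f := by
  let φ : Shrink.{0} R ≃+* R := Shrink.ringEquiv.{0} R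
  have : Finite (Shrink.{0} R) := Finite.of_equiv R φ.toEquiv.symm
  have : Nontrivial (Shrink.{0} R) := φ.toEquiv.nontrivial
  obtain ⟨K, _, n, f, hf⟩ := rep_of_pure (Shrink.{0} R) fun e h1 h2 m h3 => by
    apply φ.injective
    rw [map_natCast, map_zero]
    exact he (φ e) (by rw [← map_mul, h1]) (fun h => h2 (φ.map_eq_zero_iff.mp h)) m
      (by rw [← map_nsmul, h3, map_zero])
  exact ⟨K, inferInstance, n, f.comp φ.symm.toRingHom, hf.comp φ.symm.injective⟩

theorem rep_of_one (Q : Type u) [NonUnitalRing Q] [Finite Q] [Nontrivial Q]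
    (he : ∀ e : Q, e * e = e → e ≠ 0 → ∀ m : ℕ, m • e = 0 → ∀ y : Q, m • y = 0)
    (u : Q) (hu : ∀ r, u * r = r ∧ r * u = r) :
    ∃ (C : Type) (_ : CommRing C) (n : ℕ) (f : Q →ₙ+* Matrix (Fin n) (Fin n) C),
      Function.Injective f ∧ f u = 1 := by
  let _ : Ring Q :=
    { (inferInstance : NonUnitalRing Q) with
      one := u
      one_mul := fun r => (hu r).1
      mul_one := fun r => (hu r).2 }
  obtain ⟨K, _, n, f, hf⟩ := rep_of_pure' Q fun e h1 h2 m h3 => by
    rw [← nsmul_one]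
    exact he e h1 h2 m h3 1
  exact ⟨K, inferInstance, n, f.toNonUnitalRingHom, hf, f.map_one⟩

theorem rep_of_primary (Q : Type u) [NonUnitalRing Q] [Finite Q] [Nontrivial Q]
    (he : ∀ e : Q, e * e = e → e ≠ 0 → ∀ m : ℕ, m • e = 0 → ∀ y : Q, m • y = 0)
    (p k : ℕ) (hp : p.Prime) (hk : ∀ y : Q, p ^ k • y = 0) :
    ∃ (C : Type) (_ : CommRing C) (n : ℕ) (f : Q →ₙ+* Matrix (Fin n) (Fin n) C),
      Function.Injective f := by
  obtain ⟨j, -, hj⟩ := (Nat.dvd_prime_pow hp).mp (AddMonoid.exponent_dvd_of_forall_nsmul_eq_zero hk)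
  have hj' : ∀ y : Q, p ^ j • y = 0 := fun y => hj ▸ AddMonoid.exponent_nsmul_eq_zero y
  have : NeZero (p ^ j) := ⟨(pow_pos hp.pos j).ne'⟩
  let _ : Module (ZMod (p ^ j)) Q := AddCommGroup.zmodModule hj'
  have : IsScalarTower (ZMod (p ^ j)) Q Q := ⟨fun a b c => by
    obtain ⟨a, rfl⟩ := ZMod.natCast_zmod_surjective a
    simp only [Nat.cast_smul_eq_nsmul, smul_eq_mul, smul_mul_assoc]⟩
  have : SMulCommClass (ZMod (p ^ j)) Q Q := ⟨fun a b c => by
    obtain ⟨a, rfl⟩ := ZMod.natCast_zmod_surjective a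
    simp only [Nat.cast_smul_eq_nsmul, smul_eq_mul, mul_smul_comm]⟩
  have : Finite (Unitization (ZMod (p ^ j)) Q) := Finite.of_equiv _ Unitization.equiv.symm
  obtain ⟨K, _, n, f, hf⟩ := rep_of_pure' (Unitization (ZMod (p ^ j)) Q) fun e h1 h2 m h3 => by
    suffices h : (m : ZMod (p ^ j)) = 0 by
      rw [← map_natCast (algebraMap (ZMod (p ^ j)) _), h, map_zero]
    have h4 : e.fst * e.fst = e.fst := by rw [← Unitization.fst_mul, h1]
    by_cases h5 : IsUnit e.fst
    · have h6 := congrArg (fun z : Unitization (ZMod (p ^ j)) Q => z.fst) h3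
      rw [Unitization.fst_smul, nsmul_eq_mul] at h6
      exact h5.mul_left_eq_zero.mp h6
    · have h6 : e.fst = 0 := by
        obtain ⟨a, ha⟩ := ZMod.natCast_zmod_surjective e.fst
        rw [← ha, ZMod.isUnit_iff_coprime] at h5
        have h7 : p ∣ a := by
          by_contra h
          exact h5 (((Nat.Prime.coprime_iff_not_dvd hp).mpr h).symm.pow_right j)
        refine IsIdempotentElem.eq_zero_of_isNilpotent h4 ⟨j, ?_⟩
        rw [← ha, ← Nat.cast_pow, ZMod.natCast_eq_zero_iff]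
        exact pow_dvd_pow_of_dvd h7 j
      have h7 : e = (e.snd : Unitization (ZMod (p ^ j)) Q) := by
        conv_lhs => rw [← Unitization.inl_fst_add_inr_snd_eq e, h6, Unitization.inl_zero, zero_add]
      rw [h7] at h1 h2 h3
      rw [← Unitization.inr_mul, Unitization.inr_inj] at h1
      have h8 := he e.snd h1 (fun h => h2 (by rw [h, Unitization.inr_zero])) m
        (congrArg (fun z : Unitization (ZMod (p ^ j)) Q => z.snd) h3)
      rw [ZMod.natCast_eq_zero_iff, ← hj]
      exact AddMonoid.exponent_dvd_of_forall_nsmul_eq_zero h8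
  exact ⟨K, inferInstance, n, f.toNonUnitalRingHom.comp
    (Unitization.inrNonUnitalAlgHom (ZMod (p ^ j)) Q), hf.comp Unitization.inr_injective⟩

theorem rep_of_elem (Q : Type u) [NonUnitalRing Q] [Finite Q]
    (he : ∀ e : Q, e * e = e → e ≠ 0 → ∀ m : ℕ, m • e = 0 → ∀ y : Q, m • y = 0)
    (x : Q) (hx : x ≠ 0) :
    ∃ (C : Type) (_ : CommRing C) (n : ℕ) (f : Q →ₙ+* Matrix (Fin n) (Fin n) C), f x ≠ 0 := by
  have hp : (addOrderOf x).minFac.Prime :=
    Nat.minFac_prime fun h => hx (AddMonoid.addOrderOf_eq_one_iff.mp h)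
  have hpx := Nat.minFac_dvd (addOrderOf x)
  set p := (addOrderOf x).minFac
  obtain ⟨k, t', c, h1, ⟨c', h2⟩, h3, -⟩ := exists_split (AddMonoid.exponent Q) p
    AddMonoid.exponent_ne_zero_of_finite hp (hpx.trans (AddMonoid.addOrder_dvd_exponent x))
  have hc : ∀ y : Q, p ^ (k + 1) • c • y = 0 := by
    intro y
    rw [smul_smul, h2, ← mul_assoc, ← h1, mul_smul, AddMonoid.exponent_nsmul_eq_zero]
  let P : NonUnitalSubring Q :=
    { carrier := {y | p ^ (k + 1) • y = 0}
      add_mem' := fun {a b} ha hb => by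
        change _ • _ = _
        rw [smul_add, ha, hb, add_zero]
      zero_mem' := smul_zero _
      mul_mem' := fun {a b} ha _ => by
        change _ • _ = _
        rw [← smul_mul_assoc, ha, zero_mul]
      neg_mem' := fun {a} ha => by
        change _ • _ = _
        rw [smul_neg, ha, neg_zero] }
  have hcc : ∀ y : Q, c • c • y = c • y := by
    intro y
    have h4 : addOrderOf (c • y) ∣ p ^ (k + 1) := addOrderOf_dvd_of_nsmul_eq_zero (hc y)
    rw [nsmul_eq_nsmul_iff_modEq.mpr (h3.of_dvd h4), one_nsmul]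
  let π : Q →ₙ+* P :=
    { toFun := fun y => ⟨c • y, hc y⟩
      map_mul' := fun a b => Subtype.ext (by
        change c • (a * b) = c • a * c • b
        rw [smul_mul_assoc, mul_smul_comm, hcc])
      map_zero' := Subtype.ext (smul_zero _)
      map_add' := fun a b => Subtype.ext (smul_add _ _ _) }
  have hπ : π x ≠ 0 := by
    intro h
    have h4 : p ∣ c := hpx.trans (addOrderOf_dvd_of_nsmul_eq_zero (congrArg Subtype.val h))
    have h5 := (h3.of_dvd (dvd_pow_self p k.succ_ne_zero)).symm.trans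
      ((Nat.modEq_zero_iff_dvd).mpr h4)
    exact hp.not_dvd_one ((Nat.modEq_zero_iff_dvd).mp h5)
  have : Nontrivial P := ⟨_, _, hπ⟩
  obtain ⟨K, _, n, f, hf⟩ := rep_of_primary P (fun e h4 h5 m h6 y => Subtype.ext
    (he e (congrArg Subtype.val h4) (fun h => h5 (Subtype.ext h)) m (congrArg Subtype.val h6) y))
    p (k + 1) hp fun y => Subtype.ext y.2
  exact ⟨K, inferInstance, n, f.comp π, fun h => hπ (hf (h.trans (map_zero f).symm))⟩

lemma exists_blow (K : Type) [CommRing K] (n N : ℕ) (h : n ∣ N) (hN : N ≠ 0) :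
    ∃ G : Matrix (Fin n) (Fin n) K →+* Matrix (Fin N) (Fin N) K, Function.Injective G := by
  obtain ⟨m, rfl⟩ := h
  have : Nonempty (Fin m) := ⟨⟨0, Nat.pos_of_ne_zero fun h => hN (by simp [h])⟩⟩
  let e := Matrix.reindexAlgEquiv K K (finProdFinEquiv : Fin n × Fin m ≃ Fin (n * m))
  exact ⟨e.toRingEquiv.toRingHom.comp ((Matrix.blockDiagonalRingHom (Fin n) (Fin m) K).comp
    (Pi.constRingHom (Fin m) _)), e.injective.comp
      (Matrix.blockDiagonal_injective.comp Function.const_injective)⟩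

lemma exists_finite_quot {S : Type} [CommRing S] [Algebra.FiniteType ℤ S] (a : S) (ha : a ≠ 0)
    (t : ℕ) [NeZero t] (hta : t • a = 0) : ∃ I : Ideal S, a ∉ I ∧ Finite (S ⧸ I) := by
  have : IsNoetherianRing S := Algebra.FiniteType.isNoetherianRing ℤ S
  obtain ⟨M, hM, hle⟩ := Ideal.exists_le_maximal (Ideal.torsionOf S S a)
    (fun h => ha (Ideal.torsionOf_eq_top_iff S _ |>.mp h))
  have ht : (t : S) ∈ M := hle (by rwa [Ideal.mem_torsionOf_iff, Nat.cast_smul_eq_nsmul])
  have : Finite (S ⧸ M) := by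
    let _ := Ideal.Quotient.field M
    let _ : Module (ZMod t) (S ⧸ M) := AddCommGroup.zmodModule fun x => by
      rw [nsmul_eq_mul, ← map_natCast (Ideal.Quotient.mk M), Ideal.Quotient.eq_zero_iff_mem.mpr ht,
        zero_mul]
    let _ := ZMod.algebraOfModule t (S ⧸ M)
    have := Algebra.FiniteType.of_restrictScalars_finiteType ℤ (ZMod t) (S ⧸ M)
    have := finite_of_finite_type_of_isJacobsonRing (ZMod t) (S ⧸ M)
    exact @Module.finite_of_finite (ZMod t) _ _ _ Algebra.toModule _ this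
  by_contra h
  push Not at h
  obtain ⟨r, hr⟩ := (M.mem_iInf_smul_pow_eq_bot_iff a).mp (by
    rw [Submodule.mem_iInf]
    intro i
    rw [smul_eq_mul, Ideal.mul_top]
    by_contra hi
    exact not_finite_iff_infinite.mpr (h _ hi)
      (Ideal.finite_quotient_pow (IsNoetherian.noetherian M) i))
  have h1 : 1 - (r : S) ∈ M := hle (by rw [Ideal.mem_torsionOf_iff, sub_smul, one_smul, hr, sub_self])
  exact hM.ne_top ((Ideal.eq_top_iff_one M).mpr (by simpa using M.add_mem h1 r.2))

lemma finite_coeff {R : Type u} [NonUnitalRing R] [Finite R] {K : Type} [CommRing K] {n : ℕ}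
    (f : R →ₙ+* Matrix (Fin n) (Fin n) K) (x : R) (hx : f x ≠ 0) :
    ∃ (C : Type) (_ : CommRing C) (_ : Finite C) (g : R →ₙ+* Matrix (Fin n) (Fin n) C),
      g x ≠ 0 ∧ ∀ u, f u = 1 → g u = 1 := by
  let S := Algebra.adjoin ℤ (Set.range fun q : R × Fin n × Fin n => f q.1 q.2.1 q.2.2)
  have : Algebra.FiniteType ℤ S := .adjoin_of_finite (Set.finite_range _)
  let f' : R →ₙ+* Matrix (Fin n) (Fin n) S :=
    { toFun := fun r => Matrix.of fun i j => ⟨f r i j, Algebra.subset_adjoin ⟨(r, i, j), rfl⟩⟩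
      map_mul' := fun a b => Matrix.ext fun i j => Subtype.ext (by simp [Matrix.mul_apply])
      map_zero' := Matrix.ext fun i j => Subtype.ext (by simp)
      map_add' := fun a b => Matrix.ext fun i j => Subtype.ext (by simp) }
  obtain ⟨i, j, h⟩ : ∃ i j, f x i j ≠ 0 := by
    by_contra h
    push Not at h
    exact hx (Matrix.ext h)
  have : NeZero (addOrderOf x) := ⟨(addOrderOf_pos x).ne'⟩
  obtain ⟨I, hI, hfin⟩ := exists_finite_quot (f' x i j) (fun h' => h (congrArg Subtype.val h'))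
    (addOrderOf x) (by
      rw [← Matrix.smul_apply, ← map_nsmul, addOrderOf_nsmul_eq_zero, map_zero, Matrix.zero_apply])
  refine ⟨S ⧸ I, inferInstance, hfin,
    (Ideal.Quotient.mk I).mapMatrix.toNonUnitalRingHom.comp f', fun h' => hI ?_, fun u hu => ?_⟩
  · exact Ideal.Quotient.eq_zero_iff_mem.mp (congrFun (congrFun h' i) j)
  · have h1 : f' u = 1 := Matrix.ext fun i j => Subtype.ext (by
      change f u i j = _
      rw [hu, Matrix.one_apply, Matrix.one_apply]
      split_ifs <;> rfl)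
    exact (congrArg (Ideal.Quotient.mk I).mapMatrix h1).trans (map_one _)

theorem sufficiency {R : Type u} [NonUnitalRing R] [Finite R]
    (h : ∀ x : R, x ≠ 0 → ∃ I : TwoSidedIdeal R, x ∉ I ∧
      ∀ e : R, e * e - e ∈ I → e ∉ I → ∀ m : ℕ, m • e ∈ I → ∀ y : R, m • y ∈ I) :
    ∃ (n : ℕ) (K : Type v) (_ : CommRing K) (f : R →ₙ+* Matrix (Fin n) (Fin n) K),
      1 ≤ n ∧ Finite K ∧ (1 : K) ≠ 0 ∧ Function.Injective f ∧
      ∀ u : R, u ≠ 0 → (∀ r, u * r = r ∧ r * u = r) → f u = 1 := by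
  classical
  rcases subsingleton_or_nontrivial R with hR | hR
  · exact ⟨1, ULift (ZMod 2), inferInstance, 0, le_rfl, inferInstance, one_ne_zero,
      fun _ _ _ => Subsingleton.elim _ _, fun u hu => absurd (Subsingleton.elim _ _) hu⟩
  have key : ∀ x : R, x ≠ 0 → ∃ (C : Type) (_ : CommRing C) (n : ℕ)
      (f : R →ₙ+* Matrix (Fin n) (Fin n) C), f x ≠ 0 ∧
      ∀ u : R, (∀ r, u * r = r ∧ r * u = r) → f u = 1 := by
    intro x hx
    obtain ⟨I, hxI, hI⟩ := h x hx
    let π : R →ₙ+* I.ringCon.Quotient :=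
      { toFun := fun r => r
        map_mul' := fun _ _ => rfl
        map_zero' := rfl
        map_add' := fun _ _ => rfl }
    have hπ : Function.Surjective π := Quot.mk_surjective
    have hker : ∀ r, π r = 0 ↔ r ∈ I := fun r => RingCon.eq _
    have : Finite I.ringCon.Quotient := Finite.of_surjective _ hπ
    have hπx : π x ≠ 0 := fun h => hxI ((hker x).mp h)
    have he : ∀ e : I.ringCon.Quotient, e * e = e → e ≠ 0 → ∀ m : ℕ, m • e = 0 →
        ∀ y : I.ringCon.Quotient, m • y = 0 := by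
      intro e h1 h2 m h3 y
      obtain ⟨e, rfl⟩ := hπ e
      obtain ⟨y, rfl⟩ := hπ y
      rw [← map_nsmul, hker] at h3 ⊢
      exact hI e (by rw [← hker, map_sub, map_mul, h1, sub_self]) (fun h => h2 ((hker e).mpr h))
        m h3 y
    by_cases hu : ∃ u : R, ∀ r, u * r = r ∧ r * u = r
    · obtain ⟨u, hu⟩ := hu
      have : Nontrivial I.ringCon.Quotient := ⟨_, _, hπx⟩
      obtain ⟨K, _, n, f, hf, hf1⟩ := rep_of_one _ he (π u) fun r => by
        obtain ⟨r, rfl⟩ := hπ r
        rw [← map_mul, ← map_mul, (hu r).1, (hu r).2]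
        exact ⟨rfl, rfl⟩
      refine ⟨K, inferInstance, n, f.comp π, fun h => hπx (hf (h.trans (map_zero f).symm)),
        fun u' hu' => ?_⟩
      rw [(hu u').1.symm.trans (hu' u).2]
      exact hf1
    · obtain ⟨K, _, n, f, hf⟩ := rep_of_elem _ he _ hπx
      exact ⟨K, inferInstance, n, f.comp π, hf, fun u hu' => absurd ⟨u, hu'⟩ hu⟩
  have key' : ∀ x : R, x ≠ 0 → ∃ (C : Type) (_ : CommRing C) (_ : Finite C) (n : ℕ)
      (f : R →ₙ+* Matrix (Fin n) (Fin n) C), f x ≠ 0 ∧
      ∀ u : R, (∀ r, u * r = r ∧ r * u = r) → f u = 1 := by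
    intro x hx
    obtain ⟨K, _, n, f, h1, h2⟩ := key x hx
    obtain ⟨C, _, _, g, h3, h4⟩ := finite_coeff f x h1
    exact ⟨C, inferInstance, inferInstance, n, g, h3, fun u hu => h4 u (h2 u hu)⟩
  let X := Fin (Nat.card {x : R // x ≠ 0})
  let ε : {x : R // x ≠ 0} ≃ X := Finite.equivFin _
  choose K _ _ n f hf hf1 using fun a : X => key' (ε.symm a).1 (ε.symm a).2
  have hn : ∀ a, n a ≠ 0 := by
    intro a h
    have : IsEmpty (Fin (n a)) := h ▸ inferInstance
    exact hf a (Subsingleton.elim _ _)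
  have hN : ∏ a, n a ≠ 0 := Finset.prod_ne_zero_iff.mpr fun a _ => hn a
  choose G hG using fun a => exists_blow (K a) (n a) _ (Finset.dvd_prod_of_mem n (mem_univ a)) hN
  let E : (Π a, Matrix (Fin (∏ a, n a)) (Fin (∏ a, n a)) (K a)) ≃+*
      Matrix (Fin (∏ a, n a)) (Fin (∏ a, n a)) (ULift.{v} (Π a, K a)) :=
    Matrix.piRingEquiv.symm.trans ULift.ringEquiv.symm.mapMatrix
  let F : R →ₙ+* Π a, Matrix (Fin (∏ a, n a)) (Fin (∏ a, n a)) (K a) :=
    NonUnitalRingHom.pi fun a => (G a).toNonUnitalRingHom.comp (f a)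
  have hF : Function.Injective F := by
    rw [injective_iff_map_eq_zero]
    intro x hx
    by_contra h0
    refine hf (ε ⟨x, h0⟩) (hG _ ?_)
    rw [Equiv.symm_apply_apply, map_zero]
    exact congrFun hx _
  have hEF : Function.Injective (E.toNonUnitalRingHom.comp F) := E.injective.comp hF
  refine ⟨_, ULift.{v} (Π a, K a), inferInstance, E.toNonUnitalRingHom.comp F,
    Nat.pos_of_ne_zero hN, inferInstance, fun h1 => ?_, hEF, fun u _ hu => ?_⟩
  · have := subsingleton_of_zero_eq_one h1.symm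
    exact not_subsingleton R hEF.subsingleton
  · have h1 : F u = 1 := funext fun a => (congrArg (G a) (hf1 a u hu)).trans (map_one _)
    exact (congrArg E h1).trans (map_one E)

end Pool.Agent.Lib.MP_4a16d5_al
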