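import Mathlib

/-!
Finite local rings: nilpotency of the non-units and a coefficient ring.
-/

namespace Pool.Agent.Lib.MP_4a16d5_al

open Polynomial

variable (R : Type) [Ring R] [Finite R] [IsLocalRing R]

/-- The non-units of a finite local ring, as an ideal. -/
def nu : Ideal R where
  carrier := {a | ¬ IsUnit a}
  add_mem' := fun ha hb => IsLocalRing.nonunits_add ha hb
  zero_mem' := not_isUnit_zero
  smul_mem' := fun _ _ ha h => ha (isUnit_of_mul_isUnit_right h)

lemma mem_nu {a : R} : a ∈ nu R ↔ ¬ IsUnit a := Iff.rfl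

instance : (nu R).IsTwoSided := ⟨fun _ ha h => ha (isUnit_of_mul_isUnit_left h)⟩

lemma nu_le_jacobson : nu R ≤ Ideal.jacobson ⊥ := by
  intro x hx
  rw [Ideal.mem_jacobson_iff]
  intro y
  have h1 : IsUnit (y * x + 1) := by
    have h2 : IsUnit ((y * x + 1) + -(y * x)) := by simp
    refine (IsLocalRing.isUnit_or_isUnit_of_isUnit_add h2).resolve_right ?_
    exact (nu R).neg_mem ((nu R).mul_mem_left y hx)
  obtain ⟨u, hu⟩ := h1
  refine ⟨↑u⁻¹, ?_⟩
  have : (↑u⁻¹ : R) * y * x + ↑u⁻¹ = ↑u⁻¹ * (y * x + 1) := by noncomm_ring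
  rw [this, ← hu]
  simp

theorem exists_nil : ∃ n : ℕ, ∀ l : List R, l.length = n + 1 → (∀ x ∈ l, x ∈ nu R) →
    l.prod = 0 := by
  obtain ⟨n, hn⟩ := IsArtinianRing.isNilpotent_jacobson_bot (R := R)
  have key : ∀ l : List R, (∀ x ∈ l, x ∈ nu R) →
      l.prod ∈ (Ideal.jacobson ⊥ : Ideal R) ^ l.length := by
    intro l
    induction l using List.reverseRecOn with
    | nil =>
      intro _
      simp [Submodule.pow_zero]
    | append_singleton l a ih =>
      intro h
      rw [List.prod_append, List.prod_singleton, List.length_append, List.length_singleton,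
        Submodule.pow_succ]
      exact Ideal.mul_mem_mul (ih fun x hx => h x (by simp [hx]))
        (nu_le_jacobson R (h a (by simp)))
  refine ⟨n, fun l hl h => ?_⟩
  obtain ⟨a, l, rfl⟩ := List.exists_cons_of_length_eq_add_one hl
  have h1 := key l fun x hx => h x (by simp [hx])
  have h2 : l.length = n := by simpa using hl
  rw [h2, hn] at h1
  rw [List.prod_cons, (Submodule.mem_bot _).mp h1, mul_zero]

lemma isNilpotent_of_mem_nu {a : R} (ha : a ∈ nu R) : IsNilpotent a := by
  obtain ⟨n, hn⟩ := exists_nil R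
  refine ⟨n + 1, ?_⟩
  have := hn (List.replicate (n + 1) a) (by simp) (by
    intro x hx
    rw [List.eq_of_mem_replicate hx]
    exact ha)
  simpa using this

theorem coeff_ring : ∃ (p : ℕ) (S : Type) (_ : CommRing S) (ι : Type) (_ : Fintype ι)
    (_ : Module.Basis ι ℤ S) (φ : S →+* R), 2 ≤ p ∧ (p : R) ∈ nu R ∧
    (∀ r, ∃ s, r - φ s ∈ nu R) ∧ ∀ s, (p : S) ∣ s ∨ ∃ s', (p : S) ∣ s * s' - 1 := by
  classical
  have hnt : Nontrivial (R ⧸ nu R) :=
    Ideal.Quotient.nontrivial_iff.mpr fun h => (h.ge Submodule.mem_top : (1 : R) ∈ nu R) isUnit_one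
  have hfin : Finite (R ⧸ nu R) := Finite.of_surjective _ Ideal.Quotient.mk_surjective
  let : DivisionRing (R ⧸ nu R) := DivisionRing.ofIsUnitOrEqZero fun a => by
    obtain ⟨a, rfl⟩ := Ideal.Quotient.mk_surjective a
    by_cases h : IsUnit a
    · exact Or.inl (h.map _)
    · exact Or.inr (Ideal.Quotient.eq_zero_iff_mem.mpr h)
  let : Field (R ⧸ nu R) := littleWedderburn _
  obtain ⟨p, hp⟩ := CharP.exists (R ⧸ nu R)
  have hpp : p.Prime := CharP.char_is_prime (R ⧸ nu R) p
  have : Fact p.Prime := ⟨hpp⟩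
  let : Algebra (ZMod p) (R ⧸ nu R) := ZMod.algebra _ p
  obtain ⟨α, hα⟩ := Field.exists_primitive_element_of_finite_top (ZMod p) (R ⧸ nu R)
  have hint : IsIntegral (ZMod p) α := IsIntegral.of_finite _ _
  have hsurj : Function.Surjective (Int.castRingHom (ZMod p)) := ZMod.intCast_surjective
  obtain ⟨f, hf1, -, hf2⟩ := lifts_and_natDegree_eq_and_monic
    (Polynomial.lifts_iff_coeffs_subset_range _ |>.mpr fun c _ => hsurj c) (minpoly.monic hint)
  have hev : ∀ h : ℤ[X], aeval α (h.map (Int.castRingHom (ZMod p))) = aeval α h := by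
    intro h
    rw [aeval_def, eval₂_map, aeval_def]
    congr 1
    exact RingHom.ext_int _ _
  let π : R →+* R ⧸ nu R := Ideal.Quotient.mk (nu R)
  have hπ : ∀ (x : R) (h : ℤ[X]), π (aeval x h) = aeval (π x) h := fun x h =>
    (aeval_algHom_apply π.toIntAlgHom x h).symm
  obtain ⟨θ₀, hθ₀⟩ := Ideal.Quotient.mk_surjective α
  let ev : ℤ[X] →+* R := (aeval θ₀ : ℤ[X] →ₐ[ℤ] R).toRingHom
  let T := ℤ[X] ⧸ RingHom.ker ev
  let j : T →+* R := RingHom.kerLift ev
  have hj : Function.Injective j := RingHom.kerLift_injective ev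
  have hfT : Finite T := Finite.of_injective _ hj
  have hjev : ∀ (x : T) (h : ℤ[X]), j (aeval x h) = aeval (j x) h := fun x h =>
    (aeval_algHom_apply j.toIntAlgHom x h).symm
  let x : T := Ideal.Quotient.mk _ X
  have hx : j x = θ₀ := (RingHom.kerLift_mk ev X).trans (aeval_X θ₀)
  have hπx : π (j x) = α := by rw [hx]; exact hθ₀
  have h1 : IsNilpotent (aeval x f) := by
    have h2 : j (aeval x f) ∈ nu R := by
      rw [← Ideal.Quotient.eq_zero_iff_mem]
      change π _ = 0
      rw [hjev, hπ, hπx, ← hev, hf1, minpoly.aeval]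
    obtain ⟨n, hn⟩ := isNilpotent_of_mem_nu R h2
    exact ⟨n, hj (by rw [map_pow, hn, map_zero])⟩
  have h2 : IsUnit (aeval x (derivative f)) := by
    have h3 : IsUnit (j (aeval x (derivative f))) := by
      by_contra h
      have h4 : π (j (aeval x (derivative f))) = 0 := Ideal.Quotient.eq_zero_iff_mem.mpr h
      rw [hjev, hπ, hπx, ← hev, ← derivative_map, hf1] at h4
      exact (Algebra.IsSeparable.isSeparable (ZMod p) α).aeval_derivative_ne_zero
        (minpoly.aeval _ _) h4
    have h5 : Function.Injective fun t : T => aeval x (derivative f) * t := by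
      intro a b hab
      apply hj
      apply h3.mul_left_cancel
      rw [← map_mul, ← map_mul]
      exact congrArg j hab
    obtain ⟨t, ht⟩ := Finite.surjective_of_injective h5 1
    exact IsUnit.of_mul_eq_one t ht
  obtain ⟨y, ⟨hy1, hy2⟩, -⟩ := existsUnique_nilpotent_sub_and_aeval_eq_zero h1 h2
  have hπy : π (j y) = α := by
    have h3 : IsNilpotent (π (j (x - y))) := (hy1.map j).map π
    have h4 := h3.eq_zero
    rw [map_sub, map_sub, sub_eq_zero, hπx] at h4
    exact h4.symm
  let ψ : AdjoinRoot f →+* T := AdjoinRoot.lift (algebraMap ℤ T) y hy2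
  have hψ : ∀ h : ℤ[X], π (j (ψ (AdjoinRoot.mk f h))) = aeval α h := by
    intro h
    have h3 : ψ (AdjoinRoot.mk f h) = aeval y h := AdjoinRoot.lift_mk hy2 h
    rw [h3, hjev, hπ, hπy]
  have hsur : ∀ a : R ⧸ nu R, ∃ s, π (j (ψ s)) = a := by
    intro a
    have h3 : a ∈ (IntermediateField.adjoin (ZMod p) {α}).toSubalgebra := by
      rw [hα]
      trivial
    rw [IntermediateField.adjoin_simple_toSubalgebra_of_isAlgebraic hint.isAlgebraic,
      Algebra.adjoin_singleton_eq_range_aeval] at h3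
    obtain ⟨g, hg⟩ := h3
    obtain ⟨h, rfl⟩ := Polynomial.map_surjective _ hsurj g
    exact ⟨AdjoinRoot.mk f h, by rw [hψ, ← hev]; exact hg⟩
  have hker : ∀ s, π (j (ψ s)) = 0 → (p : AdjoinRoot f) ∣ s := by
    intro s hs
    obtain ⟨h, rfl⟩ := AdjoinRoot.mk_surjective s
    rw [hψ, ← hev] at hs
    obtain ⟨k, hk⟩ := minpoly.dvd _ _ hs
    obtain ⟨k, rfl⟩ := Polynomial.map_surjective _ hsurj k
    rw [← hf1, ← Polynomial.map_mul, ← sub_eq_zero, ← Polynomial.map_sub] at hk
    have h3 : C (p : ℤ) ∣ h - f * k := by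
      rw [C_dvd_iff_dvd_coeff]
      intro i
      have := congrArg (fun q => coeff q i) hk
      simp only [coeff_map, coeff_zero, eq_intCast] at this
      exact (ZMod.intCast_zmod_eq_zero_iff_dvd _ _).mp this
    have h4 := map_dvd (AdjoinRoot.mk f) h3
    simpa using h4
  have b : Module.Basis (Fin (AdjoinRoot.powerBasis' hf2).dim) ℤ (AdjoinRoot f) := by
    convert (AdjoinRoot.powerBasis' hf2).basis
  refine ⟨p, AdjoinRoot f, inferInstance, _, inferInstance, b, j.comp ψ, hpp.two_le, ?_, ?_, ?_⟩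
  · rw [← Ideal.Quotient.eq_zero_iff_mem, map_natCast]
    exact CharP.cast_eq_zero _ p
  · intro r
    obtain ⟨s, hs⟩ := hsur (π r)
    refine ⟨s, ?_⟩
    rw [← Ideal.Quotient.eq_zero_iff_mem, map_sub, sub_eq_zero]
    exact hs.symm
  · intro s
    by_cases h : π (j (ψ s)) = 0
    · exact Or.inl (hker s h)
    · obtain ⟨s', hs'⟩ := hsur (π (j (ψ s)))⁻¹
      refine Or.inr ⟨s', hker _ ?_⟩
      rw [map_sub, map_sub, map_sub, map_mul, map_mul, map_mul, hs', mul_inv_cancel₀ h]
      simp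

end Pool.Agent.Lib.MP_4a16d5_al
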