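import Mathlib

/-!
Structure of finite modules killed by a power of `ϖ` when `C / ϖ` is a field or zero.
-/

namespace Pool.Agent.Lib.MP_4a16d5_al

open Finset

lemma struct_one {C : Type} [CommRing C] (ϖ : C) (hf : ∀ c, ϖ ∣ c ∨ ∃ c', ϖ ∣ c * c' - 1)
    (W : Type) [AddCommGroup W] [Module C W] [Finite W] (hW : ∀ x : W, ϖ • x = 0) :
    ∃ (κ : Type) (_ : Fintype κ) (w : κ → W), (∀ x, ∃ c : κ → C, x = ∑ i, c i • w i) ∧
      ∀ c : κ → C, ∑ i, c i • w i = 0 → ∀ i, ϖ ∣ c i := by
  classical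
  have hex : ∃ k, ∃ s : Finset W, s.card = k ∧ Submodule.span C (s : Set W) = ⊤ := by
    have := Fintype.ofFinite W
    exact ⟨_, Finset.univ, rfl, by simp⟩
  obtain ⟨s, hs, hspan⟩ := Nat.find_spec hex
  refine ⟨s, inferInstance, Subtype.val, fun x => ?_, fun c hc i => ?_⟩
  · have : x ∈ Submodule.span C (Set.range (Subtype.val : s → W)) := by
      rw [Subtype.range_coe_subtype]
      exact hspan.ge Submodule.mem_top
    obtain ⟨c, hc⟩ := (Submodule.mem_span_range_iff_exists_fun C).mp this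
    exact ⟨c, hc.symm⟩
  · refine (hf (c i)).resolve_right ?_
    rintro ⟨c', d, hd⟩
    have h1 : (i : W) ∈ Submodule.span C ((s.erase i : Finset W) : Set W) := by
      rw [← Finset.add_sum_erase _ _ (Finset.mem_univ i)] at hc
      have h2 : (i : W) = -(c' • ∑ j ∈ Finset.univ.erase i, c j • (j : W)) := by
        have h3 : (c i * c' - 1) • (i : W) = 0 := by
          rw [hd, mul_comm, mul_smul, hW, smul_zero]
        rw [sub_smul, one_smul, sub_eq_zero, mul_comm, mul_smul,
          eq_neg_of_add_eq_zero_left hc, smul_neg] at h3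
        exact h3.symm
      suffices h : -(c' • ∑ j ∈ Finset.univ.erase i, c j • (j : W))
          ∈ Submodule.span C ((s.erase i : Finset W) : Set W) by rwa [← h2] at h
      refine Submodule.neg_mem _ (Submodule.smul_mem _ _ (Submodule.sum_mem _ fun j hj => ?_))
      refine Submodule.smul_mem _ _ (Submodule.subset_span ?_)
      rw [Finset.mem_erase] at hj
      simp only [Finset.coe_erase, Set.mem_sdiff, SetLike.mem_coe, j.2, true_and,
        Set.mem_singleton_iff]
      exact fun h => hj.1 (Subtype.ext h)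
    have h2 : Submodule.span C ((s.erase i : Finset W) : Set W) = ⊤ := by
      rw [eq_top_iff, ← hspan, Submodule.span_le]
      intro y hy
      by_cases hyi : y = i
      · exact hyi ▸ h1
      · exact Submodule.subset_span (by simpa [hyi] using hy)
    have h3 := Nat.find_min' hex ⟨_, rfl, h2⟩
    rw [Finset.card_erase_of_mem i.2, ← hs] at h3
    have : 0 < s.card := Finset.card_pos.mpr ⟨i, i.2⟩
    omega

theorem struct_thm {C : Type} [CommRing C] (ϖ : C) (hf : ∀ c, ϖ ∣ c ∨ ∃ c', ϖ ∣ c * c' - 1)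
    (n : ℕ) (W : Type) [AddCommGroup W] [Module C W] [Finite W] (hW : ∀ x : W, ϖ ^ n • x = 0) :
    ∃ (κ : Type) (_ : Fintype κ) (β : κ → ℕ) (w : κ → W), (∀ i, 1 ≤ β i) ∧
      (∀ x, ∃ c : κ → C, x = ∑ i, c i • w i) ∧ (∀ i, ϖ ^ β i • w i = 0) ∧
      ∀ c : κ → C, ∑ i, c i • w i = 0 → ∀ i, ϖ ^ β i ∣ c i := by
  induction n generalizing W with
  | zero =>
    refine ⟨Empty, inferInstance, fun i => i.elim, fun i => i.elim, fun i => i.elim, fun x => ?_,
      fun i => i.elim, fun _ _ i => i.elim⟩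
    exact ⟨fun i => i.elim, by simpa using hW x⟩
  | succ n ih =>
    let W₁ : Submodule C W := LinearMap.range (ϖ • LinearMap.id)
    obtain ⟨κ₁, _, β₁, u, hβ₁, hu1, hu2, hu3⟩ := ih W₁ (by
      rintro ⟨_, x, rfl⟩
      refine Subtype.ext ?_
      simp only [LinearMap.smul_apply, LinearMap.id_coe, id_eq, SetLike.mk_smul_mk,
        ZeroMemClass.coe_zero, smul_smul]
      rw [← pow_succ]
      exact hW x)
    have hw : ∀ i, ∃ w : W, ϖ • w = (u i : W) := fun i => (u i).2
    choose w hw using hw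
    have hϖ : ∀ x : W, ∃ c : κ₁ → C, ϖ • x = ϖ • ∑ i, c i • w i := by
      intro x
      obtain ⟨c, hc⟩ := hu1 ⟨ϖ • x, x, rfl⟩
      refine ⟨c, ?_⟩
      have := congrArg Subtype.val hc
      simp only [Submodule.coe_sum, Submodule.coe_smul, ← hw] at this
      rw [this, Finset.smul_sum]
      exact Finset.sum_congr rfl fun i _ => smul_comm _ _ _
    let M : Submodule C W := Submodule.span C (Set.range w)
    have hM : ∀ c : κ₁ → C, ∑ i, c i • w i ∈ M := fun c =>
      Submodule.sum_mem _ fun i _ => Submodule.smul_mem _ _ (Submodule.subset_span ⟨i, rfl⟩)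
    have : Finite (W ⧸ M) := Finite.of_surjective _ M.mkQ_surjective
    obtain ⟨κ₂, _, y, hy1, hy2⟩ := struct_one ϖ hf (W ⧸ M) (by
      intro x
      obtain ⟨x, rfl⟩ := M.mkQ_surjective x
      obtain ⟨c, hc⟩ := hϖ x
      rw [← map_smul, hc, Submodule.mkQ_apply, Submodule.Quotient.mk_eq_zero]
      exact Submodule.smul_mem _ _ (hM c))
    have hv : ∀ j, ∃ v : W, ϖ • v = 0 ∧ M.mkQ v = y j := by
      intro j
      obtain ⟨x, hx⟩ := M.mkQ_surjective (y j)
      obtain ⟨c, hc⟩ := hϖ x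
      refine ⟨x - ∑ i, c i • w i, by rw [smul_sub, hc, sub_self], ?_⟩
      rw [map_sub, hx, Submodule.mkQ_apply, (Submodule.Quotient.mk_eq_zero _).mpr (hM c), sub_zero]
    choose v hv1 hv2 using hv
    refine ⟨κ₁ ⊕ κ₂, inferInstance, Sum.elim (fun i => β₁ i + 1) fun _ => 1, Sum.elim w v, ?_,
      ?_, ?_, ?_⟩
    · rintro (i | j) <;> simp
    · intro x
      obtain ⟨b, hb⟩ := hy1 (M.mkQ x)
      have h1 : x - ∑ j, b j • v j ∈ M := by
        rw [← Submodule.Quotient.mk_eq_zero, ← Submodule.mkQ_apply, map_sub, hb, map_sum]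
        simp only [map_smul, hv2, sub_self]
      obtain ⟨a, ha⟩ := (Submodule.mem_span_range_iff_exists_fun C).mp h1
      refine ⟨Sum.elim a b, ?_⟩
      rw [Fintype.sum_sum_type]
      simp only [Sum.elim_inl, Sum.elim_inr, ha, sub_add_cancel]
    · rintro (i | j)
      · simp only [Sum.elim_inl, pow_succ, mul_smul, hw]
        exact congrArg Subtype.val (hu2 i)
      · simpa using hv1 j
    · intro c hc
      rw [Fintype.sum_sum_type] at hc
      simp only [Sum.elim_inl, Sum.elim_inr] at hc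
      have h1 : ∀ j, ϖ ∣ c (Sum.inr j) := by
        refine hy2 _ ?_
        have := congrArg M.mkQ hc
        rw [map_add, map_zero, Submodule.mkQ_apply, (Submodule.Quotient.mk_eq_zero _).mpr (hM _),
          zero_add, map_sum] at this
        simpa only [map_smul, hv2] using this
      have h2 : ∑ j, c (Sum.inr j) • v j = 0 := by
        refine Finset.sum_eq_zero fun j _ => ?_
        obtain ⟨d, hd⟩ := h1 j
        rw [hd, mul_comm, mul_smul, hv1, smul_zero]
      rw [h2, add_zero] at hc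
      have h3 : ∀ i, ϖ ∣ c (Sum.inl i) := by
        intro i
        refine (dvd_pow_self ϖ (by have := hβ₁ i; omega)).trans (hu3 (fun i => c (Sum.inl i)) ?_ i)
        refine Subtype.ext ?_
        simp only [Submodule.coe_sum, Submodule.coe_smul, ← hw, ZeroMemClass.coe_zero]
        rw [← smul_zero ϖ, ← hc, Finset.smul_sum]
        exact Finset.sum_congr rfl fun i _ => smul_comm _ _ _
      choose a ha using h3
      have h4 := hu3 a (by
        refine Subtype.ext ?_
        simp only [Submodule.coe_sum, Submodule.coe_smul, ← hw, ZeroMemClass.coe_zero]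
        rw [← hc]
        refine Finset.sum_congr rfl fun i _ => ?_
        rw [ha, smul_smul, mul_comm])
      rintro (i | j)
      · simp only [Sum.elim_inl, pow_succ', ha]
        exact mul_dvd_mul_left _ (h4 i)
      · simpa using h1 j

/-- Sorted form of the structure theorem for a nonzero module. -/
theorem struct_sorted {C : Type} [CommRing C] (ϖ : C) (hf : ∀ c, ϖ ∣ c ∨ ∃ c', ϖ ∣ c * c' - 1)
    (n : ℕ) (W : Type) [AddCommGroup W] [Module C W] [Finite W] [Nontrivial W]
    (hW : ∀ x : W, ϖ ^ n • x = 0) :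
    ∃ (m : ℕ) (β : ℕ → ℕ) (w : Fin (m + 1) → W), Monotone β ∧ (∀ i, 1 ≤ β i) ∧
      (∀ x, ∃ c : Fin (m + 1) → C, x = ∑ i, c i • w i) ∧ (∀ i : Fin (m + 1), ϖ ^ β i • w i = 0) ∧
      ∀ c : Fin (m + 1) → C, ∑ i, c i • w i = 0 → ∀ i : Fin (m + 1), ϖ ^ β i ∣ c i := by
  obtain ⟨κ, _, β, w, h1, h2, h3, h4⟩ := struct_thm ϖ hf n W hW
  have hne : Fintype.card κ ≠ 0 := by
    intro h
    have := Fintype.card_eq_zero_iff.mp h
    obtain ⟨x, hx⟩ := exists_ne (0 : W)
    obtain ⟨c, hc⟩ := h2 x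
    exact hx (by simpa using hc)
  obtain ⟨m, hm⟩ := Nat.exists_eq_succ_of_ne_zero hne
  let e₀ : Fin (m + 1) ≃ κ := (Fintype.equivFinOfCardEq hm).symm
  let e : Fin (m + 1) ≃ κ := (Tuple.sort (β ∘ e₀)).trans e₀
  have he : Monotone (β ∘ e) := Tuple.monotone_sort (β ∘ e₀)
  have hmin : ∀ i : Fin (m + 1), (⟨min i m, Nat.lt_succ_of_le (min_le_right _ _)⟩ : Fin (m + 1)) = i :=
    fun i => Fin.ext (min_eq_left (Nat.lt_succ_iff.mp i.2))
  refine ⟨m, fun i => β (e ⟨min i m, Nat.lt_succ_of_le (min_le_right _ _)⟩), w ∘ e, ?_,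
    fun i => h1 _, fun x => ?_, fun i => ?_, fun c hc i => ?_⟩
  · intro i j hij
    exact he (min_le_min_right m hij)
  · obtain ⟨c, hc⟩ := h2 x
    exact ⟨c ∘ e, by rw [hc, ← e.sum_comp]; rfl⟩
  · simp only [hmin]
    exact h3 _
  · simp only [hmin]
    have := h4 (c ∘ e.symm) (by rw [← e.sum_comp, ← hc]; simp) (e i)
    simpa using this

end Pool.Agent.Lib.MP_4a16d5_al
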