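import Mathlib

/-!
Matrix units of a finite ring, lifted from the semisimple quotient.
-/

namespace Pool.Agent.Lib.MP_4a16d5_al

open Finset

lemma corner_inv {R : Type} [Ring R] {ε z : R} (hε : ε * ε = ε) (h1 : ε * z = z) (h2 : z * ε = z)
    (h : IsNilpotent (z - ε)) : ∃ c, c * z = ε ∧ ε * c = c ∧ c * ε = c := by
  obtain ⟨η, hη⟩ := h.isUnit_one_add
  have h3 : (η : R) * ε = z := by
    rw [hη, add_mul, sub_mul, one_mul, hε, h2, add_sub_cancel]
  have h4 : ε * (η : R) = z := by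
    rw [hη, mul_add, mul_sub, mul_one, hε, h1, add_sub_cancel]
  have h5 : ε * (↑η⁻¹ : R) = ↑η⁻¹ * ε := by
    rw [Units.mul_inv_eq_iff_eq_mul, mul_assoc, h4, ← h3, Units.inv_mul_cancel_left]
  refine ⟨↑η⁻¹ * ε, ?_, ?_, ?_⟩
  · rw [mul_assoc, h1, ← h3, Units.inv_mul_cancel_left]
  · rw [← mul_assoc, h5, mul_assoc, hε]
  · rw [mul_assoc, hε]

theorem jacobson_nil (R : Type) [Ring R] [Finite R] : ∃ n : ℕ, ∀ l : List R, l.length = n + 1 →
    (∀ x ∈ l, x ∈ Ring.jacobson R) → l.prod = 0 := by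
  obtain ⟨n, hn⟩ := IsArtinianRing.isNilpotent_jacobson_bot (R := R)
  rw [Ideal.jacobson_bot] at hn
  have key : ∀ l : List R, (∀ x ∈ l, x ∈ Ring.jacobson R) →
      l.prod ∈ Ring.jacobson R ^ l.length := by
    intro l
    induction l using List.reverseRecOn with
    | nil =>
      intro _
      simp [Submodule.pow_zero]
    | append_singleton l a ih =>
      intro h
      rw [List.prod_append, List.prod_singleton, List.length_append, List.length_singleton,
        Submodule.pow_succ]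
      exact Ideal.mul_mem_mul (ih fun x hx => h x (by simp [hx])) (h a (by simp))
  refine ⟨n, fun l hl h => ?_⟩
  obtain ⟨a, l, rfl⟩ := List.exists_cons_of_length_eq_add_one hl
  have h1 := key l fun x hx => h x (by simp [hx])
  have h2 : l.length = n := by simpa using hl
  rw [h2, hn] at h1
  rw [List.prod_cons, (Submodule.mem_bot _).mp h1, mul_zero]

theorem exists_units (R : Type) [Ring R] [Finite R] :
    ∃ (n : ℕ) (d : Fin n → ℕ) (ε : Fin n → R) (U V : (Σ s, Fin (d s)) → R),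
      (∀ s, ε s * ε s = ε s) ∧ (∀ s, ε s ∉ Ring.jacobson R) ∧
      (∀ s r, ε s * r * ε s ∉ Ring.jacobson R →
        ∃ c, ε s * c * ε s * (ε s * r * ε s) = ε s) ∧
      (∀ s t r, s ≠ t → ε s * r * ε t ∈ Ring.jacobson R) ∧
      (∀ a, U a * ε a.1 = U a) ∧ (∀ a, ε a.1 * V a = V a) ∧ (∀ a, V a * U a = ε a.1) ∧
      (∀ a b, a ≠ b → V a * U b = 0) ∧ ∑ a, U a * V a = 1 := by
  classical
  obtain ⟨N, hN⟩ := jacobson_nil R
  have hnil : ∀ x ∈ Ring.jacobson R, IsNilpotent x := by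
    intro x hx
    refine ⟨N + 1, ?_⟩
    have := hN (List.replicate (N + 1) x) (by simp) (by
      intro y hy
      rw [List.eq_of_mem_replicate hy]
      exact hx)
    simpa using this
  obtain ⟨n, D, d, _, hd, ⟨φ⟩⟩ :=
    IsSemisimpleRing.exists_ringEquiv_pi_matrix_divisionRing (R ⧸ Ring.jacobson R)
  let π : R →+* Π s, Matrix (Fin (d s)) (Fin (d s)) (D s) :=
    φ.toRingHom.comp (Ideal.Quotient.mk _)
  have hπ : Function.Surjective π := φ.surjective.comp Ideal.Quotient.mk_surjective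
  have hker : ∀ x, π x = 0 ↔ x ∈ Ring.jacobson R := by
    intro x
    rw [← Ideal.Quotient.eq_zero_iff_mem]
    exact φ.map_eq_zero_iff
  let E : ∀ s, Fin (d s) → Fin (d s) → D s → Π s, Matrix (Fin (d s)) (Fin (d s)) (D s) :=
    fun s i j c => Pi.single s (Matrix.single i j c)
  have hE1 : ∀ s i j k c c', E s i j c * E s j k c' = E s i k (c * c') := by
    intro s i j k c c'
    simp only [E, ← Pi.single_mul, Matrix.single_mul_single_same]
  have hE2 : ∀ s t i j k l c c' x, s ≠ t → E s i j c * x * E t k l c' = 0 := by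
    intro s t i j k l c c' x h
    funext u
    by_cases h1 : u = s
    · subst h1
      simp [E, h]
    · simp [E, h1]
  have hE3 : ∀ s i x, E s i i 1 * x * E s i i 1 = E s i i (x s i i) := by
    intro s i x
    funext u
    by_cases h1 : u = s
    · subst h1
      simp [E]
    · simp [E, h1]
  have hC : CompleteOrthogonalIdempotents fun a : Σ s, Fin (d s) => E a.1 a.2 a.2 1 := by
    refine ⟨⟨fun a => ?_, ?_⟩, ?_⟩
    · exact (hE1 _ _ _ _ _ _).trans (by rw [mul_one])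
    · rintro ⟨s, i⟩ ⟨t, j⟩ h
      by_cases h1 : s = t
      · subst h1
        have h2 : i ≠ j := fun h2 => h (by rw [h2])
        simp [E, ← Pi.single_mul, h2]
      · simpa using hE2 s t i i j j 1 1 1 h1
    · funext u
      rw [Finset.sum_apply, Fintype.sum_sigma, Finset.sum_eq_single u]
      · simp [E, Matrix.sum_single_one]
      · intro t _ ht
        simp [E, Ne.symm ht]
      · simp
  obtain ⟨e, he, hπe⟩ := CompleteOrthogonalIdempotents.lift_of_isNilpotent_ker π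
    (fun x hx => hnil x ((hker x).mp hx)) hC fun a => hπ _
  have hπe' : ∀ s i, π (e ⟨s, i⟩) = E s i i 1 := fun s i => congrFun hπe ⟨s, i⟩
  have hee : ∀ a, e a * e a = e a := fun a => (he.idem a).eq
  have hUV : ∀ a : Σ s, Fin (d s), ∃ U V : R, e a * U = U ∧ U * e ⟨a.1, 0⟩ = U ∧
      e ⟨a.1, 0⟩ * V = V ∧ V * e a = V ∧ V * U = e ⟨a.1, 0⟩ ∧ U * V = e a := by
    rintro ⟨s, i⟩
    obtain ⟨A, hA⟩ := hπ (E s i 0 1)
    obtain ⟨B, hB⟩ := hπ (E s 0 i 1)
    set U := e ⟨s, i⟩ * A * e ⟨s, 0⟩ with hU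
    set V := e ⟨s, 0⟩ * B * e ⟨s, i⟩ with hV
    have u1 : e ⟨s, i⟩ * U = U := by rw [hU, ← mul_assoc, ← mul_assoc, hee]
    have u2 : U * e ⟨s, 0⟩ = U := by rw [hU, mul_assoc, hee]
    have v1 : e ⟨s, 0⟩ * V = V := by rw [hV, ← mul_assoc, ← mul_assoc, hee]
    have v2 : V * e ⟨s, i⟩ = V := by rw [hV, mul_assoc, hee]
    have hπU : π U = E s i 0 1 := by simp only [hU, map_mul, hπe', hA, hE1, mul_one]
    have hπV : π V = E s 0 i 1 := by simp only [hV, map_mul, hπe', hB, hE1, mul_one]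
    have h1 : π (V * U) = π (e ⟨s, 0⟩) := by rw [map_mul, hπU, hπV, hE1, hπe', mul_one]
    obtain ⟨c, c1, c2, c3⟩ := corner_inv (ε := e ⟨s, 0⟩) (z := V * U) (hee _)
      (by rw [← mul_assoc, v1]) (by rw [mul_assoc, u2])
      (hnil _ ((hker _).mp (by rw [map_sub, h1, sub_self])))
    have hπc : π c = E s 0 0 1 := by
      rw [← c3, map_mul, ← h1, ← map_mul, c1, hπe']
    have h2 : c * V * U = e ⟨s, 0⟩ := by rw [mul_assoc, c1]
    refine ⟨U, c * V, u1, u2, by rw [← mul_assoc, c2], by rw [mul_assoc, v2], h2, ?_⟩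
    refine eq_of_isNilpotent_sub_of_isIdempotentElem_of_commute ?_ (he.idem _)
      (hnil _ ((hker _).mp ?_)) ?_
    · change _ * _ = _
      rw [mul_assoc, ← mul_assoc (c * V), h2, ← mul_assoc, u2]
    · simp only [map_sub, map_mul, hπU, hπV, hπc, hπe', hE1, mul_one, sub_self]
    · change _ * _ = _ * _
      rw [← mul_assoc (e _), u1, mul_assoc U, mul_assoc c, v2]
  choose U V u1 u2 v1 v2 h1 h2 using hUV
  refine ⟨n, d, fun s => e ⟨s, 0⟩, U, V, fun s => hee _, ?_, ?_, ?_, u2, v1, h1, ?_, ?_⟩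
  · intro s hs
    rw [← hker, hπe'] at hs
    have := congrFun (congrFun (congrFun hs s) 0) 0
    simp [E] at this
  · intro s r hr
    have h3 : π r s 0 0 ≠ 0 := by
      intro h
      apply hr
      rw [← hker, map_mul, map_mul, hπe', hE3, h]
      simp [E]
    obtain ⟨r', hr'⟩ := hπ (E s 0 0 (π r s 0 0)⁻¹)
    obtain ⟨c, c1, c2, c3⟩ := corner_inv (ε := e ⟨s, 0⟩)
      (z := e ⟨s, 0⟩ * r' * (e ⟨s, 0⟩ * r * e ⟨s, 0⟩)) (hee _)
      (by simp only [← mul_assoc, hee]) (by simp only [mul_assoc, hee])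
      (hnil _ ((hker _).mp (by
        simp only [map_sub, map_mul, hπe', hr', hE3, hE1, one_mul, inv_mul_cancel₀ h3, sub_self])))
    refine ⟨c * r', ?_⟩
    calc e ⟨s, 0⟩ * (c * r') * e ⟨s, 0⟩ * (e ⟨s, 0⟩ * r * e ⟨s, 0⟩)
        = e ⟨s, 0⟩ * c * r' * (e ⟨s, 0⟩ * e ⟨s, 0⟩ * r * e ⟨s, 0⟩) := by simp only [mul_assoc]
      _ = c * e ⟨s, 0⟩ * r' * (e ⟨s, 0⟩ * r * e ⟨s, 0⟩) := by rw [c2, c3, hee]
      _ = c * (e ⟨s, 0⟩ * r' * (e ⟨s, 0⟩ * r * e ⟨s, 0⟩)) := by simp only [mul_assoc]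
      _ = e ⟨s, 0⟩ := c1
  · intro s t r h
    rw [← hker, map_mul, map_mul, hπe', hπe', hE2 _ _ _ _ _ _ _ _ _ h]
  · intro a b h
    rw [← v2 a, ← u1 b, mul_assoc, ← mul_assoc (e a), he.ortho h, zero_mul, mul_zero]
  · simp only [h2]
    exact he.complete

end Pool.Agent.Lib.MP_4a16d5_al
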