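import Pool.Agent.Lib.MP_4a16d5_al.Blocks
import Pool.Agent.Lib.MP_4a16d5_al.Units
import Pool.Agent.Lib.MP_4a16d5_al.Coeff
import Pool.Agent.Lib.MP_4a16d5_al.Struct

/-!
Generators of a finite module, component by component.
-/

namespace Pool.Agent.Lib.MP_4a16d5_al

open Finset TensorProduct

theorem module_gens {O : Type} [CommRing O] (ϖ : O) {C : Type} [CommRing C] [Algebra O C]
    {ι : Type} [Fintype ι] (b : Module.Basis ι O C)
    (hf : ∀ c, algebraMap O C ϖ ∣ c ∨ ∃ c', algebraMap O C ϖ ∣ c * c' - 1)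
    {M : Type} [AddCommGroup M] [Module O M] [Finite M] (N : ℕ) (hN : ∀ w : M, ϖ ^ N • w = 0)
    (ψ : C →ₐ[O] Module.End O M) :
    ∃ (κ : Type) (_ : Fintype κ) (β : κ → ℕ) (g : κ × ι → M),
      (∀ w, ∃ a : κ × ι → O, w = ∑ x, a x • g x) ∧ (∀ x, ϖ ^ β x.1 • g x = 0) ∧
      (∀ a : κ × ι → O, ∑ x, a x • g x = 0 → ∀ x, ϖ ^ β x.1 ∣ a x) ∧
      ∀ c, ∃ a : Matrix ι ι O, ∀ i u, ψ c (g (i, u)) = ∑ v, a v u • g (i, v) := by
  let _ : Module C M := Module.compHom M ψ.toRingHom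
  have hCs : ∀ (c : C) (w : M), c • w = ψ c w := fun _ _ => rfl
  have : IsScalarTower O C M := ⟨fun o c w => by rw [hCs, hCs, map_smul, LinearMap.smul_apply]⟩
  obtain ⟨κ, _, β, w, -, hw1, hw2, hw3⟩ := struct_thm (algebraMap O C ϖ) hf N M
    (fun x => by rw [← map_pow, algebraMap_smul, hN])
  have hsum : ∀ a : κ × ι → O, ∑ i, a i • b i.2 • w i.1
      = ∑ i, (∑ s, a (i, s) • b s) • w i := by
    intro a
    rw [Fintype.sum_prod_type]
    simp only [Finset.sum_smul, smul_assoc]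
  refine ⟨κ, inferInstance, β, fun i => b i.2 • w i.1, ?_, ?_, ?_, ?_⟩
  · intro x
    obtain ⟨c, hc⟩ := hw1 x
    refine ⟨fun i => b.repr (c i.1) i.2, ?_⟩
    rw [hsum, hc]
    simp only [Module.Basis.sum_repr]
  · intro i
    rw [← algebraMap_smul C, map_pow, smul_comm, hw2, smul_zero]
  · rintro a ha ⟨i, s⟩
    rw [hsum] at ha
    obtain ⟨d, hd⟩ := hw3 _ ha i
    have h1 := congrArg (fun c => b.repr c s) hd
    simp only [← map_pow, ← Algebra.smul_def, map_smul, Finsupp.smul_apply, smul_eq_mul] at h1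
    rw [b.repr_sum_self] at h1
    exact ⟨_, h1⟩
  · intro c
    refine ⟨Matrix.of fun s u => b.repr (c * b u) s, fun i u => ?_⟩
    rw [← hCs]
    simp only [Matrix.of_apply, ← smul_assoc, ← Finset.sum_smul, Module.Basis.sum_repr,
      smul_eq_mul]

lemma tensor_field {O : Type} [CommRing O] (ϖ : O) (p : ℕ) (hpϖ : ϖ ∣ (p : O))
    (hO : ∀ o : O, ∃ (k : ℤ) (o' : O), o = k + ϖ * o') {S : Type} [CommRing S]
    (hS : ∀ s, (p : S) ∣ s ∨ ∃ s', (p : S) ∣ s * s' - 1) (c : O ⊗[ℤ] S) :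
    algebraMap O (O ⊗[ℤ] S) ϖ ∣ c ∨ ∃ c', algebraMap O (O ⊗[ℤ] S) ϖ ∣ c * c' - 1 := by
  have hC : ∀ c : O ⊗[ℤ] S, ∃ s c', c = 1 ⊗ₜ s + algebraMap O _ ϖ * c' := by
    intro c
    induction c using TensorProduct.induction_on with
    | zero => exact ⟨0, 0, by simp⟩
    | tmul o s =>
      obtain ⟨k, o', rfl⟩ := hO o
      refine ⟨k • s, o' ⊗ₜ s, ?_⟩
      rw [add_tmul, ← smul_tmul, zsmul_one]
      simp
    | add c c' h1 h2 =>
      obtain ⟨s, d, rfl⟩ := h1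
      obtain ⟨s', d', rfl⟩ := h2
      exact ⟨s + s', d + d', by rw [tmul_add]; ring⟩
  have hpS : ∀ s : S, (p : S) ∣ s → algebraMap O (O ⊗[ℤ] S) ϖ ∣ 1 ⊗ₜ s := by
    intro s hs
    have h1 := map_dvd (algebraMap O (O ⊗[ℤ] S)) hpϖ
    have h2 := map_dvd (Algebra.TensorProduct.includeRight : S →ₐ[ℤ] O ⊗[ℤ] S) hs
    rw [map_natCast] at h1 h2
    exact h1.trans h2
  obtain ⟨s, d, rfl⟩ := hC c
  rcases hS s with h | ⟨s', h⟩
  · exact Or.inl (dvd_add (hpS s h) (dvd_mul_right _ _))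
  · refine Or.inr ⟨1 ⊗ₜ s', ?_⟩
    have h1 := hpS _ h
    have h2 : (1 ⊗ₜ s + algebraMap O (O ⊗[ℤ] S) ϖ * d) * 1 ⊗ₜ s' - 1
        = 1 ⊗ₜ (s * s' - 1) + algebraMap O (O ⊗[ℤ] S) ϖ * (d * 1 ⊗ₜ s') := by
      rw [tmul_sub, add_mul, Algebra.TensorProduct.tmul_mul_tmul, one_mul,
        ← Algebra.TensorProduct.one_def]
      ring
    rw [h2]
    exact dvd_add h1 (dvd_mul_right _ _)

lemma exists_corner {R : Type} [Ring R] {ε : R} (hε : ε * ε = ε) :
    ∃ (T : Type) (_ : Ring T) (inc : T →ₙ+* R), Function.Injective inc ∧ inc 1 = ε ∧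
      (∀ r, ∃ y, inc y = ε * r * ε) ∧ ∀ y, ∃ r, inc y = ε * r * ε := by
  have he : IsIdempotentElem ε := hε
  exact ⟨he.Corner, inferInstance,
    { toFun := Subtype.val
      map_mul' := fun _ _ => rfl
      map_zero' := rfl
      map_add' := fun _ _ => rfl }, Subtype.val_injective, rfl, fun r => ⟨⟨_, r, rfl⟩, rfl⟩,
    fun y => y.2.imp fun _ h => h.symm⟩

theorem corner_gens {R : Type} [Ring R] [Finite R] (J : Ideal R) {ε : R} (hε : ε * ε = ε)
    (hεJ : ε ∉ J) (hu : ∀ r, ε * r * ε ∉ J → ∃ c, ε * c * ε * (ε * r * ε) = ε)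
    {O : Type} [CommRing O] (ϖ : O) (p : ℕ) (hp : p.Prime) (hpJ : (p : R) ∈ J)
    (hpϖ : ϖ ∣ (p : O)) (hO : ∀ o : O, ∃ (k : ℤ) (o' : O), o = k + ϖ * o')
    {W : Type} [AddCommGroup W] [Module O W] [Finite W] (N : ℕ) (hN : ∀ w : W, ϖ ^ N • w = 0)
    (act : R →+* Module.End O W) :
    ∃ (κ ι : Type) (_ : Fintype κ) (_ : Fintype ι) (β : κ → ℕ) (g : κ × ι → W),
      (∀ x, act ε (g x) = g x) ∧ (∀ w, ∃ a : κ × ι → O, act ε w = ∑ x, a x • g x) ∧
      (∀ x, ϖ ^ β x.1 • g x = 0) ∧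
      (∀ a : κ × ι → O, ∑ x, a x • g x = 0 → ∀ x, ϖ ^ β x.1 ∣ a x) ∧
      ∀ r, ∃ a : Matrix ι ι O, ∃ y, ε * r * ε - y ∈ J ∧
        ∀ i u, act y (g (i, u)) = ∑ v, a v u • g (i, v) := by
  classical
  obtain ⟨T, _, inc, hinc, hinc1, hinc2, hinc3⟩ := exists_corner hε
  have : Finite T := Finite.of_injective _ hinc
  have hunit : ∀ y : T, inc y ∉ J → IsUnit y := by
    intro y hy
    obtain ⟨r, hr⟩ := hinc3 y
    obtain ⟨c, hc⟩ := hu r (hr ▸ hy)
    obtain ⟨z, hz⟩ := hinc2 c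
    exact IsUnit.of_mul_eq_one_right z (hinc (by rw [map_mul, hz, hr, hc, hinc1]))
  have hnu : ∀ y : T, ¬ IsUnit y → inc y ∈ J := fun y hy => by_contra fun h => hy (hunit y h)
  have : Nontrivial T := ⟨1, 0, fun h => hεJ (by rw [← hinc1, h, map_zero]; exact J.zero_mem)⟩
  have : IsLocalRing T := ⟨fun {a b} hab => by
    by_contra hc
    rw [not_or] at hc
    apply hεJ
    rw [← hinc1, ← hab, map_add]
    exact J.add_mem (hnu a hc.1) (hnu b hc.2)⟩
  obtain ⟨p', S, _, ι, _, bS, φ, -, hp', hφ, hS⟩ := coeff_ring T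
  have hpT : (p : T) ∈ nu T := by
    rintro ⟨u, hu⟩
    apply hεJ
    have h1 : inc (p : T) = ε * p := by
      rw [← nsmul_one, map_nsmul, hinc1, nsmul_eq_mul, Nat.cast_comm]
    rw [← hinc1, ← u.inv_mul, map_mul, hu, h1]
    exact J.mul_mem_left _ (J.mul_mem_left _ hpJ)
  have hpp : p ∣ p' := by
    by_contra h
    obtain ⟨a, b, hab⟩ := Nat.isCoprime_iff_coprime.mpr ((Nat.Prime.coprime_iff_not_dvd hp).mpr h)
    have h1 := congrArg (Int.cast : ℤ → T) hab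
    push_cast at h1
    have h2 := (nu T).add_mem ((nu T).mul_mem_left a hpT) ((nu T).mul_mem_left b hp')
    rw [h1] at h2
    exact h2 isUnit_one
  let M : Submodule O W := LinearMap.range (act ε)
  have hM : ∀ w ∈ M, act ε w = w := by
    rintro _ ⟨w, rfl⟩
    rw [← Module.End.mul_apply, ← map_mul, hε]
  have hst : ∀ (y : T), ∀ w ∈ M, act (inc y) w ∈ M := by
    intro y w _
    refine ⟨act (inc y) w, ?_⟩
    have h1 : ε * inc y = inc y := by rw [← hinc1, ← map_mul, one_mul]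
    rw [← Module.End.mul_apply, ← map_mul, h1]
  let ρ : T →+* Module.End O M :=
    { toFun := fun y => (act (inc y)).restrict (hst y)
      map_one' := LinearMap.ext fun w => Subtype.ext (by simpa [hinc1] using hM w w.2)
      map_mul' := fun a b => LinearMap.ext fun w => Subtype.ext (by simp)
      map_zero' := LinearMap.ext fun w => Subtype.ext (by simp)
      map_add' := fun a b => LinearMap.ext fun w => Subtype.ext (by simp) }
  let ψ : O ⊗[ℤ] S →ₐ[O] Module.End O M := Algebra.TensorProduct.lift (Algebra.ofId O _)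
    (ρ.comp φ).toIntAlgHom fun o s => Algebra.commutes o _
  obtain ⟨κ, _, β, g, g1, g2, g3, g4⟩ := module_gens ϖ (Algebra.TensorProduct.basis O bS)
    (tensor_field ϖ p' (hpϖ.trans (Nat.cast_dvd_cast hpp)) hO hS) N
    (fun x : M => Subtype.ext (hN x)) ψ
  have hcoe : ∀ a : κ × ι → O, ∑ i, a i • (g i : W) = ((∑ i, a i • g i : M) : W) := by
    intro a
    simp only [Submodule.coe_sum, Submodule.coe_smul]
  refine ⟨κ, ι, inferInstance, inferInstance, β, fun i => g i,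
    fun x => hM _ (Subtype.prop _), ?_, fun x => congrArg Subtype.val (g2 x), ?_, ?_⟩
  · intro x
    obtain ⟨c, hc⟩ := g1 ⟨act ε x, x, rfl⟩
    exact ⟨c, by rw [hcoe, ← hc]⟩
  · intro a ha
    rw [hcoe] at ha
    exact g3 a (Subtype.ext ha)
  · intro r
    obtain ⟨y, hy⟩ := hinc2 r
    obtain ⟨s, hs⟩ := hφ y
    obtain ⟨a, ha⟩ := g4 (1 ⊗ₜ s)
    refine ⟨a, inc (φ s), ?_, fun i u => ?_⟩
    · rw [← hy, ← map_sub]
      exact hnu _ hs
    · have h2 : ψ (1 ⊗ₜ s) = ρ (φ s) := 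
        (Algebra.TensorProduct.lift_tmul _ _ _ _ _).trans (by rw [map_one, one_mul]; rfl)
      have h3 := congrArg Subtype.val (ha i u)
      rw [h2] at h3
      simp only [Submodule.coe_sum, Submodule.coe_smul] at h3
      exact h3

theorem rep_of_slack {R : Type} [Ring R] [Finite R] [Nontrivial R]
    {O : Type} [CommRing O] (ϖ : O) (hϖ : ∀ a, ϖ * a = 0 → a = 0) (p : ℕ) (hp : p.Prime)
    (hpJ : (p : R) ∈ Ring.jacobson R)
    (hpϖ : ϖ ∣ (p : O)) (hO : ∀ o : O, ∃ (k : ℤ) (o' : O), o = k + ϖ * o')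
    {W : Type} [AddCommGroup W] [Module O W] [Finite W] (N : ℕ) (hN : ∀ w : W, ϖ ^ N • w = 0)
    (act : R →+* Module.End O W) (B : ℕ)
    (h5a : ∀ x ∈ Ring.jacobson R, ∀ w, ∃ w', act x w = ϖ ^ 2 • w')
    (h5b : ∀ x ∈ Ring.jacobson R, ∀ w, ϖ ^ 2 • w = 0 → act x w = 0)
    (h6 : ∀ z : R, (∀ w, ∃ w', ϖ ^ 2 • act z w = ϖ ^ (B + 1) • w') → z = 0)
    (h7 : ∀ e : R, e * e = e → e ≠ 0 → ∃ w, ϖ ^ B • act e w ≠ 0) :
    ∃ (C : Type) (_ : CommRing C) (n : ℕ) (f : R →+* Matrix (Fin n) (Fin n) C),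
      Function.Injective f := by
  classical
  obtain ⟨n, d, ε, U, V, e1, e2, e3, e4, u1, v1, h1, h2, h3⟩ := exists_units R
  have : Nonempty (Fin n) := by
    by_contra h
    have : IsEmpty (Σ s, Fin (d s)) := ⟨fun a => h ⟨a.1⟩⟩
    simp at h3
  choose κ ι _ _ β g g1 g2 g3 g4 g5 using fun s =>
    corner_gens (Ring.jacobson R) (e1 s) (e2 s) (e3 s) ϖ p hp hpJ hpϖ hO N hN act
  let G : (Σ s, κ s × (Fin (d s) × ι s)) → W :=
    fun x => act (U ⟨x.1, x.2.2.1⟩) (g x.1 (x.2.1, x.2.2.2))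
  have hVG : ∀ a x, act (V a) (G x)
      = if a = ⟨x.1, x.2.2.1⟩ then g x.1 (x.2.1, x.2.2.2) else 0 := by
    intro a x
    simp only [G]
    rw [← Module.End.mul_apply, ← map_mul]
    split_ifs with h
    · rw [h, h1, g1]
    · rw [h2 _ _ h, map_zero, LinearMap.zero_apply]
  have hsum : ∀ F : (Σ s, κ s × (Fin (d s) × ι s)) → W,
      ∑ x, F x = ∑ a : Σ s, Fin (d s), ∑ y : κ a.1 × ι a.1, F ⟨a.1, (y.1, (a.2, y.2))⟩ := by
    intro F
    simp only [Fintype.sum_sigma, Fintype.sum_prod_type]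
    exact Finset.sum_congr rfl fun s _ => Finset.sum_comm
  refine rep_of_comp_gens (Ring.jacobson R : Set R) ϖ hϖ p hp.two_le hpϖ act
    (ι := fun s => Fin (d s) × ι s) (fun x => β x.1 x.2) (B + 1) (by omega) ?_ G ?_ ?_ ?_ ?_
    h5a h5b h6
  · intro s
    by_contra h
    push Not at h
    obtain ⟨w, hw⟩ := h7 (ε s) (e1 s) fun h => e2 s (h ▸ Submodule.zero_mem _)
    obtain ⟨a, ha⟩ := g2 s w
    apply hw
    rw [ha, Finset.smul_sum]
    refine Finset.sum_eq_zero fun x _ => ?_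
    obtain ⟨k, hk⟩ := Nat.exists_eq_add_of_le' (Nat.lt_succ_iff.mp (h x.1))
    rw [smul_comm, hk, pow_add, mul_smul, g3, smul_zero, smul_zero]
  · intro w
    choose c hc using fun a : Σ s, Fin (d s) => g2 a.1 (act (V a) w)
    refine ⟨fun x => c ⟨x.1, x.2.2.1⟩ (x.2.1, x.2.2.2), ?_⟩
    rw [hsum]
    have h4 : w = act (∑ a, U a * V a) w := by simp [h3]
    conv_lhs => rw [h4, map_sum, LinearMap.sum_apply]
    refine Finset.sum_congr rfl fun a _ => ?_
    rw [← v1 a, map_mul, map_mul, Module.End.mul_apply, Module.End.mul_apply, hc, map_sum]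
    simp only [map_smul, G]
  · intro x
    simp only [G]
    rw [← map_smul, g3 x.1 (x.2.1, x.2.2.2), map_zero]
  · rintro a ha ⟨s, i, j, u⟩
    have h4 := congrArg (act (V ⟨s, j⟩)) ha
    rw [map_zero, map_sum, hsum, Finset.sum_eq_single ⟨s, j⟩] at h4
    · simp only [map_smul, hVG, if_true] at h4
      exact g4 s (fun y => a ⟨s, (y.1, (j, y.2))⟩) h4 (i, u)
    · intro b _ hb
      simp [hVG, Ne.symm hb]
    · simp
  · intro r
    choose a y hy ha using fun s (j k : Fin (d s)) => g5 s (V ⟨s, j⟩ * r * U ⟨s, k⟩)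
    refine ⟨fun s => Matrix.of fun x z => a s x.1 z.1 x.2 z.2,
      ∑ s, ∑ j, ∑ k, U ⟨s, j⟩ * y s j k * V ⟨s, k⟩, ?_, ?_⟩
    · have h4 : r = ∑ s, ∑ t, ∑ j, ∑ k,
          U ⟨s, j⟩ * (ε s * (V ⟨s, j⟩ * r * U ⟨t, k⟩) * ε t) * V ⟨t, k⟩ := by
        conv_lhs => rw [← one_mul r, ← mul_one (1 * r), ← h3]
        rw [Finset.sum_mul, Finset.sum_mul, Fintype.sum_sigma]
        refine Finset.sum_congr rfl fun s _ => ?_
        rw [Finset.sum_comm]
        refine Finset.sum_congr rfl fun j _ => ?_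
        rw [Finset.mul_sum, Fintype.sum_sigma]
        refine Finset.sum_congr rfl fun t _ => Finset.sum_congr rfl fun k _ => ?_
        conv_lhs => rw [← v1 ⟨s, j⟩, ← u1 ⟨t, k⟩]
        simp only [mul_assoc]
      conv => enter [2, 1]; rw [h4]
      rw [← Finset.sum_sub_distrib]
      refine Submodule.sum_mem _ fun s _ => ?_
      rw [← Finset.add_sum_erase _ _ (Finset.mem_univ s), add_sub_right_comm]
      refine Submodule.add_mem _ ?_ (Submodule.sum_mem _ fun t ht => ?_)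
      · simp only [← Finset.sum_sub_distrib, ← sub_mul, ← mul_sub]
        exact Submodule.sum_mem _ fun j _ => Submodule.sum_mem _ fun k _ =>
          Ideal.mul_mem_right _ _ (Ideal.mul_mem_left _ _ (hy s j k))
      · exact Submodule.sum_mem _ fun j _ => Submodule.sum_mem _ fun k _ =>
          Ideal.mul_mem_right _ _ (Ideal.mul_mem_left _ _
            (e4 _ _ _ (Finset.ne_of_mem_erase ht).symm))
    · rintro s i ⟨k, u⟩
      simp only [map_sum, map_mul, LinearMap.sum_apply, Module.End.mul_apply, hVG]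
      rw [Finset.sum_eq_single s, Fintype.sum_prod_type]
      · refine Finset.sum_congr rfl fun j _ => ?_
        rw [Finset.sum_eq_single k]
        · simp [ha, G]
        · intro k' _ hk
          simp [hk]
        · simp
      · intro t _ ht
        simp [ht]
      · simp

end Pool.Agent.Lib.MP_4a16d5_al
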