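import Pool.Agent.Lib.MP_4a16d5_al.Tower

/-!
The counting estimate for balanced lists of edges in a tower.
-/

namespace Pool.Agent.Lib.MP_4a16d5_al

open Finset

/-- The weight of a type: the set of gaps below it. -/
def wt (i : ℕ) : ℕ → ℤ := fun g => if g < i then 1 else 0

lemma exists_up {α : Type} (L : List α) (I J : α → ℕ)
    (hw : (L.map fun e => wt (I e) - wt (J e)).sum = 0) (g : ℕ)
    (h : ∃ e ∈ L, (J e ≤ g ∧ g < I e) ∨ (I e ≤ g ∧ g < J e)) :
    ∃ e ∈ L, J e ≤ g ∧ g < I e := by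
  by_contra hno
  push Not at hno
  obtain ⟨e₀, he₀, h₀⟩ := h
  have h1 : (L.map fun e => wt (I e) g - wt (J e) g).sum = 0 := by
    have := congrFun hw g
    rw [Pi.list_sum_apply, List.map_map] at this
    exact this
  have h2 : ∀ e ∈ L, wt (I e) g - wt (J e) g ≤ 0 := by
    intro e he
    have := hno e he
    simp only [wt]
    split_ifs <;> omega
  have h3 : wt (I e₀) g - wt (J e₀) g < 0 := by
    have := hno e₀ he₀
    simp only [wt]
    split_ifs <;> omega
  obtain ⟨L₁, L₂, rfl⟩ := List.append_of_mem he₀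
  have h4 : ∀ M : List α, (∀ e ∈ M, wt (I e) g - wt (J e) g ≤ 0) →
      (M.map fun e => wt (I e) g - wt (J e) g).sum ≤ 0 := by
    intro M hM
    induction M with
    | nil => simp
    | cons a M ih =>
      have := hM a (by simp)
      have := ih fun e he => hM e (by simp [he])
      simp only [List.map_cons, List.sum_cons]
      omega
  have h5 := h4 L₁ fun e he => h2 e (by simp [he])
  have h6 := h4 L₂ fun e he => h2 e (by simp [he])
  simp only [List.map_append, List.map_cons, List.sum_append, List.sum_cons] at h1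
  omega

lemma card_le_of_cover {α : Type} (L : List α) (a b : α → ℕ) (S : Finset ℕ)
    (h : ∀ l ∈ S, ∃ e ∈ L, a e ≤ l ∧ l < b e) : S.card ≤ (L.map fun e => b e - a e).sum := by
  induction L generalizing S with
  | nil =>
    have : S = ∅ := Finset.eq_empty_of_forall_notMem fun l hl => by simpa using h l hl
    simp [this]
  | cons e L ih =>
    have h1 := ih (S \ Finset.Ico (a e) (b e)) (by
      intro l hl
      rw [Finset.mem_sdiff, Finset.mem_Ico] at hl
      obtain ⟨e', he', h'⟩ := h l hl.1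
      rcases List.mem_cons.mp he' with rfl | he'
      · exact absurd h' hl.2
      · exact ⟨e', he', h'⟩)
    have h2 := Finset.le_card_sdiff (Finset.Ico (a e) (b e)) S
    simp only [Nat.card_Ico] at h2
    simp only [List.map_cons, List.sum_cons]
    omega

lemma cover_bound {α : Type} (L : List α) (I J : α → ℕ) (β : ℕ → ℕ) (hβ : Monotone β) (μ m : ℕ)
    (hμ : μ ≤ m) (hI : ∀ e ∈ L, I e ≤ m)
    (h : ∀ g, μ ≤ g → g < m → ∃ e ∈ L, J e ≤ g ∧ g < I e) :
    β m - β μ ≤ (L.map fun e => β (I e) - β (J e)).sum := by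
  classical
  rw [← Nat.card_Ico]
  refine card_le_of_cover L _ _ _ fun l hl => ?_
  rw [Finset.mem_Ico] at hl
  set g := Nat.findGreatest (fun g => β g ≤ l) m with hg
  have h1 : β g ≤ l := Nat.findGreatest_spec (P := fun g => β g ≤ l) hμ hl.1
  have h2 : μ ≤ g := Nat.le_findGreatest (P := fun g => β g ≤ l) hμ hl.1
  have h3 : g ≤ m := Nat.findGreatest_le m
  have h4 : g < m := lt_of_le_of_ne h3 fun h => by
    rw [h] at h1
    omega
  obtain ⟨e, he, h5, h6⟩ := h g h2 h4
  refine ⟨e, he, (hβ h5).trans h1, ?_⟩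
  by_contra h7
  exact Nat.findGreatest_is_greatest (P := fun g => β g ≤ l) h6 (hI e he) (not_lt.mp h7)

variable {q d m : ℕ} (T : Tower q d m)

/-- An edge: two vertices with prescribed types. -/
abbrev Edge := T.V × T.V × ℕ × ℕ

/-- The edge holds in a configuration. -/
def Holds (x : T.X) (e : Edge T) : Prop :=
  T.ty x e.1 = e.2.2.1 ∧ T.ty x e.2.1 = e.2.2.2 ∧ T.cp x e.1 = T.cp x e.2.1

open Classical in
/-- Either the cost is large or the count is divisible by `q`. -/
lemma count_dichotomy (β : ℕ → ℕ) (hβ : Monotone β) (hd : 2 * β m ≤ d) (e₀ : Edge T)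
    (L : List (Edge T))
    (hw : ((e₀ :: L).map fun e => wt e.2.2.1 - wt e.2.2.2).sum = 0) :
    β m ≤ β e₀.2.2.1 + (L.map fun e => 1 + (β e.2.2.1 - β e.2.2.2)).sum ∨
      (q : ℤ) ∣ ∑ x, if ∀ e ∈ e₀ :: L, Holds T x e then 1 else 0 := by
  have hsum : (L.map fun e : Edge T => 1 + (β e.2.2.1 - β e.2.2.2)).sum
      = L.length + (L.map fun e : Edge T => β e.2.2.1 - β e.2.2.2).sum := by
    rw [List.sum_map_add]
    simp
  by_cases hlen : β m ≤ L.length
  · left
    omega
  by_cases hne : ∃ x, ∀ e ∈ e₀ :: L, Holds T x e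
  swap
  · right
    rw [Finset.sum_eq_zero fun x _ => if_neg fun h => hne ⟨x, h⟩]
    exact dvd_zero _
  obtain ⟨x₀, hx₀⟩ := hne
  have hI : ∀ e ∈ e₀ :: L, e.2.2.1 ≤ m := fun e he => (hx₀ e he).1 ▸ T.ty_le _ _
  have hJ : ∀ e ∈ e₀ :: L, e.2.2.2 ≤ m := fun e he => (hx₀ e he).2.1 ▸ T.ty_le _ _
  by_cases hcov : ∀ g, min e₀.2.2.1 e₀.2.2.2 ≤ g → g < m →
      ∃ e ∈ e₀ :: L, (e.2.2.2 ≤ g ∧ g < e.2.2.1) ∨ (e.2.2.1 ≤ g ∧ g < e.2.2.2)
  · left
    have h1 := cover_bound (e₀ :: L) (fun e => e.2.2.1) (fun e => e.2.2.2) β hβ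
      (min e₀.2.2.1 e₀.2.2.2) m ((min_le_left _ _).trans (hI e₀ (by simp))) hI
      (fun g h1 h2 => exists_up _ _ _ hw g (hcov g h1 h2))
    simp only [List.map_cons, List.sum_cons] at h1
    rw [hβ.map_min] at h1
    omega
  right
  push Not at hcov
  obtain ⟨g, hg1, hg2, hg3⟩ := hcov
  let A : Finset T.V := ((e₀ :: L).map fun e => e.1).toFinset ∪
    ((e₀ :: L).map fun e => e.2.1).toFinset
  have hA : A.card ≤ d := by
    have h1 := Finset.card_union_le ((e₀ :: L).map fun e => e.1).toFinset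
      ((e₀ :: L).map fun e => e.2.1).toFinset
    have h2 := List.toFinset_card_le ((e₀ :: L).map fun e => e.1)
    have h3 := List.toFinset_card_le ((e₀ :: L).map fun e => e.2.1)
    simp only [List.length_map, List.length_cons] at h2 h3
    simp only [A]
    omega
  have hA1 : ∀ e ∈ e₀ :: L, e.1 ∈ A := fun e he =>
    Finset.mem_union_left _ (List.mem_toFinset.mpr (List.mem_map.mpr ⟨e, he, rfl⟩))
  have hA2 : ∀ e ∈ e₀ :: L, e.2.1 ∈ A := fun e he =>
    Finset.mem_union_right _ (List.mem_toFinset.mpr (List.mem_map.mpr ⟨e, he, rfl⟩))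
  have key : ∀ x y, (∀ v ∈ A, T.ty x v = T.ty y v) →
      (∀ v ∈ A, g < T.ty x v → T.cp x v = T.cp y v) →
      (∀ v ∈ A, ∀ w ∈ A, T.ty x v ≤ g → T.ty x w ≤ g →
        (T.cp x v = T.cp x w ↔ T.cp y v = T.cp y w)) →
      ∀ e ∈ e₀ :: L, (Holds T x e ↔ Holds T y e) := by
    intro x y h1 h2 h3 e he
    simp only [Holds, ← h1 _ (hA1 e he), ← h1 _ (hA2 e he)]
    refine and_congr_right fun h4 => and_congr_right fun h5 => ?_
    have h6 := hg3 e he
    rcases le_or_gt e.2.2.1 g with h7 | h7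
    · exact h3 _ (hA1 e he) _ (hA2 e he) (by omega) (by omega)
    · rw [h2 _ (hA1 e he) (by omega), h2 _ (hA2 e he) (by omega)]
  have hinv : ∀ x y, (∀ v ∈ A, T.ty x v = T.ty y v) →
      (∀ v ∈ A, g < T.ty x v → T.cp x v = T.cp y v) →
      (∀ v ∈ A, ∀ w ∈ A, T.ty x v ≤ g → T.ty x w ≤ g →
        (T.cp x v = T.cp x w ↔ T.cp y v = T.cp y w)) →
      (if ∀ e ∈ e₀ :: L, Holds T x e then (1 : ℤ) else 0)
        = if ∀ e ∈ e₀ :: L, Holds T y e then 1 else 0 := by
    intro x y h1 h2 h3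
    exact if_congr (forall₂_congr fun e he => key x y h1 h2 h3 e he) rfl rfl
  rcases le_total e₀.2.2.1 e₀.2.2.2 with h | h
  · refine T.prop g hg2 A hA e₀.1 (hA1 e₀ (by simp)) _ hinv fun x hx => if_neg fun h' => ?_
    have := (h' e₀ (by simp)).1
    omega
  · refine T.prop g hg2 A hA e₀.2.1 (hA2 e₀ (by simp)) _ hinv fun x hx => if_neg fun h' => ?_
    have := (h' e₀ (by simp)).2.1
    omega

end Pool.Agent.Lib.MP_4a16d5_al
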