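import Mathlib

/-!
Pigeonhole designs: a family of injections `N → P` missing exactly `q ^ d` points, such that
events of size at most `d` that see an unmatched point have a count divisible by `q`.
-/

namespace Pool.Agent.Lib.MP_4a16d5_al

open Finset

/-- A pigeonhole design of depth `d` and modulus `q`. -/
structure PHP (q d : ℕ) where
  X : Type
  P : Type
  N : Type
  fX : Fintype X
  fP : Fintype P
  fN : Fintype N
  m : X → N → P
  inj : ∀ x, Function.Injective (m x)
  cardX : Fintype.card X ≡ 1 [MOD q]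
  neX : Nonempty X
  cardP : Fintype.card P = Fintype.card N + q ^ d
  cardN : q * Fintype.card N ≤ 4 ^ d * q ^ d
  prop : ∀ (A : Finset P), A.card ≤ d → ∀ a₀ ∈ A, ∀ F : X → ℤ,
    (∀ x y, (∀ a ∈ A, ∀ b, m x b = a ↔ m y b = a) → F x = F y) →
    (∀ x b, m x b = a₀ → F x = 0) → (q : ℤ) ∣ ∑ x, F x

attribute [instance] PHP.fX PHP.fP PHP.fN PHP.neX

/-- The depth zero design. -/
def PHP.zero (q : ℕ) : PHP q 0 where
  X := Unit
  P := Unit
  N := Empty
  fX := inferInstance
  fP := inferInstance
  fN := inferInstance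
  m := fun _ b => b.elim
  inj := fun _ b => b.elim
  cardX := by simp [Nat.ModEq]
  neX := inferInstance
  cardP := by simp
  cardN := by simp
  prop := by
    intro A hA a₀ ha₀
    have : A = ∅ := Finset.card_eq_zero.mp (Nat.le_zero.mp hA)
    simp [this] at ha₀

/-- The matching of the next level. -/
def PHP.stepM {q d : ℕ} (Z : PHP q d) (x : Fin (q + 1) × (Fin (q + 1) → Z.X)) :
    (Fin (q + 1) × Z.N) ⊕ Z.P → (Fin (q + 1) × Z.P) ⊕ Z.N
  | Sum.inl (c, b) => if c = x.1 then Sum.inr b else Sum.inl (c, Z.m (x.2 c) b)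
  | Sum.inr a => Sum.inl (x.1, a)

lemma PHP.stepM_inj {q d : ℕ} (Z : PHP q d) (x : Fin (q + 1) × (Fin (q + 1) → Z.X)) :
    Function.Injective (Z.stepM x) := by
  rintro (⟨c, b⟩ | a) (⟨c', b'⟩ | a') h
  · simp only [PHP.stepM] at h
    split_ifs at h with h1 h2 h2
    · simp only [Sum.inr.injEq] at h
      rw [h1, h2, h]
    · simp only [Sum.inl.injEq, Prod.mk.injEq] at h
      obtain ⟨rfl, h⟩ := h
      rw [Z.inj _ h]
  · simp only [PHP.stepM] at h
    split_ifs at h with h1
    simp only [Sum.inl.injEq, Prod.mk.injEq] at h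
    exact absurd h.1 h1
  · simp only [PHP.stepM] at h
    split_ifs at h with h1
    simp only [Sum.inl.injEq, Prod.mk.injEq] at h
    exact absurd h.1.symm h1
  · simp only [PHP.stepM, Sum.inl.injEq, Prod.mk.injEq, true_and] at h
    rw [h]

lemma PHP.stepM_eq_inl {q d : ℕ} (Z : PHP q d) (x : Fin (q + 1) × (Fin (q + 1) → Z.X))
    (c : Fin (q + 1)) (a : Z.P) (b : (Fin (q + 1) × Z.N) ⊕ Z.P) :
    Z.stepM x b = Sum.inl (c, a) ↔
      (c = x.1 ∧ b = Sum.inr a) ∨ (c ≠ x.1 ∧ ∃ b', b = Sum.inl (c, b') ∧ Z.m (x.2 c) b' = a) := by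
  rcases b with ⟨c', b⟩ | a'
  · simp only [PHP.stepM]
    split_ifs with h
    · subst h
      simp
      intro h1 h2
      exact absurd h2.symm h1
    · constructor
      · intro h1
        simp only [Sum.inl.injEq, Prod.mk.injEq] at h1
        obtain ⟨rfl, h1⟩ := h1
        exact Or.inr ⟨h, b, rfl, h1⟩
      · rintro (⟨_, h1⟩ | ⟨_, b', h1, h2⟩)
        · simp at h1
        · simp only [Sum.inl.injEq, Prod.mk.injEq] at h1
          obtain ⟨rfl, rfl⟩ := h1
          rw [h2]
  · simp only [PHP.stepM]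
    constructor
    · intro h1
      simp only [Sum.inl.injEq, Prod.mk.injEq] at h1
      exact Or.inl ⟨h1.1.symm, by rw [h1.2]⟩
    · rintro (⟨h1, h2⟩ | ⟨_, b', h1, _⟩)
      · simp only [Sum.inr.injEq] at h2
        rw [h1, h2]
      · simp at h1

lemma PHP.stepM_eq_inr {q d : ℕ} (Z : PHP q d) (x : Fin (q + 1) × (Fin (q + 1) → Z.X))
    (a : Z.N) (b : (Fin (q + 1) × Z.N) ⊕ Z.P) :
    Z.stepM x b = Sum.inr a ↔ b = Sum.inl (x.1, a) := by
  rcases b with ⟨c', b⟩ | a'
  · simp only [PHP.stepM]
    split_ifs with h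
    · subst h
      simp
    · simp [h]
  · simp [PHP.stepM]

lemma dvd_sum_split {ι Y : Type} [Fintype ι] [DecidableEq ι] [Fintype Y] [Nonempty Y] (c : ι)
    (n : ℤ) (G : (ι → Y) → ℤ)
    (h : ∀ η : ι → Y, n ∣ ∑ y, G (Function.update η c y)) : n ∣ ∑ η, G η := by
  classical
  rw [← (Equiv.funSplitAt c Y).symm.sum_comp, Fintype.sum_prod_type, Finset.sum_comm]
  refine Finset.dvd_sum fun r _ => ?_
  obtain ⟨y₀⟩ := ‹Nonempty Y›
  have := h ((Equiv.funSplitAt c Y).symm (y₀, r))
  have key : ∀ y, (Equiv.funSplitAt c Y).symm (y, r)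
      = Function.update ((Equiv.funSplitAt c Y).symm (y₀, r)) c y := by
    intro y
    funext j
    by_cases hj : j = c
    · subst hj
      simp
    · simp [Equiv.funSplitAt, Equiv.piSplitAt, hj]
  simpa only [← key] using this

/-- The next level design. -/
def PHP.step {q d : ℕ} (hq : 1 ≤ q) (Z : PHP q d) : PHP q (d + 1) where
  X := Fin (q + 1) × (Fin (q + 1) → Z.X)
  P := (Fin (q + 1) × Z.P) ⊕ Z.N
  N := (Fin (q + 1) × Z.N) ⊕ Z.P
  fX := inferInstance
  fP := inferInstance
  fN := inferInstance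
  m := Z.stepM
  inj := Z.stepM_inj
  cardX := by
    simp only [Fintype.card_prod, Fintype.card_fin, Fintype.card_pi, Finset.prod_const,
      Finset.card_univ]
    have h1 : q + 1 ≡ 1 [MOD q] := by simp [Nat.ModEq]
    have h2 := Z.cardX.pow (q + 1)
    simpa using h1.mul h2
  neX := inferInstance
  cardP := by
    simp only [Fintype.card_sum, Fintype.card_prod, Fintype.card_fin, Z.cardP]
    ring
  cardN := by
    simp only [Fintype.card_sum, Fintype.card_prod, Fintype.card_fin, Z.cardP]
    have h := Z.cardN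
    have h4 : 1 ≤ 4 ^ d := Nat.one_le_pow _ _ (by norm_num)
    have h5 : q * ((q + 1) * Fintype.card Z.N + (Fintype.card Z.N + q ^ d))
        = (q + 2) * (q * Fintype.card Z.N) + q * q ^ d := by ring
    rw [h5]
    have h6 : (q + 2) * (q * Fintype.card Z.N) ≤ (3 * q) * (4 ^ d * q ^ d) :=
      Nat.mul_le_mul (by omega) h
    have h7 : q * q ^ d ≤ 4 ^ d * (q * q ^ d) := Nat.le_mul_of_pos_left _ h4
    calc (q + 2) * (q * Fintype.card Z.N) + q * q ^ d
        ≤ (3 * q) * (4 ^ d * q ^ d) + 4 ^ d * (q * q ^ d) := Nat.add_le_add h6 h7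
      _ = 4 ^ (d + 1) * q ^ (d + 1) := by ring
  prop := by
    classical
    intro A hA a₀ ha₀ F hF h0
    rcases a₀ with ⟨c₀, a₀⟩ | b₀
    swap
    · have : ∀ x, F x = 0 := fun x => h0 x (Sum.inl (x.1, b₀)) (by simp [PHP.stepM])
      simp [this]
    have hc₀ : ∀ η, F (c₀, η) = 0 := fun η => h0 _ (Sum.inr a₀) (by simp [PHP.stepM])
    by_cases hall : ∀ v ∈ A, ∃ a, v = Sum.inl (c₀, a)
    · rw [Fintype.sum_prod_type, Finset.sum_comm]
      refine Finset.dvd_sum fun η _ => ?_
      have hconst : ∀ c c', c ≠ c₀ → c' ≠ c₀ → F (c, η) = F (c', η) := by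
        intro c c' hc hc'
        refine hF _ _ fun v hv b => ?_
        obtain ⟨a, rfl⟩ := hall v hv
        rw [PHP.stepM_eq_inl, PHP.stepM_eq_inl]
        simp [Ne.symm hc, Ne.symm hc']
      rw [Fin.sum_univ_succAbove _ c₀, hc₀, zero_add]
      have : ∀ j : Fin q, F (c₀.succAbove j, η) = F (c₀.succAbove ⟨0, hq⟩, η) := fun j =>
        hconst _ _ (Fin.succAbove_ne _ _) (Fin.succAbove_ne _ _)
      simp only [this, Finset.sum_const, Finset.card_univ, Fintype.card_fin, nsmul_eq_mul]
      exact Dvd.intro _ rfl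
    · rw [Fintype.sum_prod_type]
      refine Finset.dvd_sum fun c _ => ?_
      by_cases hc : c = c₀
      · subst hc
        simp [hc₀]
      refine dvd_sum_split c₀ _ (fun η => F (c, η)) fun η => ?_
      push Not at hall
      obtain ⟨v, hv, hv'⟩ := hall
      let A' : Finset Z.P := Finset.univ.filter fun a => Sum.inl (c₀, a) ∈ A
      have hA' : A'.card ≤ d := by
        have h1 : A'.card ≤ (A.erase v).card := by
          refine Finset.card_le_card_of_injOn (fun a => Sum.inl (c₀, a)) ?_ ?_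
          · intro a ha
            simp only [A', Finset.coe_filter, Finset.mem_univ, true_and, Set.mem_ofPred_eq] at ha
            simp only [Finset.coe_erase, Set.mem_sdiff, Finset.mem_coe, ha, true_and,
              Set.mem_singleton_iff]
            exact fun h => hv' a h.symm
          · intro a _ a' _ h
            simpa using h
        rw [Finset.card_erase_of_mem hv] at h1
        omega
      refine Z.prop A' hA' a₀ (by simpa [A'] using ha₀)
        (fun y => F (c, Function.update η c₀ y)) ?_ ?_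
      · intro y y' hyy
        refine hF _ _ fun w hw b => ?_
        rcases w with ⟨c', a⟩ | b'
        · rw [PHP.stepM_eq_inl, PHP.stepM_eq_inl]
          by_cases hc' : c' = c₀
          · subst hc'
            have ha : a ∈ A' := by simpa [A'] using hw
            simp only [Function.update_self, hyy a ha]
          · simp only [Function.update_of_ne hc']
        · rw [PHP.stepM_eq_inr, PHP.stepM_eq_inr]
      · intro y b hb
        refine h0 _ (Sum.inl (c₀, b)) ?_
        rw [PHP.stepM_eq_inl]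
        exact Or.inr ⟨Ne.symm hc, b, rfl, by simpa using hb⟩

theorem PHP.nonempty (q : ℕ) (hq : 1 ≤ q) (d : ℕ) : Nonempty (PHP q d) := by
  induction d with
  | zero => exact ⟨PHP.zero q⟩
  | succ d ih => exact ih.elim fun Z => ⟨Z.step hq⟩

end Pool.Agent.Lib.MP_4a16d5_al
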