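import Pool.Agent.Lib.MP_4a16d5_al.Tiled

/-!
Near homomorphisms into a tiled order, and equalisation of levels across components.
-/

namespace Pool.Agent.Lib.MP_4a16d5_al

open Finset

theorem rep_of_near {R : Type} [Ring R] {O : Type} [CommRing O] (ϖ : O)
    (hϖ : ∀ a, ϖ * a = 0 → a = 0) (p : ℕ) (hp : 2 ≤ p) (hpϖ : ϖ ∣ (p : O))
    (m : ℕ) (β : ℕ → ℕ) (hβ : Monotone β) {ι : Type} [Fintype ι] [DecidableEq ι]
    (θ : R → Matrix (Fin (m + 1) × ι) (Fin (m + 1) × ι) O)
    (h0 : ∀ r, IsTiled ϖ β (θ r))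
    (h1 : ∀ i j, ϖ ^ β i.1 ∣ (θ 1 - 1) i j)
    (hadd : ∀ r s i j, ϖ ^ β i.1 ∣ (θ (r + s) - (θ r + θ s)) i j)
    (hmul : ∀ r s i j, ϖ ^ β i.1 ∣ (θ (r * s) - θ r * θ s) i j)
    (hinj : ∀ r, (∀ i j, ϖ ^ β i.1 ∣ ϖ ^ 2 * θ r i j) → r = 0) :
    ∃ (C : Type) (_ : CommRing C) (n : ℕ) (f : R →+* Matrix (Fin n) (Fin n) C),
      Function.Injective f := by
  classical
  obtain ⟨K, _, n, _, _, S, Φ, hS, hΦ1, hΦ2⟩ := tiled_rep ϖ hϖ p hp hpϖ m β hβ ι
  let θ' : R → S := fun r => ⟨θ r, hS _ (h0 r)⟩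
  have key : ∀ a b : S, (∀ i j, ϖ ^ β i.1 ∣ (a.1 - b.1) i j) → Φ a = Φ b := by
    intro a b h
    rw [← sub_eq_zero, ← map_sub]
    exact hΦ1 _ h
  let f₀ : R →* Matrix n n K :=
    { toFun := fun r => Φ (θ' r)
      map_one' := (key (θ' 1) 1 h1).trans (map_one Φ)
      map_mul' := fun r s => (key (θ' (r * s)) (θ' r * θ' s) (hmul r s)).trans (map_mul Φ _ _) }
  let f : R →+* Matrix n n K := RingHom.mk' f₀
    fun r s => (key (θ' (r + s)) (θ' r + θ' s) (hadd r s)).trans (map_add Φ _ _)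
  have hf : Function.Injective f := by
    rw [injective_iff_map_eq_zero]
    intro z hz
    exact hinj z (hΦ2 (θ' z) hz)
  let e := Matrix.reindexAlgEquiv K K (Fintype.equivFin n)
  exact ⟨K, inferInstance, _, e.toRingEquiv.toRingHom.comp f, e.injective.comp hf⟩

section

variable {σ : Type} [Fintype σ] {κ : σ → Type} [∀ s, Fintype (κ s)] (β : (Σ s, κ s) → ℕ)

/-- The number of indices of component `s` with level `b` in a family of level functions. -/
def cnt {Cop : Type} [Fintype Cop] (lv : Cop → (Σ s, κ s) → ℕ) (s : σ) (b : ℕ) : ℕ :=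
  ∑ c, (univ.filter fun i : κ s => lv c ⟨s, i⟩ = b).card

lemma equalize_aux (B : ℕ) (hle : ∀ x, β x ≤ B) (htop : ∀ s, ∃ i : κ s, β ⟨s, i⟩ = B)
    (j : ℕ) (hj : j ≤ B) :
    ∃ (Cop : Type) (_ : Fintype Cop) (lv : Cop → (Σ s, κ s) → ℕ),
      (∀ c x, lv c x ≤ β x) ∧ (∀ c x y, lv c x - lv c y ≤ 1 + (β x - β y)) ∧ (∃ c, lv c = β) ∧
      ∀ b, B - j < b → ∀ s t, cnt lv s b = cnt lv t b := by
  classical
  induction j with
  | zero =>
    refine ⟨Unit, inferInstance, fun _ => β, fun _ _ => le_rfl, fun _ _ _ => Nat.le_add_left _ _,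
      ⟨(), rfl⟩, fun b hb s t => ?_⟩
    have : ∀ s, cnt (fun _ : Unit => β) s b = 0 := by
      intro s
      refine Finset.sum_eq_zero fun c _ => ?_
      rw [Finset.card_eq_zero, Finset.filter_eq_empty_iff]
      intro i _
      have := hle ⟨s, i⟩
      beta_reduce
      omega
    rw [this, this]
  | succ j ih =>
    obtain ⟨Cop, _, lv, h1, h2, ⟨c₀, h3⟩, h4⟩ := ih (by omega)
    choose k hk using htop
    let M := ∑ s, cnt lv s (B - j)
    have hM : ∀ s, cnt lv s (B - j) ≤ M := fun s =>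
      Finset.single_le_sum (f := fun s => cnt lv s (B - j)) (fun _ _ => Nat.zero_le _)
        (Finset.mem_univ s)
    let lam : σ → (Σ s, κ s) → ℕ := fun s x =>
      if x = ⟨s, k s⟩ then B - j else min (β x - j) (B - j - 1)
    have hl1 : ∀ s x, lam s x ≤ β x - j ∧ β x - j ≤ lam s x + 1 := by
      intro s x
      have := hle x
      simp only [lam]
      split_ifs with h
      · rw [h, hk]
        omega
      · omega
    refine ⟨Cop ⊕ Σ s, Fin (M - cnt lv s (B - j)), inferInstance,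
      Sum.elim lv fun c => lam c.1, ?_, ?_, ⟨Sum.inl c₀, h3⟩, ?_⟩
    · rintro (c | c) x
      · exact h1 c x
      · have := hl1 c.1 x
        simp only [Sum.elim_inr]
        omega
    · rintro (c | c) x y
      · exact h2 c x y
      · have := hl1 c.1 x
        have := hl1 c.1 y
        simp only [Sum.elim_inr]
        omega
    · intro b hb
      have hsplit : ∀ s, cnt (Sum.elim lv fun c : Σ s, Fin (M - cnt lv s (B - j)) => lam c.1) s b
          = cnt lv s b + ∑ t, (M - cnt lv t (B - j))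
            * (univ.filter fun i : κ s => lam t ⟨s, i⟩ = b).card := by
        intro s
        rw [cnt, Fintype.sum_sum_type, Fintype.sum_sigma]
        refine congrArg₂ _ rfl (Finset.sum_congr rfl fun t _ => ?_)
        change ∑ _y : Fin (M - cnt lv t (B - j)),
          (univ.filter fun i : κ s => lam t ⟨s, i⟩ = b).card = _
        simp
      rcases Nat.lt_or_ge (B - j) b with h | h
      · have h5 : ∀ s t, (univ.filter fun i : κ s => lam t ⟨s, i⟩ = b).card = 0 := by
          intro s t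
          rw [Finset.card_eq_zero, Finset.filter_eq_empty_iff]
          intro i _
          have := hl1 t ⟨s, i⟩
          have := hle ⟨s, i⟩
          omega
        intro s t
        rw [hsplit, hsplit, h4 b h s t]
        simp [h5]
      · obtain rfl : b = B - j := by omega
        have h5 : ∀ s t, (univ.filter fun i : κ s => lam t ⟨s, i⟩ = B - j).card
            = if t = s then 1 else 0 := by
          intro s t
          have h6 : ∀ i : κ s, lam t ⟨s, i⟩ = B - j ↔ (⟨s, i⟩ : Σ s, κ s) = ⟨t, k t⟩ := by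
            intro i
            simp only [lam]
            split_ifs with h
            · simp [h]
            · simp only [h, iff_false]
              omega
          simp only [h6]
          split_ifs with h
          · subst h
            rw [Finset.card_eq_one]
            exact ⟨k t, by ext i; simp⟩
          · rw [Finset.card_eq_zero, Finset.filter_eq_empty_iff]
            intro i _ h'
            exact h (congrArg Sigma.fst h').symm
        have h7 : ∀ s, cnt (Sum.elim lv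
            fun c : Σ s, Fin (M - cnt lv s (B - j)) => lam c.1) s (B - j) = M := by
          intro s
          rw [hsplit]
          simp only [h5, mul_ite, mul_one, mul_zero, Finset.sum_ite_eq', Finset.mem_univ, if_true]
          have := hM s
          omega
        intro s t
        rw [h7, h7]

theorem equalize [Nonempty σ] (B : ℕ) (hB : 1 ≤ B) (hle : ∀ x, β x ≤ B)
    (htop : ∀ s, ∃ i : κ s, β ⟨s, i⟩ = B) :
    ∃ (Cop : Type) (_ : Fintype Cop) (lv : Cop → (Σ s, κ s) → ℕ) (m : ℕ) (γ : ℕ → ℕ)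
      (ψ : ∀ s, Fin (m + 1) → Cop × κ s), Monotone γ ∧
      (∀ c x, lv c x ≤ β x) ∧ (∀ c x y, lv c x - lv c y ≤ 1 + (β x - β y)) ∧ (∃ c, lv c = β) ∧
      (∀ s, Function.Injective (ψ s)) ∧ (∀ s l, lv (ψ s l).1 ⟨s, (ψ s l).2⟩ = γ l) ∧
      ∀ s c i, 1 ≤ lv c ⟨s, i⟩ → ∃ l, ψ s l = (c, i) := by
  classical
  obtain ⟨Cop, _, lv, h1, h2, ⟨c₀, h3⟩, h4⟩ := equalize_aux β B hle htop B le_rfl
  let T : σ → Type := fun s => {z : Cop × κ s // 1 ≤ lv z.1 ⟨s, z.2⟩}
  let L : ∀ s, T s → ℕ := fun s z => lv z.1.1 ⟨s, z.1.2⟩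
  have hcard : ∀ s b, 1 ≤ b → Fintype.card {z : T s // L s z = b} = cnt lv s b := by
    intro s b hb
    have e : {z : T s // L s z = b} ≃ Σ c : Cop, {i : κ s // lv c ⟨s, i⟩ = b} :=
      { toFun := fun z => ⟨z.1.1.1, z.1.1.2, z.2⟩
        invFun := fun z => ⟨⟨(z.1, z.2.1), hb.trans z.2.2.ge⟩, z.2.2⟩
        left_inv := fun _ => rfl
        right_inv := fun _ => rfl }
    rw [Fintype.card_congr e, Fintype.card_sigma, cnt]
    exact Finset.sum_congr rfl fun c _ => Fintype.card_subtype _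
  have hcard0 : ∀ s, Fintype.card {z : T s // L s z = 0} = 0 := by
    intro s
    rw [Fintype.card_eq_zero_iff]
    exact ⟨fun z => by
      have h5 := z.1.2
      have h6 : lv z.1.1.1 ⟨s, z.1.1.2⟩ = 0 := z.2
      omega⟩
  obtain ⟨s₀⟩ := ‹Nonempty σ›
  have hE : ∀ s, ∃ e : T s₀ ≃ T s, ∀ z, L s (e z) = L s₀ z := by
    intro s
    have hfib : ∀ b, {z : T s₀ // L s₀ z = b} ≃ {z : T s // L s z = b} := by
      intro b
      refine Fintype.equivOfCardEq ?_
      rcases Nat.eq_zero_or_pos b with rfl | hb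
      · rw [hcard0, hcard0]
      · rw [hcard _ _ hb, hcard _ _ hb]
        exact h4 b (by omega) _ _
    exact ⟨Equiv.ofFiberEquiv hfib, Equiv.ofFiberEquiv_map hfib⟩
  choose E hE using hE
  have hne : Fintype.card (T s₀) ≠ 0 := by
    obtain ⟨i, hi⟩ := htop s₀
    have : Nonempty (T s₀) := ⟨⟨(c₀, i), by simp only [h3, hi]; exact hB⟩⟩
    exact Fintype.card_ne_zero
  obtain ⟨m, hm⟩ := Nat.exists_eq_succ_of_ne_zero hne
  let e₀ : Fin (m + 1) ≃ T s₀ := (Fintype.equivFinOfCardEq hm).symm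
  let e : Fin (m + 1) ≃ T s₀ := (Tuple.sort (L s₀ ∘ e₀)).trans e₀
  have he : Monotone (L s₀ ∘ e) := Tuple.monotone_sort (L s₀ ∘ e₀)
  have hmin : ∀ i : Fin (m + 1),
      (⟨min i m, Nat.lt_succ_of_le (min_le_right _ _)⟩ : Fin (m + 1)) = i :=
    fun i => Fin.ext (min_eq_left (Nat.lt_succ_iff.mp i.2))
  refine ⟨Cop, inferInstance, lv, m,
    fun i => L s₀ (e ⟨min i m, Nat.lt_succ_of_le (min_le_right _ _)⟩),
    fun s l => (E s (e l)).1, ?_, h1, h2, ⟨c₀, h3⟩, ?_, ?_, ?_⟩
  · intro i j hij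
    exact he (min_le_min_right m hij)
  · intro s
    exact Subtype.val_injective.comp ((E s).injective.comp e.injective)
  · intro s l
    simp only [hmin]
    exact hE s (e l)
  · intro s c i h
    exact ⟨e.symm ((E s).symm ⟨(c, i), h⟩), by simp⟩

end

end Pool.Agent.Lib.MP_4a16d5_al
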