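import Pool.Agent.Lib.MP_4a16d5_al.Tiled
import Pool.Agent.Lib.MP_4a16d5_al.Struct

/-!
From a module with slack to a faithful matrix representation over a commutative ring.
-/

namespace Pool.Agent.Lib.MP_4a16d5_al

open Finset

theorem rep_of_gens {R : Type} [Ring R] (J : Set R) {O : Type} [CommRing O] (ϖ : O)
    (hϖ : ∀ a, ϖ * a = 0 → a = 0) (p : ℕ) (hp : 2 ≤ p) (hpϖ : ϖ ∣ (p : O))
    {W : Type} [AddCommGroup W] [Module O W] (act : R →+* Module.End O W)
    (m : ℕ) (β : ℕ → ℕ) (hβ : Monotone β) (hβ1 : ∀ i, 1 ≤ β i)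
    {ι : Type} [Fintype ι] [DecidableEq ι] (g : Fin (m + 1) × ι → W)
    (hspan : ∀ x, ∃ a : Fin (m + 1) × ι → O, x = ∑ i, a i • g i)
    (hkill : ∀ i, ϖ ^ β i.1 • g i = 0)
    (hker : ∀ a : Fin (m + 1) × ι → O, ∑ i, a i • g i = 0 → ∀ i, ϖ ^ β i.1 ∣ a i)
    (h4 : ∀ r, ∃ a : Matrix ι ι O, ∃ x ∈ J, ∀ j,
      act r (g j) = ∑ s, a s j.2 • g (j.1, s) + act x (g j))
    (h5a : ∀ x ∈ J, ∀ w, ∃ w', act x w = ϖ • w')
    (h5b : ∀ x ∈ J, ∀ w, ϖ • w = 0 → act x w = 0)
    (h6 : ∀ z : R, (∀ w, ϖ ^ 2 • act z w = 0) → z = 0) :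
    ∃ (C : Type) (_ : CommRing C) (n : ℕ) (f : R →+* Matrix (Fin n) (Fin n) C),
      Function.Injective f := by
  classical
  obtain ⟨K, _, n, _, _, S, Φ, hS, hΦ1, hΦ2⟩ := tiled_rep ϖ hϖ p hp hpϖ m β hβ ι
  have hreg : ∀ (n : ℕ) a, ϖ ^ n * a = 0 → a = 0 := by
    intro n
    induction n with
    | zero => simp
    | succ n ih =>
      intro a h
      rw [pow_succ, mul_assoc] at h
      exact hϖ _ (ih _ h)
  have hzero : ∀ a : Fin (m + 1) × ι → O, (∀ i, ϖ ^ β i.1 ∣ a i) → ∑ i, a i • g i = 0 := by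
    intro a ha
    refine Finset.sum_eq_zero fun i _ => ?_
    obtain ⟨c, hc⟩ := ha i
    rw [hc, mul_comm, mul_smul, hkill, smul_zero]
  let Γ : Subring (R × Matrix (Fin (m + 1) × ι) (Fin (m + 1) × ι) O) :=
    { carrier := {rt | ∀ j, act rt.1 (g j) = ∑ i, rt.2 i j • g i}
      mul_mem' := by
        intro a b ha hb j
        simp only [Prod.fst_mul, Prod.snd_mul, map_mul, Module.End.mul_apply, hb j, map_sum,
          map_smul, Matrix.mul_apply, Finset.sum_smul]
        rw [Finset.sum_comm]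
        refine Finset.sum_congr rfl fun k _ => ?_
        rw [ha k, Finset.smul_sum]
        refine Finset.sum_congr rfl fun i _ => ?_
        rw [smul_smul, mul_comm]
      one_mem' := by
        intro j
        simp [Matrix.one_apply]
      add_mem' := by
        intro a b ha hb j
        simp only [Prod.fst_add, Prod.snd_add, map_add, LinearMap.add_apply, ha j, hb j,
          Matrix.add_apply, add_smul, Finset.sum_add_distrib]
      zero_mem' := by
        intro j
        simp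
      neg_mem' := by
        intro a ha j
        simp only [Prod.fst_neg, Prod.snd_neg, map_neg, LinearMap.neg_apply, ha j,
          Matrix.neg_apply, neg_smul, Finset.sum_neg_distrib] }
  have hΓ : ∀ rt, rt ∈ Γ ↔ ∀ j, act rt.1 (g j) = ∑ i, rt.2 i j • g i := fun _ => Iff.rfl
  have htiled : ∀ rt ∈ Γ, IsTiled ϖ β rt.2 := by
    rintro ⟨r, t⟩ hrt
    obtain ⟨a, x, hx, ha⟩ := h4 r
    refine ⟨a, fun i j => ?_⟩
    have h1 : act x (g j) = ∑ i, (t - blk m a) i j • g i := by
      have h2 := (hΓ _).mp hrt j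
      simp only at h2
      simp only [Matrix.sub_apply, sub_smul, Finset.sum_sub_distrib, ← h2, ha j]
      rw [Fintype.sum_prod_type, Finset.sum_eq_single j.1]
      · simp [blk]
      · intro k _ hk
        simp [blk, hk]
      · simp
    simp only
    set c := fun i => (t - blk m a) i j with hc
    change ϖ ^ (1 + (β i.1 - β j.1)) ∣ c i
    rcases le_total (β i.1) (β j.1) with h | h
    · rw [Nat.sub_eq_zero_of_le h, add_zero, pow_one]
      obtain ⟨w', hw'⟩ := h5a x hx (g j)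
      obtain ⟨a', rfl⟩ := hspan w'
      have h3 := hker (fun i => c i - ϖ * a' i) (by
        simp only [sub_smul, Finset.sum_sub_distrib, mul_smul, ← Finset.smul_sum, ← hw', h1, hc,
          sub_self]) i
      have h5 := (dvd_pow_self ϖ (by have := hβ1 i.1; omega)).trans h3
      exact (dvd_sub_left (dvd_mul_right ϖ _)).mp h5
    · obtain ⟨k, hk⟩ : ∃ k, β j.1 = k + 1 := ⟨β j.1 - 1, by have := hβ1 j.1; omega⟩
      have h2 := h5b x hx (ϖ ^ k • g j) (by rw [smul_smul, ← pow_succ', ← hk, hkill])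
      rw [map_smul, h1, Finset.smul_sum] at h2
      obtain ⟨d, hd⟩ := hker (fun i => ϖ ^ k * c i) (by simpa only [mul_smul] using h2) i
      refine ⟨d, ?_⟩
      rw [← sub_eq_zero]
      apply hreg k
      have h3 : β i.1 = k + (1 + (β i.1 - β j.1)) := by omega
      rw [h3, pow_add] at hd
      linear_combination hd
  let pr : Γ →+* R := (RingHom.fst _ _).comp Γ.subtype
  have hpr : Function.Surjective pr := by
    intro r
    choose a ha using fun j => hspan (act r (g j))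
    exact ⟨⟨(r, Matrix.of fun i j => a j i), ha⟩, rfl⟩
  let θ : Γ →+* S := ((RingHom.snd _ _).comp Γ.subtype).codRestrict S
    fun γ => hS _ (htiled _ γ.2)
  have hle : RingHom.ker pr ≤ RingHom.ker (Φ.comp θ) := by
    intro γ hγ
    refine hΦ1 (θ γ) fun i j => ?_
    have h1 := (hΓ _).mp γ.2 j
    have h2 : γ.1.1 = 0 := hγ
    rw [h2, map_zero, LinearMap.zero_apply] at h1
    exact hker _ h1.symm i
  let f : R →+* Matrix n n K := pr.liftOfSurjective hpr ⟨Φ.comp θ, hle⟩
  have hf : Function.Injective f := by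
    rw [injective_iff_map_eq_zero]
    intro z hz
    obtain ⟨γ, rfl⟩ := hpr z
    have h1 : Φ (θ γ) = 0 := by
      rw [← hz]
      exact (RingHom.liftOfRightInverse_comp_apply pr _ _ ⟨Φ.comp θ, hle⟩ γ).symm
    have h2 := hΦ2 _ h1
    refine h6 _ fun w => ?_
    obtain ⟨a, rfl⟩ := hspan w
    rw [map_sum, Finset.smul_sum]
    refine Finset.sum_eq_zero fun j _ => ?_
    have h3 : act (pr γ) (g j) = ∑ i, γ.1.2 i j • g i := (hΓ _).mp γ.2 j
    rw [map_smul, smul_comm, h3, Finset.smul_sum]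
    simp only [smul_smul]
    rw [hzero (fun i => ϖ ^ 2 * γ.1.2 i j) fun i => h2 i j, smul_zero]
  let e := Matrix.reindexAlgEquiv K K (Fintype.equivFin n)
  exact ⟨K, inferInstance, _, e.toRingEquiv.toRingHom.comp f, e.injective.comp hf⟩

theorem rep_of_module {R : Type} [Ring R] [Nontrivial R] (J : Set R) {O : Type} [CommRing O]
    (ϖ : O) (hϖ : ∀ a, ϖ * a = 0 → a = 0) (p : ℕ) (hp : 2 ≤ p) (hpϖ : ϖ ∣ (p : O))
    {C : Type} [CommRing C] [Algebra O C] {ι : Type} [Fintype ι] (b : Module.Basis ι O C)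
    (hf : ∀ c, algebraMap O C ϖ ∣ c ∨ ∃ c', algebraMap O C ϖ ∣ c * c' - 1)
    {W : Type} [AddCommGroup W] [Module O W] [Module C W] [IsScalarTower O C W] [Finite W]
    (N : ℕ) (hN : ∀ w : W, ϖ ^ N • w = 0) (act : R →+* Module.End O W)
    (h4 : ∀ r, ∃ c : C, ∃ x ∈ J, ∀ w, act r w = c • w + act x w)
    (h5a : ∀ x ∈ J, ∀ w, ∃ w', act x w = ϖ • w')
    (h5b : ∀ x ∈ J, ∀ w, ϖ • w = 0 → act x w = 0)
    (h6 : ∀ z : R, (∀ w, ϖ ^ 2 • act z w = 0) → z = 0) :
    ∃ (C : Type) (_ : CommRing C) (n : ℕ) (f : R →+* Matrix (Fin n) (Fin n) C),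
      Function.Injective f := by
  classical
  have : Nontrivial W := by
    by_contra h
    have := not_nontrivial_iff_subsingleton.mp h
    exact one_ne_zero (h6 1 fun w => Subsingleton.elim _ _)
  obtain ⟨m, β, w, hβ, hβ1, hw1, hw2, hw3⟩ := struct_sorted (algebraMap O C ϖ) hf N W
    (fun x => by rw [← map_pow, algebraMap_smul, hN])
  have hsum : ∀ a : Fin (m + 1) × ι → O, ∑ i, a i • b i.2 • w i.1
      = ∑ i, (∑ s, a (i, s) • b s) • w i := by
    intro a
    rw [Fintype.sum_prod_type]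
    simp only [Finset.sum_smul, smul_assoc]
  refine rep_of_gens J ϖ hϖ p hp hpϖ act m β hβ hβ1 (fun i : Fin (m + 1) × ι => b i.2 • w i.1)
    ?_ ?_ ?_ ?_ h5a h5b h6
  · intro x
    obtain ⟨c, hc⟩ := hw1 x
    refine ⟨fun i => b.repr (c i.1) i.2, ?_⟩
    rw [hsum, hc]
    simp only [Module.Basis.sum_repr]
  · intro i
    rw [← algebraMap_smul C, map_pow, smul_comm, hw2, smul_zero]
  · rintro a ha ⟨i, s⟩
    rw [hsum] at ha
    obtain ⟨d, hd⟩ := hw3 _ ha i
    have h1 := congrArg (fun c => b.repr c s) hd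
    simp only [← map_pow, ← Algebra.smul_def, map_smul, Finsupp.smul_apply, smul_eq_mul] at h1
    rw [b.repr_sum_self] at h1
    exact ⟨_, h1⟩
  · intro r
    obtain ⟨c, x, hx, hc⟩ := h4 r
    refine ⟨Matrix.of fun s u => b.repr (c * b u) s, x, hx, fun j => ?_⟩
    rw [hc]
    congr 1
    simp only [Matrix.of_apply, ← smul_assoc, ← Finset.sum_smul, Module.Basis.sum_repr,
      smul_eq_mul]

end Pool.Agent.Lib.MP_4a16d5_al
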