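import Pool.Agent.Lib.MP_4a16d5_al.Comp

/-!
The module with slack for an arbitrary finite ring, and the representation of pure rings.
-/

namespace Pool.Agent.Lib.MP_4a16d5_al

open Finset Polynomial TensorProduct

theorem slack_module {R : Type} [Ring R] (J : Ideal R) [J.IsTwoSided] (n : ℕ)
    (hnil : ∀ l : List R, l.length = n + 1 → (∀ x ∈ l, x ∈ J) → l.prod = 0)
    {O : Type} [CommRing O] (ϖ : O)
    {D : Type} [Ring D] [Algebra O D] [Finite D] (i : R →+* D)
    (hD : ∀ d : D, d ∈ Submodule.span O (Set.range i)) :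
    ∃ (W : Type) (_ : AddCommGroup W) (_ : Module O W) (_ : Finite W)
      (act : R →+* Module.End O W) (w₀ : W),
      (∀ o : O, o • (1 : D) = 0 → ∀ w : W, o • w = 0) ∧
      (∀ x ∈ J, ∀ w, ∃ w', act x w = ϖ • w') ∧ (∀ x ∈ J, ∀ w, ϖ • w = 0 → act x w = 0) ∧
      ∀ (o o' : O) z w', o • act z w₀ = o' • w' →
        ∃ d : D, (ϖ ^ n * o * ϖ ^ n) • i z = (ϖ ^ n * o') • d := by
  classical
  let A : Submodule D D := Submodule.span D
    {a | ∃ l : List R, l.length ≤ n ∧ (∀ x ∈ l, x ∈ J) ∧ a = ϖ ^ (n - l.length) • i l.prod}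
  let B : Submodule D D :=
    { carrier := {a | ∀ (d : D) (l : List R), l.length ≤ n → (∀ x ∈ l, x ∈ J) →
        ϖ ^ (n - l.length) • (i l.prod * d * a) = 0}
      add_mem' := by
        intro a b ha hb d l h1 h2
        rw [mul_add, smul_add, ha d l h1 h2, hb d l h1 h2, add_zero]
      zero_mem' := by
        intro d l _ _
        simp
      smul_mem' := by
        intro c a ha d l h1 h2
        have := ha (d * c) l h1 h2
        simpa only [smul_eq_mul, mul_assoc] using this }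
  have hA : ∀ a ∈ A, ∀ x ∈ J, ∃ a' ∈ A, i x * a = ϖ • a' := by
    intro a ha
    induction ha using Submodule.span_induction with
    | mem a ha =>
      obtain ⟨l, h1, h2, rfl⟩ := ha
      intro x hx
      have h3 : ∀ y ∈ x :: l, y ∈ J := by
        intro y hy
        rcases List.mem_cons.mp hy with rfl | hy
        · exact hx
        · exact h2 y hy
      rw [mul_smul_comm, ← map_mul, ← List.prod_cons]
      rcases h1.lt_or_eq with h1 | h1
      · refine ⟨_, Submodule.subset_span ⟨x :: l, h1, h3, rfl⟩, ?_⟩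
        rw [smul_smul, ← pow_succ', List.length_cons]
        congr 2
        omega
      · exact ⟨0, A.zero_mem, by rw [hnil (x :: l) (by simp [h1]) h3]; simp⟩
    | zero => exact fun x _ => ⟨0, A.zero_mem, by simp⟩
    | add a a' _ _ h1 h2 =>
      intro x hx
      obtain ⟨u, hu, hu'⟩ := h1 x hx
      obtain ⟨v, hv, hv'⟩ := h2 x hx
      exact ⟨u + v, A.add_mem hu hv, by rw [mul_add, hu', hv', smul_add]⟩
    | smul d a _ h =>
      intro x hx
      have hd := hD d
      induction hd using Submodule.span_induction with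
      | mem d hd =>
        obtain ⟨r, rfl⟩ := hd
        obtain ⟨u, hu, hu'⟩ := h (x * r) (J.mul_mem_right r hx)
        exact ⟨u, hu, by rw [smul_eq_mul, ← mul_assoc, ← map_mul, hu']⟩
      | zero => exact ⟨0, A.zero_mem, by simp⟩
      | add d d' _ _ h1 h2 =>
        obtain ⟨u, hu, hu'⟩ := h1
        obtain ⟨v, hv, hv'⟩ := h2
        exact ⟨u + v, A.add_mem hu hv, by rw [add_smul, mul_add, hu', hv', smul_add]⟩
      | smul o d _ h1 =>
        obtain ⟨u, hu, hu'⟩ := h1
        refine ⟨o • u, A.smul_of_tower_mem o hu, ?_⟩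
        rw [smul_assoc, mul_smul_comm, hu', smul_comm]
  have hB : ∀ a, ϖ • a ∈ B → ∀ x ∈ J, i x * a ∈ B := by
    intro a ha x hx d l h1 h2
    have hd := hD d
    induction hd using Submodule.span_induction with
    | mem d hd =>
      obtain ⟨r, rfl⟩ := hd
      have h3 : ∀ y ∈ l ++ [r * x], y ∈ J := by
        intro y hy
        rcases List.mem_append.mp hy with hy | hy
        · exact h2 y hy
        · rw [List.mem_singleton.mp hy]
          exact J.mul_mem_left r hx
      have h4 : i l.prod * i r * (i x * a) = i (l ++ [r * x]).prod * a := by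
        simp [mul_assoc]
      rw [h4]
      rcases h1.lt_or_eq with h1 | h1
      · have h5 := ha 1 (l ++ [r * x]) (by simpa using h1) h3
        rw [mul_one, mul_smul_comm, smul_smul, ← pow_succ] at h5
        rw [← h5]
        congr 2
        simp only [List.length_append, List.length_singleton]
        omega
      · rw [hnil _ (by simp [h1]) h3]
        simp
    | zero => simp
    | add d d' _ _ h3 h4 => rw [mul_add, add_mul, smul_add, h3, h4, add_zero]
    | smul o d _ h3 => rw [mul_smul_comm, smul_mul_assoc, smul_comm, h3, smul_zero]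
  let B' : Submodule D A := B.comap A.subtype
  let W := A ⧸ B'
  have : Finite W := Finite.of_surjective _ B'.mkQ_surjective
  let act : R →+* Module.End O W := (Algebra.lsmul O O W : D →ₐ[O] _).toRingHom.comp i
  have hact : ∀ r w, act r w = i r • w := fun _ _ => rfl
  have hmk : ∀ (o : O) (a : A), B'.mkQ (o • a) = o • B'.mkQ a := fun _ _ => rfl
  have h1 : ϖ ^ n • (1 : D) ∈ A := Submodule.subset_span ⟨[], by simp, by simp, by simp⟩
  refine ⟨W, inferInstance, inferInstance, inferInstance, act, B'.mkQ ⟨_, h1⟩, ?_, ?_, ?_, ?_⟩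
  · intro o ho w
    rw [← one_smul D w, ← smul_assoc, ho, zero_smul]
  · intro x hx w
    obtain ⟨⟨a, ha⟩, rfl⟩ := B'.mkQ_surjective w
    obtain ⟨a', ha', h⟩ := hA a ha x hx
    refine ⟨B'.mkQ ⟨a', ha'⟩, ?_⟩
    rw [hact, ← map_smul, ← hmk]
    exact congrArg _ (Subtype.ext h)
  · intro x hx w hw
    obtain ⟨⟨a, ha⟩, rfl⟩ := B'.mkQ_surjective w
    rw [← hmk, Submodule.mkQ_apply, Submodule.Quotient.mk_eq_zero] at hw
    rw [hact, ← map_smul, Submodule.mkQ_apply, Submodule.Quotient.mk_eq_zero]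
    exact hB a hw x hx
  · intro o o' z w' hz
    obtain ⟨⟨a, ha⟩, rfl⟩ := B'.mkQ_surjective w'
    rw [hact, ← map_smul, ← hmk, ← hmk, ← sub_eq_zero, ← map_sub, Submodule.mkQ_apply,
      Submodule.Quotient.mk_eq_zero] at hz
    have h3 := hz 1 [] (by simp) (by simp)
    refine ⟨a, ?_⟩
    simpa [smul_smul, smul_sub, sub_eq_zero, mul_assoc] using h3

theorem rep_of_prime_pure (R : Type) [Ring R] [Finite R] [Nontrivial R] (p k : ℕ) (hp : p.Prime)
    (hk : (p : R) ^ (k + 1) = 0) (he : ∀ e : R, e * e = e → e ≠ 0 → (p : R) ^ k * e ≠ 0) :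
    ∃ (C : Type) (_ : CommRing C) (n : ℕ) (f : R →+* Matrix (Fin n) (Fin n) C),
      Function.Injective f := by
  classical
  obtain ⟨n, hnil⟩ := jacobson_nil R
  have hp2 := hp.two_le
  let g : ℤ[X] := X ^ (6 * n + 2 + 1) - C (p : ℤ)
  have hg : g.Monic := monic_X_pow_sub_C _ (by omega)
  have hdeg : g.natDegree = 6 * n + 2 + 1 := natDegree_X_pow_sub_C
  let O := AdjoinRoot g
  let ϖ : O := AdjoinRoot.root g
  let pb := AdjoinRoot.powerBasis' hg
  have hϖp : ϖ ^ (6 * n + 2 + 1) = (p : O) := by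
    have := AdjoinRoot.eval₂_root g
    simpa [g, sub_eq_zero] using this
  have hϖ : ∀ a, ϖ * a = 0 → a = 0 := by
    intro a ha
    have h1 : (p : ℤ) • a = 0 := by
      rw [zsmul_eq_mul, Int.cast_natCast, ← hϖp, pow_succ, mul_assoc, ha, mul_zero]
    have : Module.Free ℤ O := Module.Free.of_basis pb.basis
    exact (smul_eq_zero.mp h1).resolve_left (by omega)
  have hO : ∀ o : O, ∃ (k : ℤ) (o' : O), o = k + ϖ * o' := by
    intro o
    obtain ⟨h, rfl⟩ := AdjoinRoot.mk_surjective o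
    refine ⟨h.coeff 0, AdjoinRoot.mk g h.divX, ?_⟩
    conv_lhs => rw [← h.X_mul_divX_add]
    simp [ϖ, add_comm]
  have hpd : ϖ ∣ (p : O) := hϖp ▸ dvd_pow_self ϖ (by omega)
  let E := TensorProduct.equivFinsuppOfBasisLeft (N := R) pb.basis
  have : Finite (O ⊗[ℤ] R) :=
    Finite.of_equiv _ (E.toEquiv.trans Finsupp.equivFunOnFinite).symm
  let i : R →+* O ⊗[ℤ] R := (Algebra.TensorProduct.includeRight : R →ₐ[ℤ] O ⊗[ℤ] R).toRingHom
  have hfaith : ∀ z, ϖ ^ (6 * n + 2) • i z = 0 → z = 0 := by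
    intro z hz
    have h1 : (ϖ ^ (6 * n + 2)) ⊗ₜ[ℤ] z = 0 := by
      rw [← hz]
      simp [i, smul_tmul']
    let k : Fin pb.dim := ⟨6 * n + 2, by
      change _ < g.natDegree
      omega⟩
    have h2 : ϖ ^ (6 * n + 2) = pb.basis k := by
      rw [pb.basis_eq_pow]
      rfl
    have h3 := congrArg (fun t => E t k) h1
    simp only [h2, E, equivFinsuppOfBasisLeft_apply_tmul_apply, Module.Basis.repr_self,
      Finsupp.single_eq_same, one_smul, map_zero, Finsupp.zero_apply] at h3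
    exact h3
  have hpow : ∀ (j : ℕ) (d : O ⊗[ℤ] R), ϖ ^ ((6 * n + 2 + 1) * j) • d = i ((p : R) ^ j) * d := by
    intro j d
    rw [pow_mul, hϖp]
    exact (Algebra.smul_def _ d).trans (by rw [map_pow, map_natCast, map_pow, map_natCast])
  obtain ⟨W, _, _, _, act, w₀, h1, h2, h3, h4⟩ := slack_module (Ring.jacobson R) n hnil (ϖ ^ 2)
    i (by
      intro d
      induction d using TensorProduct.induction_on with
      | zero => exact Submodule.zero_mem _
      | tmul o r =>
        have : o ⊗ₜ[ℤ] r = o • (1 : O) ⊗ₜ[ℤ] r := by simp [smul_tmul']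
        rw [this]
        exact Submodule.smul_mem _ _ (Submodule.subset_span ⟨r, rfl⟩)
      | add d d' h1 h2 => exact Submodule.add_mem _ h1 h2)
  refine rep_of_slack ϖ hϖ p hp ?_ hpd hO ((6 * n + 2 + 1) * (k + 1))
    (h1 _ (by rw [hpow, hk, map_zero, zero_mul])) act ((6 * n + 2 + 1) * k + 2 * n + 2) h2 h3 ?_ ?_
  · rw [← Ideal.jacobson_bot, Ideal.mem_jacobson_iff]
    intro y
    have h5 : IsNilpotent (y * p) :=
      (Nat.cast_commute p y).symm.isNilpotent_mul_left ⟨_, hk⟩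
    obtain ⟨u, hu⟩ := h5.isUnit_add_one
    refine ⟨↑u⁻¹, ?_⟩
    have : (↑u⁻¹ : R) * y * p + ↑u⁻¹ = ↑u⁻¹ * (y * p + 1) := by noncomm_ring
    rw [this, ← hu]
    simp
  · intro z hz
    obtain ⟨w', hw'⟩ := hz w₀
    obtain ⟨d, hd⟩ := h4 _ _ _ _ hw'
    apply hfaith
    have h5 := congrArg (ϖ ^ (2 * n) • ·) hd
    simp only [smul_smul, ← pow_mul, ← pow_add] at h5
    have h6 : 2 * n + (2 * n + ((6 * n + 2 + 1) * k + 2 * n + 2 + 1))
        = (6 * n + 2 + 1) * (k + 1) := by ring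
    have h7 : 2 * n + (2 * n + 2 + 2 * n) = 6 * n + 2 := by ring
    rwa [h6, h7, hpow, hk, map_zero, zero_mul] at h5
  · intro e he1 he2
    refine ⟨w₀, fun h => he e he1 he2 (hfaith _ ?_)⟩
    obtain ⟨d, hd⟩ := h4 _ 0 e 0 (h.trans (smul_zero _).symm)
    rw [mul_zero, zero_smul, ← pow_mul, ← pow_add, ← pow_add] at hd
    rw [map_mul, ← hpow, smul_smul, ← pow_add, ← hd]
    congr 2
    ring

lemma exists_split (t p : ℕ) (ht : t ≠ 0) (hp : p.Prime) (hpt : p ∣ t) :
    ∃ k t' c : ℕ, t = p ^ (k + 1) * t' ∧ t' ∣ c ∧ c ≡ 1 [MOD p ^ (k + 1)] ∧ t'.Coprime p := by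
  obtain ⟨k, t', h1, h2⟩ := Nat.exists_eq_pow_mul_and_not_dvd ht p hp.ne_one
  have h3 : t'.Coprime p := ((Nat.Prime.coprime_iff_not_dvd hp).mpr h1).symm
  rcases k with _ | k
  · exact absurd (by simpa [h2] using hpt) h1
  obtain ⟨c, hc1, hc2⟩ := Nat.chineseRemainder (h3.pow_right (k + 1)) 0 1
  exact ⟨k, t', c, h2, (Nat.modEq_zero_iff_dvd).mp hc1, hc2, h3⟩

theorem rep_of_pure (R : Type) [Ring R] [Finite R] [Nontrivial R]
    (he : ∀ e : R, e * e = e → e ≠ 0 → ∀ m : ℕ, m • e = 0 → (m : R) = 0) :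
    ∃ (C : Type) (_ : CommRing C) (n : ℕ) (f : R →+* Matrix (Fin n) (Fin n) C),
      Function.Injective f := by
  have ht0 : ringChar R ≠ 0 := CharP.ringChar_ne_zero_of_finite R
  have ht1 : ringChar R ≠ 1 := CharP.ringChar_ne_one
  obtain ⟨k, t', c, h1, ⟨c', h2⟩, h3, h4⟩ :=
    exists_split _ _ ht0 (Nat.minFac_prime ht1) (Nat.minFac_dvd _)
  set p := (ringChar R).minFac
  have hp : p.Prime := Nat.minFac_prime ht1
  have hnd : ∀ a, ¬ p ^ (k + 1) * a ∣ p ^ k := fun a h =>
    absurd (Nat.le_of_dvd (pow_pos hp.pos k) ((dvd_mul_right _ a).trans h))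
      (not_le.mpr (Nat.pow_lt_pow_right hp.one_lt k.lt_succ_self))
  have h5 : (p : R) ^ (k + 1) = 0 := by
    obtain ⟨b, hb⟩ := h3.dvd
    have h6 : (1 - c : R) = (p : R) ^ (k + 1) * b := by
      have := congrArg (Int.cast : ℤ → R) hb
      push_cast at this
      exact this
    have h7 : (c : R) * (1 - c) = 0 := by
      rw [h6, h2, Nat.mul_comm, Nat.cast_mul, ← Nat.cast_pow, mul_assoc, ← mul_assoc (t' : R),
        ← Nat.cast_mul, Nat.mul_comm, ← h1, ringChar.Nat.cast_ringChar, zero_mul, mul_zero]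
    have h8 : (c : R) ≠ 0 := by
      intro h
      have h9 : p ∣ c := (Nat.minFac_dvd _).trans (ringChar.dvd h)
      have h10 := (h3.of_dvd (dvd_pow_self p k.succ_ne_zero)).symm.trans
        ((Nat.modEq_zero_iff_dvd).mpr h9)
      exact hp.not_dvd_one ((Nat.modEq_zero_iff_dvd).mp h10)
    have h9 := he c (by rwa [mul_sub, mul_one, sub_eq_zero, eq_comm] at h7) h8 (p ^ (k + 1)) (by
      rw [nsmul_eq_mul, h2, ← Nat.cast_mul, ← mul_assoc, ← h1, Nat.cast_mul,
        ringChar.Nat.cast_ringChar, zero_mul])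
    rwa [Nat.cast_pow] at h9
  refine rep_of_prime_pure R p k hp h5 fun e he1 he2 h => ?_
  have h6 := he e he1 he2 (p ^ k) (by rw [nsmul_eq_mul, Nat.cast_pow, h])
  exact hnd t' (h1 ▸ ringChar.dvd h6)

end Pool.Agent.Lib.MP_4a16d5_al
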