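import Pool.Agent.Lib.MP_4a16d5_al.Lift
import Pool.Agent.Lib.MP_4a16d5_al.Coeff

/-!
Construction of the module with slack, and the main theorem.
-/

namespace Pool.Agent.Lib.MP_4a16d5_al

open Finset Polynomial TensorProduct

theorem rep_of_algebra {R : Type} [Ring R] [Nontrivial R] (J : Ideal R) [J.IsTwoSided] (n : ℕ)
    (hnil : ∀ l : List R, l.length = n + 1 → (∀ x ∈ l, x ∈ J) → l.prod = 0)
    {O : Type} [CommRing O] (ϖ : O) (hϖ : ∀ a, ϖ * a = 0 → a = 0) (p : ℕ) (hp : 2 ≤ p)
    (hpϖ : ϖ ∣ (p : O))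
    {C : Type} [CommRing C] [Algebra O C] {ι : Type} [Fintype ι] (b : Module.Basis ι O C)
    (hf : ∀ c, algebraMap O C ϖ ∣ c ∨ ∃ c', algebraMap O C ϖ ∣ c * c' - 1)
    {D : Type} [Ring D] [Algebra O D] [Finite D] (i : R →+* D)
    (hD : ∀ d : D, d ∈ Submodule.span O (Set.range i)) (N : ℕ) (hN : ϖ ^ N • (1 : D) = 0)
    (hfaith : ∀ z, ϖ ^ (n + 2 + n) • i z = 0 → z = 0) (ψ : C →ₐ[O] D)
    (hψ : ∀ r, ∃ c, ∃ x ∈ J, i r = ψ c + i x) :
    ∃ (C : Type) (_ : CommRing C) (n : ℕ) (f : R →+* Matrix (Fin n) (Fin n) C),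
      Function.Injective f := by
  classical
  let A : Submodule D D := Submodule.span D
    {a | ∃ l : List R, l.length ≤ n ∧ (∀ x ∈ l, x ∈ J) ∧ a = ϖ ^ (n - l.length) • i l.prod}
  let B : Submodule D D :=
    { carrier := {a | ∀ (d : D) (l : List R), l.length ≤ n → (∀ x ∈ l, x ∈ J) →
        ϖ ^ (n - l.length) • (i l.prod * d * a) = 0}
      add_mem' := by
        intro a b ha hb d l h1 h2
        rw [mul_add, smul_add, ha d l h1 h2, hb d l h1 h2, add_zero]
      zero_mem' := by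
        intro d l _ _
        simp
      smul_mem' := by
        intro c a ha d l h1 h2
        have := ha (d * c) l h1 h2
        simpa only [smul_eq_mul, mul_assoc] using this }
  have hA : ∀ a ∈ A, ∀ x ∈ J, ∃ a' ∈ A, i x * a = ϖ • a' := by
    intro a ha
    induction ha using Submodule.span_induction with
    | mem a ha =>
      obtain ⟨l, h1, h2, rfl⟩ := ha
      intro x hx
      have h3 : ∀ y ∈ x :: l, y ∈ J := by
        intro y hy
        rcases List.mem_cons.mp hy with rfl | hy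
        · exact hx
        · exact h2 y hy
      rw [mul_smul_comm, ← map_mul, ← List.prod_cons]
      rcases h1.lt_or_eq with h1 | h1
      · refine ⟨_, Submodule.subset_span ⟨x :: l, h1, h3, rfl⟩, ?_⟩
        rw [smul_smul, ← pow_succ', List.length_cons]
        congr 2
        omega
      · exact ⟨0, A.zero_mem, by rw [hnil (x :: l) (by simp [h1]) h3]; simp⟩
    | zero => exact fun x _ => ⟨0, A.zero_mem, by simp⟩
    | add a a' _ _ h1 h2 =>
      intro x hx
      obtain ⟨u, hu, hu'⟩ := h1 x hx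
      obtain ⟨v, hv, hv'⟩ := h2 x hx
      exact ⟨u + v, A.add_mem hu hv, by rw [mul_add, hu', hv', smul_add]⟩
    | smul d a _ h =>
      intro x hx
      have hd := hD d
      induction hd using Submodule.span_induction with
      | mem d hd =>
        obtain ⟨r, rfl⟩ := hd
        obtain ⟨u, hu, hu'⟩ := h (x * r) (J.mul_mem_right r hx)
        exact ⟨u, hu, by rw [smul_eq_mul, ← mul_assoc, ← map_mul, hu']⟩
      | zero => exact ⟨0, A.zero_mem, by simp⟩
      | add d d' _ _ h1 h2 =>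
        obtain ⟨u, hu, hu'⟩ := h1
        obtain ⟨v, hv, hv'⟩ := h2
        exact ⟨u + v, A.add_mem hu hv, by rw [add_smul, mul_add, hu', hv', smul_add]⟩
      | smul o d _ h1 =>
        obtain ⟨u, hu, hu'⟩ := h1
        refine ⟨o • u, A.smul_of_tower_mem o hu, ?_⟩
        rw [smul_assoc, mul_smul_comm, hu', smul_comm]
  have hB : ∀ a, ϖ • a ∈ B → ∀ x ∈ J, i x * a ∈ B := by
    intro a ha x hx d l h1 h2
    have hd := hD d
    induction hd using Submodule.span_induction with
    | mem d hd =>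
      obtain ⟨r, rfl⟩ := hd
      have h3 : ∀ y ∈ l ++ [r * x], y ∈ J := by
        intro y hy
        rcases List.mem_append.mp hy with hy | hy
        · exact h2 y hy
        · rw [List.mem_singleton.mp hy]
          exact J.mul_mem_left r hx
      have h4 : i l.prod * i r * (i x * a) = i (l ++ [r * x]).prod * a := by
        simp [mul_assoc]
      rw [h4]
      rcases h1.lt_or_eq with h1 | h1
      · have h5 := ha 1 (l ++ [r * x]) (by simpa using h1) h3
        rw [mul_one, mul_smul_comm, smul_smul, ← pow_succ] at h5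
        rw [← h5]
        congr 2
        simp only [List.length_append, List.length_singleton]
        omega
      · rw [hnil _ (by simp [h1]) h3]
        simp
    | zero => simp
    | add d d' _ _ h3 h4 => rw [mul_add, add_mul, smul_add, h3, h4, add_zero]
    | smul o d _ h3 => rw [mul_smul_comm, smul_mul_assoc, smul_comm, h3, smul_zero]
  let B' : Submodule D A := B.comap A.subtype
  let W := A ⧸ B'
  have : Finite W := Finite.of_surjective _ B'.mkQ_surjective
  let _ : Module C W := Module.compHom W ψ.toRingHom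
  have hC : ∀ (c : C) (w : W), c • w = ψ c • w := fun _ _ => rfl
  have : IsScalarTower O C W := ⟨fun o c w => by rw [hC, hC, map_smul, smul_assoc]⟩
  let act : R →+* Module.End O W := (Algebra.lsmul O O W : D →ₐ[O] _).toRingHom.comp i
  have hact : ∀ r w, act r w = i r • w := fun _ _ => rfl
  have hmk : ∀ (o : O) (a : A), B'.mkQ (o • a) = o • B'.mkQ a := fun _ _ => rfl
  refine rep_of_module (J : Set R) ϖ hϖ p hp hpϖ b hf (W := W) N ?_ act ?_ ?_ ?_ ?_
  · intro w
    rw [← one_smul D w, ← smul_assoc, hN, zero_smul]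
  · intro r
    obtain ⟨c, x, hx, h⟩ := hψ r
    exact ⟨c, x, hx, fun w => by rw [hact, hact, hC, h, add_smul]⟩
  · intro x hx w
    obtain ⟨⟨a, ha⟩, rfl⟩ := B'.mkQ_surjective w
    obtain ⟨a', ha', h⟩ := hA a ha x hx
    refine ⟨B'.mkQ ⟨a', ha'⟩, ?_⟩
    rw [hact, ← map_smul, ← hmk]
    exact congrArg _ (Subtype.ext h)
  · intro x hx w hw
    obtain ⟨⟨a, ha⟩, rfl⟩ := B'.mkQ_surjective w
    rw [← hmk, Submodule.mkQ_apply, Submodule.Quotient.mk_eq_zero] at hw
    rw [hact, ← map_smul, Submodule.mkQ_apply, Submodule.Quotient.mk_eq_zero]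
    exact hB a hw x hx
  · intro z hz
    have h1 : ϖ ^ n • (1 : D) ∈ A := Submodule.subset_span ⟨[], by simp, by simp, by simp⟩
    have h2 := hz (B'.mkQ ⟨_, h1⟩)
    rw [hact, ← map_smul, ← hmk, Submodule.mkQ_apply, Submodule.Quotient.mk_eq_zero] at h2
    have h3 := h2 1 [] (by simp) (by simp)
    apply hfaith
    simpa [smul_smul, pow_add, mul_assoc] using h3

theorem main (R : Type) [Ring R] [Finite R] [IsLocalRing R] :
    ∃ (C : Type) (_ : CommRing C) (n : ℕ) (f : R →+* Matrix (Fin n) (Fin n) C),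
      Function.Injective f := by
  classical
  obtain ⟨n, hnil⟩ := exists_nil R
  obtain ⟨p, S, _, ι, _, bS, φ, hp, hpJ, hφ, hS⟩ := coeff_ring R
  let g : ℤ[X] := X ^ (n + 2 + n + 1) - C (p : ℤ)
  have hg : g.Monic := monic_X_pow_sub_C _ (by omega)
  have hdeg : g.natDegree = n + 2 + n + 1 := natDegree_X_pow_sub_C
  let O := AdjoinRoot g
  let ϖ : O := AdjoinRoot.root g
  let pb := AdjoinRoot.powerBasis' hg
  have hϖp : ϖ ^ (n + 2 + n + 1) = (p : O) := by
    have := AdjoinRoot.eval₂_root g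
    simpa [g, sub_eq_zero] using this
  have hϖ : ∀ a, ϖ * a = 0 → a = 0 := by
    intro a ha
    have h1 : (p : ℤ) • a = 0 := by
      rw [zsmul_eq_mul, Int.cast_natCast, ← hϖp, pow_succ, mul_assoc, ha, mul_zero]
    have : Module.Free ℤ O := Module.Free.of_basis pb.basis
    exact (smul_eq_zero.mp h1).resolve_left (by omega)
  have hO : ∀ o : O, ∃ (k : ℤ) (o' : O), o = k + ϖ * o' := by
    intro o
    obtain ⟨h, rfl⟩ := AdjoinRoot.mk_surjective o
    refine ⟨h.coeff 0, AdjoinRoot.mk g h.divX, ?_⟩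
    conv_lhs => rw [← h.X_mul_divX_add]
    simp [ϖ, add_comm]
  have hpd : ϖ ∣ (p : O) := hϖp ▸ dvd_pow_self ϖ (by omega)
  let E := TensorProduct.equivFinsuppOfBasisLeft (N := R) pb.basis
  have : Finite (O ⊗[ℤ] R) :=
    Finite.of_equiv _ (E.toEquiv.trans Finsupp.equivFunOnFinite).symm
  have hC : ∀ c : O ⊗[ℤ] S, ∃ s c', c = 1 ⊗ₜ s + algebraMap O _ ϖ * c' := by
    intro c
    induction c using TensorProduct.induction_on with
    | zero => exact ⟨0, 0, by simp⟩
    | tmul o s =>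
      obtain ⟨k, o', rfl⟩ := hO o
      refine ⟨k • s, o' ⊗ₜ s, ?_⟩
      rw [add_tmul, ← smul_tmul, zsmul_one]
      simp
    | add c c' h1 h2 =>
      obtain ⟨s, d, rfl⟩ := h1
      obtain ⟨s', d', rfl⟩ := h2
      exact ⟨s + s', d + d', by rw [tmul_add]; ring⟩
  have hpS : ∀ s : S, (p : S) ∣ s → algebraMap O (O ⊗[ℤ] S) ϖ ∣ 1 ⊗ₜ s := by
    intro s hs
    have h1 := map_dvd (algebraMap O (O ⊗[ℤ] S)) hpd
    have h2 := map_dvd (Algebra.TensorProduct.includeRight : S →ₐ[ℤ] O ⊗[ℤ] S) hs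
    rw [map_natCast] at h1 h2
    exact h1.trans h2
  refine rep_of_algebra (nu R) n hnil ϖ hϖ p hp hpd (Algebra.TensorProduct.basis O bS) ?_
    (D := O ⊗[ℤ] R) (Algebra.TensorProduct.includeRight : R →ₐ[ℤ] O ⊗[ℤ] R).toRingHom ?_
    ((n + 2 + n + 1) * (n + 1)) ?_ ?_
    (Algebra.TensorProduct.map (AlgHom.id O O) φ.toIntAlgHom) ?_
  · intro c
    obtain ⟨s, d, rfl⟩ := hC c
    rcases hS s with h | ⟨s', h⟩
    · exact Or.inl (dvd_add (hpS s h) (dvd_mul_right _ _))
    · refine Or.inr ⟨1 ⊗ₜ s', ?_⟩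
      have h1 := hpS _ h
      have h2 : (1 ⊗ₜ s + algebraMap O (O ⊗[ℤ] S) ϖ * d) * 1 ⊗ₜ s' - 1
          = 1 ⊗ₜ (s * s' - 1) + algebraMap O (O ⊗[ℤ] S) ϖ * (d * 1 ⊗ₜ s') := by
        rw [tmul_sub, add_mul, Algebra.TensorProduct.tmul_mul_tmul, one_mul,
          ← Algebra.TensorProduct.one_def]
        ring
      rw [h2]
      exact dvd_add h1 (dvd_mul_right _ _)
  · intro d
    induction d using TensorProduct.induction_on with
    | zero => exact Submodule.zero_mem _
    | tmul o r =>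
      have : o ⊗ₜ[ℤ] r = o • (1 : O) ⊗ₜ[ℤ] r := by simp [smul_tmul']
      rw [this]
      exact Submodule.smul_mem _ _ (Submodule.subset_span ⟨r, rfl⟩)
    | add d d' h1 h2 => exact Submodule.add_mem _ h1 h2
  · have h1 : (p : R) ^ (n + 1) = 0 := by
      have := hnil (List.replicate (n + 1) (p : R)) (by simp) (by
        intro x hx
        rw [List.eq_of_mem_replicate hx]
        exact hpJ)
      simpa using this
    have h2 := congrArg (Algebra.TensorProduct.includeRight : R →ₐ[ℤ] O ⊗[ℤ] R) h1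
    rw [map_pow, map_natCast, map_zero] at h2
    rw [pow_mul, hϖp, Algebra.smul_def, map_pow, map_natCast, h2, zero_mul]
  · intro z hz
    have h1 : (ϖ ^ (n + 2 + n)) ⊗ₜ[ℤ] z = 0 := by
      rw [← hz]
      simp [smul_tmul']
    let k : Fin pb.dim := ⟨n + 2 + n, by
      change _ < g.natDegree
      omega⟩
    have h2 : ϖ ^ (n + 2 + n) = pb.basis k := by
      rw [pb.basis_eq_pow]
      rfl
    have h3 := congrArg (fun t => E t k) h1
    simp only [h2, E, equivFinsuppOfBasisLeft_apply_tmul_apply, Module.Basis.repr_self,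
      Finsupp.single_eq_same, one_smul, map_zero, Finsupp.zero_apply] at h3
    exact h3
  · intro r
    obtain ⟨s, hs⟩ := hφ r
    refine ⟨1 ⊗ₜ s, _, hs, ?_⟩
    simp [tmul_sub]

end Pool.Agent.Lib.MP_4a16d5_al
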