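import Pool.Agent.Lib.MP_4a16d5_al.Count

/-!
Representation of tiled orders modulo the tiled ideal over a commutative ring.
-/

namespace Pool.Agent.Lib.MP_4a16d5_al

open Finset

section

variable {q d m : ℕ} (T : Tower q d m) (O : Type) [CommRing O]

/-- The ambient commutative ring of functions on configurations. -/
abbrev Amb := T.X → AddMonoidAlgebra O (ℕ → ℤ)

/-- The type of a vertex as an element of `Fin (m + 1)`. -/
def tau (x : T.X) (v : T.V) : Fin (m + 1) := ⟨T.ty x v, Nat.lt_succ_of_le (T.ty_le x v)⟩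

lemma sum_fiber {M : Type} [AddCommMonoid M] (x : T.X) (c : T.C) [DecidableEq T.C]
    (f : Fin (m + 1) → M) :
    (∑ w, if T.cp x w = c then f (tau T x w) else 0) = ∑ j, f j := by
  rw [← Finset.sum_filter]
  refine Finset.sum_bij (fun w _ => tau T x w) (fun _ _ => Finset.mem_univ _) ?_ ?_ fun _ _ => rfl
  · intro a ha b hb h
    rw [Finset.mem_filter] at ha hb
    exact T.inj x a b (congrArg Fin.val h) (ha.2.trans hb.2.symm)
  · intro j _
    obtain ⟨v, h1, h2⟩ := T.surj x j (Nat.lt_succ_iff.mp j.2) c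
    exact ⟨v, by simp [h2], Fin.ext h1⟩

variable (ι : Type) [Fintype ι] [DecidableEq ι]

open Classical in
/-- The entries of the ambient representation. -/
noncomputable def rhoFun (t : Matrix (Fin (m + 1) × ι) (Fin (m + 1) × ι) O) :
    Matrix (T.V × ι) (T.V × ι) (Amb T O) := fun v w x =>
  if T.cp x v.1 = T.cp x w.1 then
    AddMonoidAlgebra.single (wt (T.ty x v.1) - wt (T.ty x w.1))
      (t (tau T x v.1, v.2) (tau T x w.1, w.2))
  else 0

omit [Fintype ι] [DecidableEq ι] in
lemma rhoFun_add (t t' : Matrix (Fin (m + 1) × ι) (Fin (m + 1) × ι) O) :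
    rhoFun T O ι (t + t') = rhoFun T O ι t + rhoFun T O ι t' := by
  ext v w x : 3
  simp only [rhoFun, Matrix.add_apply, Pi.add_apply]
  split_ifs
  · rw [AddMonoidAlgebra.single_add]
  · simp

omit [Fintype ι] [DecidableEq ι] in
lemma rhoFun_zero : rhoFun T O ι 0 = 0 := by
  ext v w x : 3
  simp [rhoFun]

/-- Block scalar matrices. -/
def blk {O ι : Type} [CommRing O] (m : ℕ) (a : Matrix ι ι O) :
    Matrix (Fin (m + 1) × ι) (Fin (m + 1) × ι) O :=
  Matrix.of fun i j => if i.1 = j.1 then a i.2 j.2 else 0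

omit [Fintype ι] [DecidableEq ι] in
open Classical in
lemma rhoFun_scalar (a : Matrix ι ι O) (v w : T.V × ι) :
    rhoFun T O ι (blk m a) v w
      = if v.1 = w.1 then algebraMap O _ (a v.2 w.2) else 0 := by
  funext x
  by_cases h : v.1 = w.1
  · simp [rhoFun, h, blk]
  · rw [if_neg h]
    simp only [rhoFun, blk, Matrix.of_apply]
    split_ifs with h1 h2
    · exact absurd (T.inj x _ _ (congrArg Fin.val h2) h1) h
    · simp
    · simp

omit [DecidableEq ι] in
lemma rhoFun_mul (t t' : Matrix (Fin (m + 1) × ι) (Fin (m + 1) × ι) O) :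
    rhoFun T O ι (t * t') = rhoFun T O ι t * rhoFun T O ι t' := by
  classical
  refine Matrix.ext fun v w => funext fun x => ?_
  simp only [Matrix.mul_apply, Finset.sum_apply, Pi.mul_apply, Fintype.sum_prod_type]
  have key : ∀ u : T.V, (∑ s, rhoFun T O ι t v (u, s) x * rhoFun T O ι t' (u, s) w x)
      = if T.cp x u = T.cp x v.1 then
          (if T.cp x v.1 = T.cp x w.1 then
            AddMonoidAlgebra.single (wt (T.ty x v.1) - wt (T.ty x w.1))
              (∑ s, t (tau T x v.1, v.2) (tau T x u, s) * t' (tau T x u, s) (tau T x w.1, w.2))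
          else 0)
        else 0 := by
    intro u
    simp only [rhoFun]
    by_cases h1 : T.cp x u = T.cp x v.1
    · by_cases h2 : T.cp x v.1 = T.cp x w.1
      · simp only [h1, h2, if_true, AddMonoidAlgebra.single_mul_single, sub_add_sub_cancel]
        exact (map_sum (AddMonoidAlgebra.singleAddHom _) _ _).symm
      · simp [h1, h2]
    · simp [h1, Ne.symm h1]
  simp only [key]
  rw [sum_fiber T x (T.cp x v.1) (fun j => if T.cp x v.1 = T.cp x w.1 then
    AddMonoidAlgebra.single (wt (T.ty x v.1) - wt (T.ty x w.1))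
      (∑ s, t (tau T x v.1, v.2) (j, s) * t' (j, s) (tau T x w.1, w.2)) else 0)]
  simp only [rhoFun, Matrix.mul_apply, Fintype.sum_prod_type]
  split_ifs
  · exact map_sum (AddMonoidAlgebra.singleAddHom (R := O) (wt (T.ty x v.1) - wt (T.ty x w.1))) _ _
  · simp

open Classical in
/-- The ambient representation. -/
noncomputable def rho : Matrix (Fin (m + 1) × ι) (Fin (m + 1) × ι) O →+*
    Matrix (T.V × ι) (T.V × ι) (Amb T O) where
  toFun := rhoFun T O ι
  map_one' := by
    have h : (1 : Matrix (Fin (m + 1) × ι) (Fin (m + 1) × ι) O)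
        = blk m (1 : Matrix ι ι O) := by
      ext i j
      simp only [blk, Matrix.of_apply, Matrix.one_apply, Prod.ext_iff]
      split_ifs <;> simp_all
    refine Matrix.ext fun v w => ?_
    rw [h, rhoFun_scalar]
    simp only [Matrix.one_apply, Prod.ext_iff]
    by_cases h1 : v.1 = w.1 <;> by_cases h2 : v.2 = w.2 <;> simp [h1, h2]
  map_mul' := rhoFun_mul T O ι
  map_zero' := rhoFun_zero T O ι
  map_add' := rhoFun_add T O ι

open Classical in
/-- The weighted indicator of an edge. -/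
noncomputable def chi (e : Edge T) : Amb T O := fun x =>
  if Holds T x e then AddMonoidAlgebra.single (wt e.2.2.1 - wt e.2.2.2) 1 else 0

omit [Fintype ι] [DecidableEq ι] in
lemma rhoFun_eq_sum (t : Matrix (Fin (m + 1) × ι) (Fin (m + 1) × ι) O) (v w : T.V × ι) :
    rhoFun T O ι t v w = ∑ i : Fin (m + 1), ∑ j : Fin (m + 1),
      t (i, v.2) (j, w.2) • chi T O (v.1, w.1, i, j) := by
  funext x
  simp only [Finset.sum_apply, Pi.smul_apply]
  rw [Finset.sum_eq_single (tau T x v.1), Finset.sum_eq_single (tau T x w.1)]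
  · by_cases h : T.cp x v.1 = T.cp x w.1
    · have h' : Holds T x (v.1, w.1, (tau T x v.1 : ℕ), (tau T x w.1 : ℕ)) := ⟨rfl, rfl, h⟩
      simp only [rhoFun, chi, if_pos h, if_pos h']
      simp [tau]
    · have h' : ¬ Holds T x (v.1, w.1, (tau T x v.1 : ℕ), (tau T x w.1 : ℕ)) := fun h' => h h'.2.2
      simp only [rhoFun, chi, if_neg h, if_neg h']
      simp
  · intro j _ hj
    have : ¬ Holds T x (v.1, w.1, (tau T x v.1 : ℕ), (j : ℕ)) := fun h => hj (Fin.ext h.2.1.symm)
    simp [chi, this]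
  · simp
  · intro i _ hi
    refine Finset.sum_eq_zero fun j _ => ?_
    have : ¬ Holds T x (v.1, w.1, (i : ℕ), (j : ℕ)) := fun h => hi (Fin.ext h.1.symm)
    simp [chi, this]
  · simp

open Classical in
lemma chi_prod (L : List (Edge T)) (x : T.X) :
    (L.map (chi T O)).prod x = if ∀ e ∈ L, Holds T x e then
      AddMonoidAlgebra.single (L.map fun e => wt e.2.2.1 - wt e.2.2.2).sum 1 else 0 := by
  induction L with
  | nil => simp [AddMonoidAlgebra.one_def]
  | cons e L ih =>
    simp only [List.map_cons, List.prod_cons, Pi.mul_apply, ih, List.sum_cons, List.forall_mem_cons,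
      chi]
    by_cases h1 : Holds T x e
    · by_cases h2 : ∀ e ∈ L, Holds T x e
      · rw [if_pos h1, if_pos h2, if_pos ⟨h1, h2⟩, AddMonoidAlgebra.single_mul_single, one_mul]
      · rw [if_neg h2, mul_zero, if_neg fun h => h2 h.2]
    · rw [if_neg h1, zero_mul, if_neg fun h => h1 h.1]

/-- The averaging functional. -/
noncomputable def lam : Amb T O →ₗ[O] O where
  toFun f := ∑ x, (f x).coeff 0
  map_add' f g := by simp [Finset.sum_add_distrib]
  map_smul' a f := by simp [Finset.mul_sum]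

lemma lam_apply (f : Amb T O) : lam T O f = ∑ x, (f x).coeff 0 := rfl

lemma lam_algebraMap (a : O) : lam T O (algebraMap O _ a) = Fintype.card T.X * a := by
  simp [lam_apply]

variable {O} (ϖ : O) (β : ℕ → ℕ)

/-- The generators of the coefficient algebra. -/
noncomputable def gen (e : Edge T) : Amb T O := ϖ ^ (1 + (β e.2.2.1 - β e.2.2.2)) • chi T O e

lemma gen_prod (L : List (Edge T)) : (L.map (gen T ϖ β)).prod
    = ϖ ^ (L.map fun e => 1 + (β e.2.2.1 - β e.2.2.2)).sum • (L.map (chi T O)).prod := by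
  induction L with
  | nil => simp
  | cons e L ih =>
    simp only [List.map_cons, List.prod_cons, ih, List.sum_cons, gen]
    rw [smul_mul_smul_comm, ← pow_add]

lemma lam_main (hβ : Monotone β) (hd : 2 * β m ≤ d) (hq : ϖ ^ β m ∣ (q : O)) (e₀ : Edge T)
    (L : List (Edge T)) :
    ϖ ^ β m ∣ lam T O ((ϖ ^ β e₀.2.2.1 • chi T O e₀) * (L.map (gen T ϖ β)).prod) := by
  classical
  rw [gen_prod, smul_mul_smul_comm, ← pow_add, map_smul, smul_eq_mul]
  have h1 : chi T O e₀ * (L.map (chi T O)).prod = ((e₀ :: L).map (chi T O)).prod := by simp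
  rw [h1]
  by_cases hw : ((e₀ :: L).map fun e => wt e.2.2.1 - wt e.2.2.2).sum = 0
  · rcases count_dichotomy T β hβ hd e₀ L hw with h | h
    · exact (pow_dvd_pow _ h).mul_right _
    · refine Dvd.dvd.mul_left (hq.trans ?_) _
      have h2 : lam T O ((e₀ :: L).map (chi T O)).prod
          = ((∑ x, if ∀ e ∈ e₀ :: L, Holds T x e then 1 else 0 : ℤ) : O) := by
        rw [lam_apply, Int.cast_sum]
        refine Finset.sum_congr rfl fun x _ => ?_
        rw [chi_prod, hw]
        split_ifs <;> simp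
      rw [h2, ← Int.cast_natCast]
      exact map_dvd (Int.castRingHom O) h
  · have h2 : lam T O ((e₀ :: L).map (chi T O)).prod = 0 := by
      rw [lam_apply]
      refine Finset.sum_eq_zero fun x _ => ?_
      rw [chi_prod]
      split_ifs
      · rw [AddMonoidAlgebra.coeff_single, Finsupp.single_eq_of_ne (Ne.symm hw)]
      · simp
    rw [h2, mul_zero]
    exact dvd_zero _

/-- The coefficient algebra before the quotient. -/
noncomputable def Kp : Subalgebra O (Amb T O) := Algebra.adjoin O (Set.range (gen T ϖ β))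

lemma lam_main' (hβ : Monotone β) (hd : 2 * β m ≤ d) (hq : ϖ ^ β m ∣ (q : O)) (e₀ : Edge T)
    (g : Amb T O) (hg : g ∈ Kp T ϖ β) :
    ϖ ^ β m ∣ lam T O ((ϖ ^ β e₀.2.2.1 • chi T O e₀) * g) := by
  have h1 : g ∈ Submodule.span O (Submonoid.closure (Set.range (gen T ϖ β)) : Set (Amb T O)) := by
    rw [← Algebra.adjoin_eq_span]
    exact hg
  clear hg
  induction h1 using Submodule.span_induction with
  | mem g hg =>
    obtain ⟨l, hl, rfl⟩ := Submonoid.exists_list_of_mem_closure hg
    have : ∃ L : List (Edge T), l = L.map (gen T ϖ β) := by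
      clear hg
      induction l with
      | nil => exact ⟨[], rfl⟩
      | cons a l ih =>
        obtain ⟨L, rfl⟩ := ih fun y hy => hl y (by simp [hy])
        obtain ⟨e, rfl⟩ := hl a (by simp)
        exact ⟨e :: L, rfl⟩
    obtain ⟨L, rfl⟩ := this
    exact lam_main T ϖ β hβ hd hq e₀ L
  | zero => simp
  | add x y _ _ hx hy =>
    rw [mul_add, map_add]
    exact dvd_add hx hy
  | smul a x _ hx =>
    rw [mul_smul_comm, map_smul]
    exact hx.mul_left _

/-- The ideal of elements invisible to the functional. -/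
noncomputable def Iv : Ideal (Kp T ϖ β) where
  carrier := {f | ∀ g ∈ Kp T ϖ β, ϖ ^ β m ∣ lam T O (f.1 * g)}
  add_mem' := by
    intro a b ha hb g hg
    simp only [Subalgebra.coe_add, add_mul, map_add]
    exact dvd_add (ha g hg) (hb g hg)
  zero_mem' := by
    intro g _
    simp
  smul_mem' := by
    intro c a ha g hg
    have := ha (c.1 * g) (Subalgebra.mul_mem _ c.2 hg)
    simpa [mul_assoc, mul_left_comm] using this

end

/-- `t` is a block scalar plus an element of the radical of the tiled order. -/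
def IsTiled {O : Type} [CommRing O] (ϖ : O) {m : ℕ} (β : ℕ → ℕ) {ι : Type}
    (t : Matrix (Fin (m + 1) × ι) (Fin (m + 1) × ι) O) : Prop :=
  ∃ a : Matrix ι ι O, ∀ i j : Fin (m + 1) × ι,
    ϖ ^ (1 + (β i.1 - β j.1)) ∣ (t - blk m a) i j

theorem tiled_rep {O : Type} [CommRing O] (ϖ : O) (hϖ : ∀ a, ϖ * a = 0 → a = 0) (p : ℕ)
    (hp : 2 ≤ p) (hpϖ : ϖ ∣ (p : O)) (m : ℕ) (β : ℕ → ℕ) (hβ : Monotone β)
    (ι : Type) [Fintype ι] [DecidableEq ι] :
    ∃ (K : Type) (_ : CommRing K) (n : Type) (_ : Fintype n) (_ : DecidableEq n)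
      (S : Subring (Matrix (Fin (m + 1) × ι) (Fin (m + 1) × ι) O)) (Φ : S →+* Matrix n n K),
      (∀ t, IsTiled ϖ β t → t ∈ S) ∧
      (∀ t : S, (∀ i j, ϖ ^ β i.1 ∣ t.1 i j) → Φ t = 0) ∧
      (∀ t : S, Φ t = 0 → ∀ i j, ϖ ^ β i.1 ∣ ϖ ^ 2 * t.1 i j) := by
  classical
  set d := 2 * β m with hd
  set k := β m + m * 4 ^ d with hk
  have hq1 : m * 4 ^ d < p ^ k :=
    lt_of_le_of_lt (by omega) (Nat.lt_pow_self (n := k) (by omega : 1 < p))
  have hq : ϖ ^ β m ∣ ((p ^ k : ℕ) : O) := by
    push_cast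
    exact (pow_dvd_pow_of_dvd hpϖ _).trans (pow_dvd_pow _ (by omega))
  obtain ⟨T⟩ := Tower.nonempty (p ^ k) d m hq1
  let inc : Matrix (T.V × ι) (T.V × ι) (Kp T ϖ β) →+* Matrix (T.V × ι) (T.V × ι) (Amb T O) :=
    (Kp T ϖ β).val.toRingHom.mapMatrix
  have hinc : Function.Injective inc := by
    intro a b h
    exact Matrix.ext fun v w => Subtype.ext (congrFun (congrFun h v) w)
  let S := inc.range.comap (rho T O ι)
  have hS : ∀ t, t ∈ S ↔ ∀ v w, rhoFun T O ι t v w ∈ Kp T ϖ β := by
    intro t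
    constructor
    · rintro ⟨a, ha⟩ v w
      have : rhoFun T O ι t v w = (a v w).1 := (congrFun (congrFun ha v) w).symm
      rw [this]
      exact (a v w).2
    · intro h
      exact ⟨fun v w => ⟨_, h v w⟩, rfl⟩
  let E := RingEquiv.ofBijective inc.rangeRestrict
    ⟨fun a b h => hinc (congrArg Subtype.val h), inc.rangeRestrict_surjective⟩
  let Ψ : S →+* Matrix (T.V × ι) (T.V × ι) (Kp T ϖ β) :=
    E.symm.toRingHom.comp (((rho T O ι).comp S.subtype).codRestrict inc.range fun t => t.2)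
  have hΨ : ∀ (t : S) v w, (Ψ t v w).1 = rhoFun T O ι t.1 v w := by
    intro t v w
    have h1 : E (Ψ t) = ⟨rho T O ι t.1, t.2⟩ := E.apply_symm_apply _
    exact congrFun (congrFun (congrArg Subtype.val h1) v) w
  have hrad : ∀ t : Matrix (Fin (m + 1) × ι) (Fin (m + 1) × ι) O,
      (∀ i j, ϖ ^ (1 + (β i.1 - β j.1)) ∣ t i j) → ∀ v w, rhoFun T O ι t v w ∈ Kp T ϖ β := by
    intro t ht v w
    rw [rhoFun_eq_sum]
    refine Subalgebra.sum_mem _ fun i _ => Subalgebra.sum_mem _ fun j _ => ?_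
    obtain ⟨c, hc⟩ := ht (i, v.2) (j, w.2)
    rw [hc, mul_comm, mul_smul]
    exact Subalgebra.smul_mem _
      (Algebra.subset_adjoin (Set.mem_range_self (f := gen T ϖ β) (v.1, w.1, i, j))) _
  refine ⟨(Kp T ϖ β) ⧸ Iv T ϖ β, inferInstance, T.V × ι, inferInstance, inferInstance, S,
    (Ideal.Quotient.mk (Iv T ϖ β)).mapMatrix.comp Ψ, ?_, ?_, ?_⟩
  · rintro t ⟨a, ha⟩
    rw [hS]
    intro v w
    have h1 : t = (t - blk m a) + blk m a := by simp
    rw [h1, rhoFun_add, Matrix.add_apply, rhoFun_scalar]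
    refine Subalgebra.add_mem _ (hrad _ ha v w) ?_
    split_ifs
    · exact Subalgebra.algebraMap_mem _ _
    · exact Subalgebra.zero_mem _
  · intro t ht
    ext v w
    simp only [RingHom.comp_apply, RingHom.mapMatrix_apply, Matrix.map_apply, Matrix.zero_apply,
      Ideal.Quotient.eq_zero_iff_mem]
    intro g hg
    rw [hΨ, rhoFun_eq_sum, Finset.sum_mul, map_sum]
    refine Finset.dvd_sum fun i _ => ?_
    rw [Finset.sum_mul, map_sum]
    refine Finset.dvd_sum fun j _ => ?_
    obtain ⟨c, hc⟩ := ht (i, v.2) (j, w.2)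
    rw [hc, mul_comm _ c, mul_smul, smul_mul_assoc, map_smul]
    exact (lam_main' T ϖ β hβ hd.ge hq (v.1, w.1, i, j) g hg).mul_left _
  · rintro t ht ⟨i, s⟩ ⟨j, u⟩
    have hi : β i ≤ β m := hβ (Nat.lt_succ_iff.mp i.2)
    have hj : β j ≤ β m := hβ (Nat.lt_succ_iff.mp j.2)
    let a : Matrix (Fin (m + 1) × ι) (Fin (m + 1) × ι) O :=
      Matrix.single (Fin.last m, s) (i, s) (ϖ ^ (1 + (β m - β i)))
    let b : Matrix (Fin (m + 1) × ι) (Fin (m + 1) × ι) O :=
      Matrix.single (j, u) (Fin.last m, s) ϖ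
    have ha : a ∈ S := (hS a).mpr (hrad a fun i' j' => by
      simp only [a, Matrix.single_apply]
      split_ifs with h
      · obtain ⟨rfl, rfl⟩ := h
        simp
      · exact dvd_zero _)
    have hb : b ∈ S := (hS b).mpr (hrad b fun i' j' => by
      simp only [b, Matrix.single_apply]
      split_ifs with h
      · obtain ⟨rfl, rfl⟩ := h
        simp [Nat.sub_eq_zero_of_le hj]
      · exact dvd_zero _)
    have h1 : ((Ideal.Quotient.mk (Iv T ϖ β)).mapMatrix.comp Ψ) (⟨a, ha⟩ * t * ⟨b, hb⟩) = 0 := by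
      rw [map_mul, map_mul, ht, mul_zero, zero_mul]
    have h2 := congrFun (congrFun h1 (T.top, s)) (T.top, s)
    simp only [RingHom.comp_apply, RingHom.mapMatrix_apply, Matrix.map_apply, Matrix.zero_apply,
      Ideal.Quotient.eq_zero_iff_mem] at h2
    have h3 := h2 1 (Subalgebra.one_mem _)
    rw [mul_one, hΨ] at h3
    have htau : ∀ x, tau T x T.top = Fin.last m := fun x => Fin.ext (T.top_ty x)
    have h4 : rhoFun T O ι (⟨a, ha⟩ * t * ⟨b, hb⟩ : S).1 (T.top, s) (T.top, s)
        = algebraMap O _ (ϖ ^ (1 + (β m - β i)) * t.1 (i, s) (j, u) * ϖ) := by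
      funext x
      simp [rhoFun, htau, a, b]
    rw [h4, lam_algebraMap] at h3
    have h5 : ϖ ^ β m ∣ (Fintype.card T.X : O) - 1 := by
      refine hq.trans ?_
      have := (Int.castRingHom O).map_dvd T.cardX.symm.dvd
      simpa using this
    have h6 : ϖ ^ β m ∣ ϖ ^ (1 + (β m - β i)) * t.1 (i, s) (j, u) * ϖ := by
      have := dvd_sub h3 (h5.mul_right (ϖ ^ (1 + (β m - β i)) * t.1 (i, s) (j, u) * ϖ))
      simpa [sub_mul] using this
    obtain ⟨c, hc⟩ := h6
    refine ⟨c, ?_⟩
    have hreg : ∀ (n : ℕ) a, ϖ ^ n * a = 0 → a = 0 := by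
      intro n
      induction n with
      | zero => simp
      | succ n ih =>
        intro a h
        rw [pow_succ, mul_assoc] at h
        exact hϖ _ (ih _ h)
    rw [← sub_eq_zero]
    apply hreg (β m - β i)
    have h7 : ϖ ^ β m = ϖ ^ (β m - β i) * ϖ ^ β i := by
      rw [← pow_add]
      congr 1
      omega
    rw [h7] at hc
    simp only
    linear_combination hc

end Pool.Agent.Lib.MP_4a16d5_al
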