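import Pool.Agent.Lib.MP_4a16d5_al.Design

/-!
Towers: a family of bijections `V ≃ {0,…,m} × C` (type and copy of a vertex) in which, for every
gap `g`, small events that do not relate types `≤ g` to types `> g` and see a vertex of type `≤ g`
have a count divisible by `q`.
-/

namespace Pool.Agent.Lib.MP_4a16d5_al

open Finset

lemma PHP.exists_equiv {q d : ℕ} (Z : PHP q d) (x : Z.X) :
    ∃ e : Z.P ≃ Z.N ⊕ Fin (q ^ d), ∀ a b, e a = Sum.inl b ↔ Z.m x b = a := by
  classical
  have hcard : Fintype.card {a : Z.P // ¬ a ∈ Set.range (Z.m x)} = q ^ d := by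
    rw [Fintype.card_subtype_compl, Set.card_range_of_injective (Z.inj x), Z.cardP]
    omega
  let g : {a : Z.P // ¬ a ∈ Set.range (Z.m x)} ≃ Fin (q ^ d) := Fintype.equivFinOfCardEq hcard
  let e' : Z.N ⊕ Fin (q ^ d) ≃ Z.P :=
    (Equiv.sumCongr (Equiv.ofInjective _ (Z.inj x)) g.symm).trans
      (Equiv.sumCompl (fun a => a ∈ Set.range (Z.m x)))
  refine ⟨e'.symm, fun a b => ?_⟩
  rw [Equiv.symm_apply_eq]
  simp [e', eq_comm]

/-- A tower with types `0, …, m`. -/
structure Tower (q d m : ℕ) where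
  X : Type
  V : Type
  C : Type
  fX : Fintype X
  fV : Fintype V
  fC : Fintype C
  neC : Nonempty C
  ty : X → V → ℕ
  cp : X → V → C
  ty_le : ∀ x v, ty x v ≤ m
  inj : ∀ x v w, ty x v = ty x w → cp x v = cp x w → v = w
  surj : ∀ x, ∀ i ≤ m, ∀ c, ∃ v, ty x v = i ∧ cp x v = c
  cardX : Fintype.card X ≡ 1 [MOD q]
  cardV : Fintype.card V = (m + 1) * Fintype.card C
  top : V
  top_ty : ∀ x, ty x top = m
  prop : ∀ g < m, ∀ A : Finset V, A.card ≤ d → ∀ v₀ ∈ A, ∀ F : X → ℤ,
    (∀ x y, (∀ v ∈ A, ty x v = ty y v) → (∀ v ∈ A, g < ty x v → cp x v = cp y v) →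
      (∀ v ∈ A, ∀ w ∈ A, ty x v ≤ g → ty x w ≤ g → (cp x v = cp x w ↔ cp y v = cp y w)) →
      F x = F y) →
    (∀ x, g < ty x v₀ → F x = 0) → (q : ℤ) ∣ ∑ x, F x

attribute [instance] Tower.fX Tower.fV Tower.fC Tower.neC

/-- The tower with one type. -/
def Tower.zero (q d : ℕ) : Tower q d 0 where
  X := Unit
  V := Unit
  C := Unit
  fX := inferInstance
  fV := inferInstance
  fC := inferInstance
  neC := inferInstance
  ty := fun _ _ => 0
  cp := fun _ _ => ()
  ty_le := fun _ _ => le_rfl
  inj := fun _ _ _ _ _ => rfl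
  surj := fun _ i hi _ => ⟨(), by omega, rfl⟩
  cardX := by simp [Nat.ModEq]
  cardV := by simp
  top := ()
  top_ty := fun _ => rfl
  prop := fun g hg => absurd hg (Nat.not_lt_zero g)

section step

variable {q d m k : ℕ} (T : Tower q d m) (Z : PHP q d)
  (e : Z.X → (Z.P ≃ Z.N ⊕ Fin (q ^ d)))
  (ι : (T.V × Z.N) ⊕ Fin (k + 1) ≃ T.C × Fin (q ^ d))

/-- Position of a new vertex: either a top label or an old vertex with an unmatched label. -/
def stepPos (ξ : Z.X) : (T.V × Z.P) ⊕ Fin (k + 1) →
    (T.C × Fin (q ^ d)) ⊕ (T.V × Fin (q ^ d))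
  | Sum.inl (v, a) => (e ξ a).elim (fun b => Sum.inl (ι (Sum.inl (v, b))))
      (fun u => Sum.inr (v, u))
  | Sum.inr o => Sum.inl (ι (Sum.inr o))

lemma stepPos_inj (ξ : Z.X) : Function.Injective (stepPos T Z e ι ξ) := by
  rintro (⟨v, a⟩ | o) (⟨v', a'⟩ | o') h
  · simp only [stepPos] at h
    rcases h1 : e ξ a with b | u <;> rcases h2 : e ξ a' with b' | u' <;>
      simp only [h1, h2, Sum.elim_inl, Sum.elim_inr, Sum.inl.injEq, Sum.inr.injEq,
        EmbeddingLike.apply_eq_iff_eq, Prod.mk.injEq, reduceCtorEq] at h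
    · obtain ⟨rfl, rfl⟩ := h
      rw [(e ξ).injective (h1.trans h2.symm)]
    · obtain ⟨rfl, rfl⟩ := h
      rw [(e ξ).injective (h1.trans h2.symm)]
  · simp only [stepPos] at h
    rcases h1 : e ξ a with b | u <;> simp [h1] at h
  · simp only [stepPos] at h
    rcases h1 : e ξ a' with b | u <;> simp [h1] at h
  · simpa [stepPos] using h

lemma stepPos_surj (ξ : Z.X) : Function.Surjective (stepPos T Z e ι ξ) := by
  rintro (l | ⟨v, u⟩)
  · obtain ⟨l, rfl⟩ := ι.surjective l
    rcases l with ⟨v, b⟩ | o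
    · exact ⟨Sum.inl (v, (e ξ).symm (Sum.inl b)), by simp [stepPos]⟩
    · exact ⟨Sum.inr o, rfl⟩
  · exact ⟨Sum.inl (v, (e ξ).symm (Sum.inr u)), by simp [stepPos]⟩

lemma stepPos_eq_inr {ξ : Z.X} {w : (T.V × Z.P) ⊕ Fin (k + 1)} {v : T.V} {u : Fin (q ^ d)}
    (h : stepPos T Z e ι ξ w = Sum.inr (v, u)) :
    ∃ a, w = Sum.inl (v, a) ∧ e ξ a = Sum.inr u := by
  rcases w with ⟨v', a⟩ | o
  · simp only [stepPos] at h
    rcases h1 : e ξ a with b | u' <;> simp [h1] at h
    obtain ⟨rfl, rfl⟩ := h
    exact ⟨a, rfl, h1⟩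
  · simp [stepPos] at h

/-- Type read off a position. -/
def posTy (x : T.X) : (T.C × Fin (q ^ d)) ⊕ (T.V × Fin (q ^ d)) → ℕ
  | Sum.inl _ => m + 1
  | Sum.inr (v, _) => T.ty x v

/-- Copy read off a position. -/
def posCp (x : T.X) : (T.C × Fin (q ^ d)) ⊕ (T.V × Fin (q ^ d)) → T.C × Fin (q ^ d)
  | Sum.inl l => l
  | Sum.inr (v, u) => (T.cp x v, u)

/-- The tower with one more type on top. -/
def Tower.step (hq : 1 ≤ q) (he : ∀ ξ a b, e ξ a = Sum.inl b ↔ Z.m ξ b = a) :
    Tower q d (m + 1) where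
  X := T.X × Z.X
  V := (T.V × Z.P) ⊕ Fin (k + 1)
  C := T.C × Fin (q ^ d)
  fX := inferInstance
  fV := inferInstance
  fC := inferInstance
  neC := ⟨(Classical.arbitrary _, ⟨0, pow_pos hq _⟩)⟩
  ty := fun x w => posTy T x.1 (stepPos T Z e ι x.2 w)
  cp := fun x w => posCp T x.1 (stepPos T Z e ι x.2 w)
  ty_le := by
    intro x w
    rcases stepPos T Z e ι x.2 w with l | ⟨v, u⟩
    · exact le_rfl
    · exact (T.ty_le _ _).trans (Nat.le_succ _)
  inj := by
    intro x w w' h1 h2
    apply stepPos_inj T Z e ι x.2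
    revert h1 h2
    rcases stepPos T Z e ι x.2 w with l | ⟨v, u⟩ <;>
      rcases stepPos T Z e ι x.2 w' with l' | ⟨v', u'⟩ <;> simp only [posTy, posCp]
    · intro _ h
      rw [h]
    · intro h
      have := T.ty_le x.1 v'
      omega
    · intro h
      have := T.ty_le x.1 v
      omega
    · intro h1 h2
      simp only [Prod.mk.injEq] at h2
      rw [T.inj _ _ _ h1 h2.1, h2.2]
  surj := by
    intro x i hi c
    rcases Nat.lt_or_ge i (m + 1) with h | h
    · obtain ⟨v, hv1, hv2⟩ := T.surj x.1 i (by omega) c.1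
      obtain ⟨w, hw⟩ := stepPos_surj T Z e ι x.2 (Sum.inr (v, c.2))
      exact ⟨w, by simp [hw, posTy, hv1], by simp [hw, posCp, hv2]⟩
    · obtain ⟨w, hw⟩ := stepPos_surj T Z e ι x.2 (Sum.inl c)
      exact ⟨w, by simp only [hw, posTy]; omega, by simp [hw, posCp]⟩
  cardX := by simpa using T.cardX.mul Z.cardX
  cardV := by
    have h := Fintype.card_congr ι
    simp only [Fintype.card_sum, Fintype.card_prod, Fintype.card_fin] at h ⊢
    rw [Z.cardP, mul_add, add_right_comm, h, T.cardV]
    ring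
  top := Sum.inr 0
  top_ty := fun _ => rfl
  prop := by
    classical
    intro g hg A hA v₀ hv₀ F hF h0
    rcases v₀ with ⟨v₀, a₀⟩ | o
    swap
    · have : ∀ x, F x = 0 := fun x => h0 x (by simpa [stepPos, posTy] using hg)
      simp [this]
    rcases Nat.lt_or_ge g m with hgm | hgm
    · rw [Fintype.sum_prod_type, Finset.sum_comm]
      refine Finset.dvd_sum fun ξ _ => ?_
      let f : (T.V × Z.P) ⊕ Fin (k + 1) → T.V := Sum.elim Prod.fst fun _ => v₀
      have hmem : ∀ w ∈ A, ∀ v u, stepPos T Z e ι ξ w = Sum.inr (v, u) → v ∈ A.image f := by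
        intro w hw v u h
        obtain ⟨a, rfl, -⟩ := stepPos_eq_inr T Z e ι h
        exact Finset.mem_image.mpr ⟨_, hw, rfl⟩
      refine T.prop g hgm (A.image f) (Finset.card_image_le.trans hA) v₀
        (Finset.mem_image.mpr ⟨_, hv₀, rfl⟩) (fun x => F (x, ξ)) ?_ ?_
      · intro x y h1 h2 h3
        refine hF _ _ ?_ ?_ ?_
        · intro w hw
          have := hmem w hw
          revert this
          rcases stepPos T Z e ι ξ w with l | ⟨v, u⟩
          · intro _
            rfl
          · intro h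
            exact h1 v (h v u rfl)
        · intro w hw
          have := hmem w hw
          revert this
          rcases stepPos T Z e ι ξ w with l | ⟨v, u⟩
          · intro _ _
            rfl
          · intro h h'
            simp only [posCp, posTy] at h' ⊢
            rw [h2 v (h v u rfl) h']
        · intro w hw w' hw'
          have t1 := hmem w hw
          have t2 := hmem w' hw'
          revert t1 t2
          rcases stepPos T Z e ι ξ w with l | ⟨v, u⟩
          · intro _ _ h'
            simp only [posTy] at h'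
            omega
          rcases stepPos T Z e ι ξ w' with l' | ⟨v', u'⟩
          · intro _ _ _ h'
            simp only [posTy] at h'
            omega
          intro h h' h4 h5
          simp only [posCp, posTy, Prod.mk.injEq] at h4 h5 ⊢
          rw [h3 v (h v u rfl) v' (h' v' u' rfl) h4 h5]
      · intro x hx
        refine h0 _ ?_
        simp only [stepPos]
        rcases e ξ a₀ with b | u
        · simpa [posTy] using hg
        · simpa [posTy] using hx
    · obtain rfl : g = m := by omega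
      rw [Fintype.sum_prod_type]
      refine Finset.dvd_sum fun x _ => ?_
      let f : (T.V × Z.P) ⊕ Fin (k + 1) → Z.P := Sum.elim Prod.snd fun _ => a₀
      refine Z.prop (A.image f) (Finset.card_image_le.trans hA) a₀
        (Finset.mem_image.mpr ⟨_, hv₀, rfl⟩) (fun ξ => F (x, ξ)) ?_ ?_
      · intro ξ ξ' h
        have key : ∀ w ∈ A, (∃ l, stepPos T Z e ι ξ w = Sum.inl l ∧ stepPos T Z e ι ξ' w = Sum.inl l)
            ∨ ∃ v u u', stepPos T Z e ι ξ w = Sum.inr (v, u) ∧
              stepPos T Z e ι ξ' w = Sum.inr (v, u') := by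
          intro w hw
          rcases w with ⟨v, a⟩ | o
          · have h1 := h a (Finset.mem_image.mpr ⟨_, hw, rfl⟩)
            simp only [← he] at h1
            simp only [stepPos]
            rcases h2 : e ξ a with b | u
            · rw [(h1 b).mp h2]
              exact Or.inl ⟨_, rfl, rfl⟩
            · rcases h3 : e ξ' a with b | u'
              · rw [(h1 b).mpr h3] at h2
                simp at h2
              · exact Or.inr ⟨v, u, u', rfl, rfl⟩
          · exact Or.inl ⟨_, rfl, rfl⟩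
        refine hF _ _ ?_ ?_ ?_
        · intro w hw
          rcases key w hw with ⟨l, h1, h2⟩ | ⟨v, u, u', h1, h2⟩ <;> simp [h1, h2, posTy]
        · intro w hw
          rcases key w hw with ⟨l, h1, h2⟩ | ⟨v, u, u', h1, h2⟩
          · simp [h1, h2, posCp]
          · have := T.ty_le x v
            simp only [h1, posTy]
            omega
        · intro w hw w' hw'
          rcases key w hw with ⟨l, h1, h2⟩ | ⟨v, u, u', h1, h2⟩
          · simp only [h1, posTy]
            omega
          rcases key w' hw' with ⟨l, h3, h4⟩ | ⟨v₁, u₁, u₁', h3, h4⟩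
          · simp only [h3, posTy]
            omega
          intro _ _
          simp only [h1, h2, h3, h4, posCp, Prod.mk.injEq]
          obtain ⟨a, rfl, ha⟩ := stepPos_eq_inr T Z e ι h1
          obtain ⟨a', ha1, ha'⟩ := stepPos_eq_inr T Z e ι h2
          obtain ⟨b, rfl, hb⟩ := stepPos_eq_inr T Z e ι h3
          obtain ⟨b', hb1, hb'⟩ := stepPos_eq_inr T Z e ι h4
          simp only [Sum.inl.injEq, Prod.mk.injEq, true_and] at ha1 hb1
          subst ha1 hb1
          have e1 : u = u₁ ↔ a = b := by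
            rw [← (e ξ).apply_eq_iff_eq, ha, hb]
            simp
          have e2 : u' = u₁' ↔ a = b := by
            rw [← (e ξ').apply_eq_iff_eq, ha', hb']
            simp
          rw [e1, e2]
      · intro ξ b hb
        refine h0 _ ?_
        simp [stepPos, (he ξ a₀ b).mpr hb, posTy]

end step

theorem Tower.nonempty (q d m : ℕ) (hq : m * 4 ^ d < q) : Nonempty (Tower q d m) := by
  induction m with
  | zero => exact ⟨Tower.zero q d⟩
  | succ m ih =>
    have hq1 : 1 ≤ q := by omega
    obtain ⟨T⟩ := ih (lt_of_le_of_lt (Nat.mul_le_mul_right _ (Nat.le_succ m)) hq)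
    obtain ⟨Z⟩ := PHP.nonempty q hq1 d
    choose e he using Z.exists_equiv
    have hlt : (m + 1) * Fintype.card Z.N < q ^ d := by
      have h1 := Z.cardN
      have h2 : 0 < q ^ d := pow_pos hq1 _
      refine Nat.lt_of_mul_lt_mul_left (a := q) ?_
      calc q * ((m + 1) * Fintype.card Z.N) = (m + 1) * (q * Fintype.card Z.N) := by ring
        _ ≤ (m + 1) * (4 ^ d * q ^ d) := Nat.mul_le_mul_left _ h1
        _ = ((m + 1) * 4 ^ d) * q ^ d := by ring
        _ < q * q ^ d := Nat.mul_lt_mul_of_pos_right hq h2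
    have hC : 0 < Fintype.card T.C := Fintype.card_pos
    have hlt' : Fintype.card T.V * Fintype.card Z.N < Fintype.card T.C * q ^ d := by
      rw [T.cardV]
      calc (m + 1) * Fintype.card T.C * Fintype.card Z.N
          = Fintype.card T.C * ((m + 1) * Fintype.card Z.N) := by ring
        _ < _ := Nat.mul_lt_mul_of_pos_left hlt hC
    obtain ⟨k, hk⟩ := Nat.exists_eq_add_of_lt hlt'
    have ι : (T.V × Z.N) ⊕ Fin (k + 1) ≃ T.C × Fin (q ^ d) :=
      Fintype.equivOfCardEq (by simp [hk, add_assoc])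
    exact ⟨T.step Z e ι hq1 he⟩

end Pool.Agent.Lib.MP_4a16d5_al
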